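import Pool.Agent.W839.Ch.Basic

/-! # CH-1: the random graph from independent bits, resampling, independence of blocks -/

set_option autoImplicit false
open scoped Classical
open Finset Filter Topology

namespace Pool.Agent.W839.Ch

section
variable {ι : Type} [Fintype ι]

/-- the weight of a configuration -/
noncomputable def wB (p : ℝ) (ω : ι → Bool) : ℝ := ∏ i, bw p (ω i)

lemma sum_wB (p : ℝ) : ∑ ω : ι → Bool, wB p ω = 1 := by
  have := EB_one (ι := ι) p
  unfold EB at this
  simpa [wB] using this

/-- resample the coordinates in `B` -/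
def mx (B : ι → Prop) [DecidablePred B] (ω η : ι → Bool) : ι → Bool :=
  fun i => if B i then η i else ω i

lemma mx_mx (B : ι → Prop) (ω η : ι → Bool) : mx B (mx B ω η) (mx B η ω) = ω := by
  funext i
  unfold mx
  by_cases h : B i <;> simp [h]

lemma wB_mx (p : ℝ) (B : ι → Prop) (ω η : ι → Bool) :
    wB p (mx B ω η) * wB p (mx B η ω) = wB p ω * wB p η := by
  unfold wB
  rw [← Finset.prod_mul_distrib, ← Finset.prod_mul_distrib]
  refine Finset.prod_congr rfl (fun i _ => ?_)
  unfold mx
  by_cases h : B i <;> simp [h, mul_comm]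

lemma EB_mul_left (p c : ℝ) (F : (ι → Bool) → ℝ) : EB p (fun ω => c * F ω) = c * EB p F := by
  unfold EB
  rw [Finset.mul_sum]
  exact Finset.sum_congr rfl (fun ω _ => by ring)

lemma EB_mul_right (p c : ℝ) (F : (ι → Bool) → ℝ) : EB p (fun ω => F ω * c) = EB p F * c := by
  unfold EB
  rw [Finset.sum_mul]
  exact Finset.sum_congr rfl (fun ω _ => by ring)

end

theorem mix : S_MIX := by
  intro ι _ p B F
  have h1 : EB p (fun ω => EB p (fun η => F (fun i => if B i then η i else ω i)))
      = ∑ q : (ι → Bool) × (ι → Bool), wB p q.1 * wB p q.2 * F (mx B q.1 q.2) := by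
    rw [Fintype.sum_prod_type]
    unfold EB
    refine Finset.sum_congr rfl (fun ω _ => ?_)
    rw [Finset.mul_sum]
    refine Finset.sum_congr rfl (fun η _ => ?_)
    show wB p ω * (wB p η * F (mx B ω η)) = _
    ring
  rw [h1]
  let e : ((ι → Bool) × (ι → Bool)) ≃ ((ι → Bool) × (ι → Bool)) :=
    { toFun := fun q => (mx B q.1 q.2, mx B q.2 q.1)
      invFun := fun q => (mx B q.1 q.2, mx B q.2 q.1)
      left_inv := fun q => by
        ext1
        · exact mx_mx B q.1 q.2
        · exact mx_mx B q.2 q.1
      right_inv := fun q => by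
        ext1
        · exact mx_mx B q.1 q.2
        · exact mx_mx B q.2 q.1 }
  have h2 : ∑ q : (ι → Bool) × (ι → Bool), wB p q.1 * wB p q.2 * F (mx B q.1 q.2)
      = ∑ q : (ι → Bool) × (ι → Bool), wB p q.1 * wB p q.2 * F q.1 := by
    rw [← Equiv.sum_comp e (fun q => wB p q.1 * wB p q.2 * F q.1)]
    refine Finset.sum_congr rfl (fun q _ => ?_)
    show wB p q.1 * wB p q.2 * F (mx B q.1 q.2)
      = wB p (mx B q.1 q.2) * wB p (mx B q.2 q.1) * F (mx B q.1 q.2)
    rw [wB_mx]
  rw [h2, Fintype.sum_prod_type]
  unfold EB
  refine Finset.sum_congr rfl (fun ω _ => ?_)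
  have h3 : ∀ η : ι → Bool, wB p (ω, η).1 * wB p (ω, η).2 * F (ω, η).1
      = (wB p ω * F ω) * wB p η := fun η => by
    show wB p ω * wB p η * F ω = _
    ring
  rw [Finset.sum_congr rfl (fun η _ => h3 η), ← Finset.mul_sum, sum_wB, mul_one]
  rfl

theorem blk : S_BLK := by
  intro ι J _ _ p B h hdep
  have key : ∀ s : Finset J, EB p (fun ω => ∏ j ∈ s, h j ω) = ∏ j ∈ s, EB p (h j) := by
    intro s
    induction s using Finset.induction_on with
    | empty => simpa using EB_one (ι := ι) p
    | insert a s ha ih =>
      rw [Finset.prod_insert ha, ← ih, mix ι p (fun i => B i = some a)]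
      refine (congrArg (EB p) (funext (fun ω => ?_) :
        _ = fun ω => (∏ j ∈ s, h j ω) * EB p (h a))).trans ?_
      · rw [← EB_mul_left]
        congr 1
        funext η
        rw [Finset.prod_insert ha, mul_comm]
        congr 1
        · refine Finset.prod_congr rfl (fun j hj => ?_)
          refine hdep j _ _ (fun i hi => ?_)
          have : B i ≠ some a := by
            rw [hi]
            intro h'
            exact ha (by rw [← Option.some.inj h']; exact hj)
          simp only [this, if_false]
        · refine hdep a _ _ (fun i hi => ?_)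
          simp only [hi, if_true]
      · rw [EB_mul_right, mul_comm]
  exact key Finset.univ

theorem bit : S_BIT := by
  intro n p F
  have h1 : ∀ G : SimpleGraph (Fin n),
      ∑ ω ∈ Finset.univ.filter (fun ω : Sym2 (Fin n) → Bool => gr ω = G), wB p ω = wt n p G := by
    intro G
    set t : Sym2 (Fin n) → Finset Bool := fun e =>
      if e.IsDiag then Finset.univ else {decide (e ∈ G.edgeSet)} with ht
    have hf : Finset.univ.filter (fun ω : Sym2 (Fin n) → Bool => gr ω = G)
        = Fintype.piFinset t := by
      ext ω
      rw [Finset.mem_filter, Fintype.mem_piFinset]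
      constructor
      · rintro ⟨_, rfl⟩ e
        induction e with
        | _ u v =>
          by_cases huv : u = v
          · simp [ht, huv]
          · simp only [ht, Sym2.mk_isDiag_iff, huv, if_false, Finset.mem_singleton,
              SimpleGraph.mem_edgeSet, gr, ne_eq, not_false_eq_true, true_and]
            simp
      · intro h
        refine ⟨Finset.mem_univ _, ?_⟩
        ext u v
        have h2 := h s(u, v)
        by_cases huv : u = v
        · subst huv
          simp
        · simp only [ht, Sym2.mk_isDiag_iff, huv, if_false, Finset.mem_singleton,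
            SimpleGraph.mem_edgeSet] at h2
          simp only [gr, ne_eq, huv, not_false_eq_true, true_and, h2, decide_eq_true_eq]
    rw [hf]
    have h3 := Finset.prod_univ_sum t (fun _ b => bw p b)
    have h4 : ∑ ω ∈ Fintype.piFinset t, wB p ω = ∏ e, ∑ b ∈ t e, bw p b := by
      rw [h3]; rfl
    rw [h4]
    have h5 : ∀ e : Sym2 (Fin n), ∑ b ∈ t e, bw p b
        = (if e.IsDiag then 1 else if e ∈ G.edgeFinset then p else 1 - p) := by
      intro e
      by_cases hd : e.IsDiag
      · simp [ht, hd, bw]
      · by_cases he : e ∈ G.edgeSet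
        · simp [ht, hd, he, bw]
        · simp [ht, hd, he, bw]
    rw [Finset.prod_congr rfl (fun e _ => h5 e)]
    have h6 : ∏ e : Sym2 (Fin n), (if e.IsDiag then (1 : ℝ)
          else if e ∈ G.edgeFinset then p else 1 - p)
        = ∏ e ∈ Finset.univ.filter (fun e : Sym2 (Fin n) => ¬ e.IsDiag),
          (if e ∈ G.edgeFinset then p else 1 - p) := by
      rw [Finset.prod_filter]
      refine Finset.prod_congr rfl (fun e _ => ?_)
      by_cases hd : e.IsDiag <;> simp [hd]
    rw [h6, Finset.prod_ite, Finset.prod_const, Finset.prod_const]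
    have h7 : (Finset.univ.filter (fun e : Sym2 (Fin n) => ¬ e.IsDiag)).filter
        (fun e => e ∈ G.edgeFinset) = G.edgeFinset := by
      ext e
      rw [Finset.mem_filter, Finset.mem_filter]
      constructor
      · exact fun h => h.2
      · intro h
        exact ⟨⟨Finset.mem_univ _, G.not_isDiag_of_mem_edgeFinset h⟩, h⟩
    have h8 : ((Finset.univ.filter (fun e : Sym2 (Fin n) => ¬ e.IsDiag)).filter
        (fun e => ¬ e ∈ G.edgeFinset)).card = n.choose 2 - G.edgeFinset.card := by
      have h9 := Finset.card_filter_add_card_filter_not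
        (s := Finset.univ.filter (fun e : Sym2 (Fin n) => ¬ e.IsDiag))
        (p := fun e => e ∈ G.edgeFinset)
      rw [h7] at h9
      have h10 : (Finset.univ.filter (fun e : Sym2 (Fin n) => ¬ e.IsDiag)).card
          = n.choose 2 := by
        have := Sym2.card_subtype_not_diag (α := Fin n)
        rw [Fintype.card_fin, Fintype.card_subtype] at this
        convert this
      omega
    rw [h7, h8]
    unfold wt
    congr
  have h0 : EB p (fun ω : Sym2 (Fin n) → Bool => F (gr ω))
      = ∑ ω : Sym2 (Fin n) → Bool, wB p ω * F (gr ω) := by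
    unfold EB wB
    congr!
  rw [h0]
  refine (Finset.sum_fiberwise Finset.univ (fun ω : Sym2 (Fin n) → Bool => gr ω)
    (fun ω => wB p ω * F (gr ω))).symm.trans ?_
  refine Finset.sum_congr rfl (fun G _ => ?_)
  rw [← h1 G, Finset.sum_mul]
  refine Finset.sum_congr rfl (fun ω hω => ?_)
  rw [(Finset.mem_filter.1 hω).2]

end Pool.Agent.W839.Ch
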