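import Pool.Agent.W839.Ch.ClsK

/-! # CH-11: Rayleigh quotients, and eigenvectors that are not nearly constant -/

set_option autoImplicit false
open scoped Classical
open Finset Filter Topology

namespace Pool.Agent.W839.Ch

/-- the centred adjacency matrix -/
noncomputable def cen {n : ℕ} (p : ℝ) (G : SimpleGraph (Fin n)) (u v : Fin n) : ℝ :=
  adj G u v - if u = v then 0 else p

lemma OpN_iff {n : ℕ} {p C : ℝ} {G : SimpleGraph (Fin n)} (h : OpN p C G) (x y : Fin n → ℝ) :
    (∑ u, ∑ v, cen p G u v * x u * y v) ^ 2 ≤ C ^ 2 * n * sn x * sn y := h x y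

lemma cen_symm {n : ℕ} (p : ℝ) (G : SimpleGraph (Fin n)) (u v : Fin n) :
    cen p G u v = cen p G v u := by
  unfold cen
  rw [adj_comm' G u v]
  by_cases h : u = v
  · rw [h]
  · rw [if_neg h, if_neg (Ne.symm h)]

lemma adj_cen {n : ℕ} (p : ℝ) (G : SimpleGraph (Fin n)) (v : Fin n) (z : Fin n → ℝ) :
    ∑ u, adj G v u * z u = ∑ u, cen p G v u * z u + p * ∑ u, z u - p * z v := by
  have e : ∀ u, adj G v u * z u = cen p G v u * z u + (p * z u - if v = u then p * z u else 0) := by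
    intro u
    unfold cen
    by_cases h : v = u
    · simp [h]
    · simp [h]; ring
  rw [Finset.sum_congr rfl (fun u _ => e u), Finset.sum_add_distrib, Finset.sum_sub_distrib,
    ← Finset.mul_sum, Finset.sum_ite_eq, if_pos (Finset.mem_univ v)]
  ring

lemma OpN_vec {n : ℕ} {p C : ℝ} {G : SimpleGraph (Fin n)} (h : OpN p C G) (z : Fin n → ℝ) :
    ∑ v, (∑ u, cen p G v u * z u) ^ 2 ≤ C ^ 2 * n * sn z := by
  set x : Fin n → ℝ := fun v => ∑ u, cen p G v u * z u with hx
  have h1 := OpN_iff h x z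
  have e : ∑ u, ∑ v, cen p G u v * x u * z v = sn x := by
    unfold sn
    refine Finset.sum_congr rfl (fun u _ => ?_)
    have : ∑ v, cen p G u v * x u * z v = x u * ∑ v, cen p G u v * z v := by
      rw [Finset.mul_sum]
      exact Finset.sum_congr rfl (fun v _ => by ring)
    rw [this, sq]
  rw [e] at h1
  have e2 : ∑ v, (∑ u, cen p G v u * z u) ^ 2 = sn x := rfl
  rw [e2]
  have h0 := sn_nonneg x
  rcases h0.eq_or_lt with h2 | h2
  · rw [← h2]
    have := sn_nonneg z
    positivity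
  · have h3 : sn x * sn x ≤ (C ^ 2 * n * sn z) * sn x := by nlinarith
    exact le_of_mul_le_mul_right h3 h2

lemma sum_ones {n : ℕ} (p : ℝ) (G : SimpleGraph (Fin n)) (f : Fin n → ℝ) :
    ∑ v, deg G v * f v = ∑ u, ∑ v, cen p G u v * f u * 1 + p * (n - 1) * ∑ v, f v := by
  have e : ∀ v, deg G v * f v = ∑ u, cen p G v u * f v * 1 + p * (n - 1) * f v := by
    intro v
    have h1 := adj_cen p G v (fun _ => 1)
    simp only [mul_one, Finset.sum_const, Finset.card_univ, Fintype.card_fin, nsmul_eq_mul] at h1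
    unfold deg
    rw [h1, ← Finset.sum_mul, ← Finset.sum_mul]
    ring
  rw [Finset.sum_congr rfl (fun v _ => e v), Finset.sum_add_distrib, ← Finset.mul_sum]

lemma sum_small {n : ℕ} (hn : 2 ≤ n) {p C : ℝ} (hp : 0 < p) {G : SimpleGraph (Fin n)}
    (hO : OpN p C G) {f : Fin n → ℝ} (hf : f ∈ perp (deg G)) :
    p ^ 2 * (∑ v, f v) ^ 2 ≤ 4 * C ^ 2 * sn f := by
  have hf' : ∑ v, deg G v * f v = 0 := hf
  rw [sum_ones p G f] at hf'
  have h1 := OpN_iff hO f (fun _ => 1)
  have e1 : sn (fun _ : Fin n => (1 : ℝ)) = n := by simp [sn]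
  rw [e1] at h1
  have h2 : ∑ u, ∑ v, cen p G u v * f u * 1 = - (p * (n - 1) * ∑ v, f v) := by linarith
  rw [h2] at h1
  have hn' : (2 : ℝ) ≤ n := by exact_mod_cast hn
  have h3 : (n : ℝ) ^ 2 * (p ^ 2 * (∑ v, f v) ^ 2) ≤ (n : ℝ) ^ 2 * (4 * C ^ 2 * sn f) := by
    have h4 : (n : ℝ) ^ 2 ≤ 4 * (n - 1) ^ 2 := by nlinarith
    have h5 : 0 ≤ p ^ 2 * (∑ v, f v) ^ 2 := by positivity
    nlinarith
  exact le_of_mul_le_mul_left h3 (by positivity)

theorem th : S_TH := by
  intro p hp hp1 C hC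
  refine ⟨4 / (3 * p) * (C + 4 * C ^ 2 / p + p), by positivity, 2, ?_⟩
  intro n hn G hO hD θ f hf hf0 hR
  have hn' : (2 : ℝ) ≤ n := by exact_mod_cast hn
  have hn0 : (0 : ℝ) < n := by linarith
  have hsn : 0 < sn f := by
    rcases (sn_nonneg f).eq_or_lt with h | h
    · exfalso
      apply hf0
      funext v
      have := (Finset.sum_eq_zero_iff_of_nonneg (fun v _ => sq_nonneg (f v))).1 h.symm v
        (Finset.mem_univ v)
      exact pow_eq_zero_iff (two_ne_zero) |>.1 this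
    · exact h
  set S := ∑ v, f v with hS
  have hSm : p ^ 2 * S ^ 2 ≤ 4 * C ^ 2 * sn f := sum_small hn hp hO hf
  set X := ∑ u, ∑ v, cen p G u v * f u * f v with hX
  have hXb : X ^ 2 ≤ C ^ 2 * n * sn f * sn f := OpN_iff hO f f
  have hquad : ∑ u, ∑ v, adj G u v * f u * f v = X + p * S ^ 2 - p * sn f := by
    have e : ∀ u, ∑ v, adj G u v * f u * f v
        = ∑ v, cen p G u v * f u * f v + p * S * f u - p * f u ^ 2 := by
      intro u
      have h1 := adj_cen p G u f
      have e1 : ∑ v, adj G u v * f u * f v = f u * ∑ v, adj G u v * f v := by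
        rw [Finset.mul_sum]
        exact Finset.sum_congr rfl (fun v _ => by ring)
      have e2 : ∑ v, cen p G u v * f u * f v = f u * ∑ v, cen p G u v * f v := by
        rw [Finset.mul_sum]
        exact Finset.sum_congr rfl (fun v _ => by ring)
      rw [e1, e2, h1]
      ring
    rw [Finset.sum_congr rfl (fun u _ => e u), Finset.sum_sub_distrib, Finset.sum_add_distrib,
      ← Finset.mul_sum, ← Finset.mul_sum]
    unfold sn
    rw [← hS]
    ring
  set Dn := ∑ v, deg G v * f v ^ 2 with hDn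
  have hDl : 3 / 4 * p * n * sn f ≤ Dn := by
    rw [hDn, sn, Finset.mul_sum]
    exact Finset.sum_le_sum (fun v _ => mul_le_mul_of_nonneg_right (DG_lower hD v) (sq_nonneg _))
  have hsq : Real.sqrt n ^ 2 = n := Real.sq_sqrt hn0.le
  have hs1 : 1 ≤ Real.sqrt n := Real.one_le_sqrt.2 (by linarith)
  have hXa : |X| ≤ C * Real.sqrt n * sn f := by
    refine abs_le_of_sq_le_sq ?_ (by positivity)
    calc X ^ 2 ≤ C ^ 2 * n * sn f * sn f := hXb
      _ = (C * Real.sqrt n * sn f) ^ 2 := by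
          rw [mul_pow, mul_pow, hsq]; ring
  have hSp : p * S ^ 2 ≤ 4 * C ^ 2 / p * sn f := by
    have : p * (p * S ^ 2) ≤ p * (4 * C ^ 2 / p * sn f) := by
      have e : p * (4 * C ^ 2 / p * sn f) = 4 * C ^ 2 * sn f := by field_simp
      rw [e]
      nlinarith
    exact le_of_mul_le_mul_left this hp
  have habs : |θ| * Dn ≤ (C + 4 * C ^ 2 / p + p) * Real.sqrt n * sn f := by
    have hDn0 : 0 ≤ Dn := le_trans (by positivity) hDl
    have e : |θ| * Dn = |θ * Dn| := by rw [abs_mul, abs_of_nonneg hDn0]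
    rw [e, ← hR, hquad]
    have h1 : |X + p * S ^ 2 - p * sn f| ≤ |X| + p * S ^ 2 + p * sn f := by
      have h2 : 0 ≤ p * S ^ 2 := by positivity
      have h3 : 0 ≤ p * sn f := by positivity
      rw [abs_le]
      constructor
      · linarith [neg_abs_le X]
      · linarith [le_abs_self X]
    refine h1.trans ?_
    have h4 : 4 * C ^ 2 / p * sn f ≤ 4 * C ^ 2 / p * sn f * Real.sqrt n :=
      le_mul_of_one_le_right (by positivity) hs1
    have h5 : p * sn f ≤ p * sn f * Real.sqrt n := le_mul_of_one_le_right (by positivity) hs1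
    nlinarith
  have hfin : |θ| * Real.sqrt n ≤ 4 / (3 * p) * (C + 4 * C ^ 2 / p + p) := by
    have h1 : |θ| * (3 / 4 * p * n * sn f) ≤ (C + 4 * C ^ 2 / p + p) * Real.sqrt n * sn f :=
      (mul_le_mul_of_nonneg_left hDl (abs_nonneg θ)).trans habs
    have h2 : (|θ| * Real.sqrt n) * (3 / 4 * p * (Real.sqrt n * sn f))
        ≤ (C + 4 * C ^ 2 / p + p) * (Real.sqrt n * sn f) := by
      calc (|θ| * Real.sqrt n) * (3 / 4 * p * (Real.sqrt n * sn f))
          = |θ| * (3 / 4 * p * (Real.sqrt n ^ 2) * sn f) := by ring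
        _ = |θ| * (3 / 4 * p * n * sn f) := by rw [hsq]
        _ ≤ (C + 4 * C ^ 2 / p + p) * Real.sqrt n * sn f := h1
        _ = _ := by ring
    have h3 : 0 < Real.sqrt n * sn f := by positivity
    have h4 : (|θ| * Real.sqrt n) * (3 / 4 * p) ≤ C + 4 * C ^ 2 / p + p := by
      refine le_of_mul_le_mul_right ?_ h3
      linarith
    have e : 4 / (3 * p) * (C + 4 * C ^ 2 / p + p) = (C + 4 * C ^ 2 / p + p) / (3 / 4 * p) := by
      field_simp
    rw [e, le_div_iff₀ (by positivity)]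
    exact h4
  calc θ ^ 2 * n = (|θ| * Real.sqrt n) ^ 2 := by rw [mul_pow, hsq, sq_abs]
    _ ≤ _ := pow_le_pow_left₀ (by positivity) hfin 2

/-- many coordinates of typical size -/
lemma inc_many {n : ℕ} (hn : 2 ≤ n) {p C c ε C1 c4 : ℝ} (hp : 0 < p) (hp1 : p < 1) (hc : 0 < c)
    (hc4 : 0 < c4) (hc4' : c4 ^ 2 ≤ 1 / 2)
    (hc4c : 6 * (C1 ^ 2 + C ^ 2 + 1) * c4 ^ 2 < c)
    {G : SimpleGraph (Fin n)} (hO : OpN p C G) (hS : SP c ε G)
    {θ : ℝ} {f : Fin n → ℝ} (hθ : θ ^ 2 * n ≤ C1 ^ 2) (hsn : 0 < sn f)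
    (hrow : ∀ v, ∑ u, adj G v u * f u = θ * deg G v * f v) :
    ε * n < ((Finset.univ.filter (fun v : Fin n => c4 ^ 2 * sn f ≤ n * f v ^ 2)).card : ℝ) := by
  by_contra hcon
  rw [not_lt] at hcon
  have hn0 : (0 : ℝ) < n := by
    have : (2 : ℝ) ≤ n := by exact_mod_cast hn
    linarith
  have hn1 : (1 : ℝ) ≤ n := by
    have : (2 : ℝ) ≤ n := by exact_mod_cast hn
    linarith
  set T := Finset.univ.filter (fun v : Fin n => c4 ^ 2 * sn f ≤ n * f v ^ 2) with hT
  set y : Fin n → ℝ := fun v => if v ∈ T then f v else 0 with hy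
  set z : Fin n → ℝ := fun v => if v ∈ T then 0 else f v with hz
  have hyz : ∀ v, f v = y v + z v := by
    intro v
    simp only [hy, hz]
    split_ifs <;> ring
  have hsnyz : sn f = sn y + sn z := by
    unfold sn
    rw [← Finset.sum_add_distrib]
    refine Finset.sum_congr rfl (fun v _ => ?_)
    simp only [hy, hz]
    split_ifs <;> ring
  have hz2 : ∀ v, n * z v ^ 2 ≤ c4 ^ 2 * sn f := by
    intro v
    simp only [hz]
    split_ifs with h
    · have := hsn.le; simp only [ne_eq, OfNat.ofNat_ne_zero, not_false_eq_true, zero_pow, mul_zero]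
      positivity
    · have : ¬ (c4 ^ 2 * sn f ≤ n * f v ^ 2) := fun h' =>
        h (Finset.mem_filter.2 ⟨Finset.mem_univ _, h'⟩)
      exact (not_le.1 this).le
  have hsnz : sn z ≤ c4 ^ 2 * sn f := by
    have h1 : (n : ℝ) * sn z ≤ n * (c4 ^ 2 * sn f) := by
      rw [sn, Finset.mul_sum]
      calc ∑ v, (n : ℝ) * z v ^ 2 ≤ ∑ _v : Fin n, c4 ^ 2 * sn f :=
            Finset.sum_le_sum (fun v _ => hz2 v)
        _ = n * (c4 ^ 2 * sn f) := by simp
    exact le_of_mul_le_mul_left h1 hn0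
  have hsny : 1 / 2 * sn f ≤ sn y := by
    have : c4 ^ 2 * sn f ≤ 1 / 2 * sn f := mul_le_mul_of_nonneg_right hc4' hsn.le
    linarith
  have h1 := hS T hcon y (fun v hv => by simp only [hy, if_neg hv]) (-(p * ∑ u, z u))
  have h2 : ∀ v ∈ Tᶜ, (∑ u, adj G v u * y u - (-(p * ∑ u, z u))) ^ 2
      ≤ 3 * ((θ * deg G v * z v) ^ 2 + (∑ u, cen p G v u * z u) ^ 2 + z v ^ 2) := by
    intro v hv
    have hv' : v ∉ T := Finset.mem_compl.1 hv
    have hfz : f v = z v := by simp only [hz, if_neg hv']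
    have h3 : ∑ u, adj G v u * y u = θ * deg G v * z v - ∑ u, adj G v u * z u := by
      rw [← hfz, ← hrow v, ← Finset.sum_sub_distrib]
      refine Finset.sum_congr rfl (fun u _ => ?_)
      rw [hyz u]
      ring
    rw [h3, adj_cen p G v z]
    set a := θ * deg G v * z v
    set b := ∑ u, cen p G v u * z u
    have h4 : a - (b + p * ∑ u, z u - p * z v) - (-(p * ∑ u, z u)) = a - b + p * z v := by ring
    rw [h4]
    have h5 : (p * z v) ^ 2 ≤ z v ^ 2 := by
      rw [mul_pow]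
      have : p ^ 2 ≤ 1 := by nlinarith
      have := mul_le_mul_of_nonneg_right this (sq_nonneg (z v))
      linarith
    nlinarith [sq_nonneg (a + b), sq_nonneg (a - p * z v), sq_nonneg (b + p * z v)]
  have h6 : ∑ v ∈ Tᶜ, (∑ u, adj G v u * y u - (-(p * ∑ u, z u))) ^ 2
      ≤ 3 * (C1 ^ 2 + C ^ 2 + 1) * n * sn z := by
    refine (Finset.sum_le_sum h2).trans ?_
    refine (Finset.sum_le_sum_of_subset_of_nonneg (Finset.subset_univ _)
      (fun v _ _ => by positivity)).trans ?_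
    rw [← Finset.mul_sum, Finset.sum_add_distrib, Finset.sum_add_distrib]
    have h7 : ∑ v, (θ * deg G v * z v) ^ 2 ≤ C1 ^ 2 * n * sn z := by
      rw [sn, Finset.mul_sum]
      refine Finset.sum_le_sum (fun v _ => ?_)
      have hd := deg_le G v
      have hd0 := deg_nonneg G v
      have hd2 : deg G v ^ 2 ≤ (n : ℝ) ^ 2 := pow_le_pow_left₀ hd0 hd 2
      calc (θ * deg G v * z v) ^ 2 = deg G v ^ 2 * (θ ^ 2 * z v ^ 2) := by ring
        _ ≤ (n : ℝ) ^ 2 * (θ ^ 2 * z v ^ 2) := mul_le_mul_of_nonneg_right hd2 (by positivity)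
        _ = (θ ^ 2 * n) * (n * z v ^ 2) := by ring
        _ ≤ C1 ^ 2 * (n * z v ^ 2) := mul_le_mul_of_nonneg_right hθ (by positivity)
        _ = _ := by ring
    have h8 := OpN_vec hO z
    have h9 : ∑ v, z v ^ 2 ≤ n * sn z := by
      have := sn_nonneg z
      have e : ∑ v, z v ^ 2 = sn z := rfl
      rw [e]
      nlinarith
    nlinarith
  have h10 : c * n * (1 / 2 * sn f) ≤ 3 * (C1 ^ 2 + C ^ 2 + 1) * n * (c4 ^ 2 * sn f) := by
    calc c * n * (1 / 2 * sn f) ≤ c * n * sn y :=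
          mul_le_mul_of_nonneg_left hsny (by positivity)
      _ ≤ _ := h1
      _ ≤ _ := h6
      _ ≤ _ := mul_le_mul_of_nonneg_left hsnz (by positivity)
  have h11 : c * (n * sn f) ≤ 6 * (C1 ^ 2 + C ^ 2 + 1) * c4 ^ 2 * (n * sn f) := by nlinarith
  have h12 : 0 < (n : ℝ) * sn f := by positivity
  have h13 := le_of_mul_le_mul_right h11 h12
  linarith

/-- one-sided statement about pairs -/
lemma inc_pairs {n : ℕ} (hn : 2 ≤ n) {p c4 ε : ℝ} (hp : 0 < p)
    (hc4 : 0 < c4) (hc4' : c4 ^ 2 ≤ 1 / 2)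
    {G : SimpleGraph (Fin n)} (hD : DG p (p / 4) G)
    {f : Fin n → ℝ} (hf : ∑ v, deg G v * f v = 0) (hsn : 0 < sn f)
    (hP : ε / 2 * n ≤ ((Finset.univ.filter (fun v : Fin n => 0 < f v ∧
      c4 ^ 2 * sn f ≤ n * f v ^ 2)).card : ℝ)) :
    ε / 2 * (c4 ^ 2 / 64) * n ^ 2 ≤ ((Finset.univ.filter (fun q : Fin n × Fin n =>
        (c4 / 2) ^ 2 * sn f ≤ n * (f q.1 - f q.2) ^ 2)).card : ℝ) := by
  have hn0 : (0 : ℝ) < n := by
    have : (2 : ℝ) ≤ n := by exact_mod_cast hn
    linarith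
  set r := Real.sqrt (sn f / n) with hr
  have hr2 : n * r ^ 2 = sn f := by
    rw [hr, Real.sq_sqrt (by positivity)]
    field_simp
  have hr0 : 0 < r := Real.sqrt_pos.2 (by positivity)
  set P := Finset.univ.filter (fun v : Fin n => 0 < f v ∧ c4 ^ 2 * sn f ≤ n * f v ^ 2) with hPdef
  set M := Finset.univ.filter (fun v : Fin n => f v < c4 / 2 * r) with hM
  have hPr : ∀ v ∈ P, c4 * r ≤ f v := by
    intro v hv
    obtain ⟨_, h0, h1⟩ := Finset.mem_filter.1 hv
    refine le_of_sq_le_sq ?_ h0.le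
    rw [← hr2] at h1
    have h2 : (n : ℝ) * (c4 * r) ^ 2 ≤ n * f v ^ 2 := by nlinarith
    exact le_of_mul_le_mul_left h2 hn0
  have hMc : c4 ^ 2 / 64 * n ≤ M.card := by
    by_contra hcon
    rw [not_le] at hcon
    -- sum over M
    have h1 : (∑ v ∈ M, |f v|) ^ 2 ≤ (c4 / 8 * n * r) ^ 2 := by
      calc (∑ v ∈ M, |f v|) ^ 2 ≤ M.card * ∑ v ∈ M, |f v| ^ 2 := sq_sum_le_card_mul_sum_sq
        _ ≤ M.card * sn f := by
            refine mul_le_mul_of_nonneg_left ?_ (by positivity)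
            simp only [sq_abs]
            exact Finset.sum_le_sum_of_subset_of_nonneg (Finset.subset_univ _)
              (fun _ _ _ => sq_nonneg _)
        _ ≤ (c4 ^ 2 / 64 * n) * sn f := mul_le_mul_of_nonneg_right hcon.le hsn.le
        _ = (c4 / 8 * n * r) ^ 2 := by rw [← hr2]; ring
    have h2 : ∑ v ∈ M, |f v| ≤ c4 / 8 * n * r :=
      le_of_sq_le_sq h1 (by positivity)
    have h3 : - (5 / 4 * p * n * (c4 / 8 * n * r)) ≤ ∑ v ∈ M, deg G v * f v := by
      have h4 : ∑ v ∈ M, (-(5 / 4 * p * n) * |f v|) ≤ ∑ v ∈ M, deg G v * f v := by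
        refine Finset.sum_le_sum (fun v _ => ?_)
        have hd := (abs_le.1 (hD v)).2
        have hd' : deg G v ≤ 5 / 4 * p * n := by nlinarith
        have hd0 := deg_nonneg G v
        have h5 : deg G v * |f v| ≤ 5 / 4 * p * n * |f v| :=
          mul_le_mul_of_nonneg_right hd' (abs_nonneg _)
        have h6 : - (deg G v * |f v|) ≤ deg G v * f v := by
          have := mul_le_mul_of_nonneg_left (neg_abs_le (f v)) hd0
          linarith
        linarith
      rw [← Finset.mul_sum] at h4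
      have h7 : 5 / 4 * p * n * ∑ v ∈ M, |f v| ≤ 5 / 4 * p * n * (c4 / 8 * n * r) :=
        mul_le_mul_of_nonneg_left h2 (by positivity)
      linarith
    have h8 : 3 / 4 * p * n * (c4 / 2 * r) * (n - M.card) ≤ ∑ v ∈ Mᶜ, deg G v * f v := by
      have h9 : ∑ _v ∈ Mᶜ, 3 / 4 * p * n * (c4 / 2 * r) ≤ ∑ v ∈ Mᶜ, deg G v * f v := by
        refine Finset.sum_le_sum (fun v hv => ?_)
        have hv' : ¬ (f v < c4 / 2 * r) := fun h =>
          Finset.mem_compl.1 hv (Finset.mem_filter.2 ⟨Finset.mem_univ _, h⟩)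
        exact mul_le_mul (DG_lower hD v) (not_lt.1 hv') (by positivity) (deg_nonneg G v)
      rw [Finset.sum_const, nsmul_eq_mul, Finset.card_compl, Fintype.card_fin,
        Nat.cast_sub (by simpa using Finset.card_le_univ M)] at h9
      linarith
    have h10 : ∑ v ∈ M, deg G v * f v + ∑ v ∈ Mᶜ, deg G v * f v = 0 := by
      rw [Finset.sum_add_sum_compl, hf]
    have h11 : (1 - 1 / 128) * (n : ℝ) ≤ (n : ℝ) - (M.card : ℝ) := by
      have : c4 ^ 2 / 64 * n ≤ 1 / 128 * n := mul_le_mul_of_nonneg_right (by linarith) hn0.le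
      linarith
    have h12 : 3 / 4 * p * n * (c4 / 2 * r) * ((1 - 1 / 128) * (n : ℝ))
        ≤ 3 / 4 * p * n * (c4 / 2 * r) * ((n : ℝ) - (M.card : ℝ)) :=
      mul_le_mul_of_nonneg_left h11 (by positivity)
    have h13 : 0 < p * n * c4 * r * n := by positivity
    nlinarith
  have hsub : P ×ˢ M ⊆ Finset.univ.filter (fun q : Fin n × Fin n =>
        (c4 / 2) ^ 2 * sn f ≤ n * (f q.1 - f q.2) ^ 2) := by
    intro q hq
    obtain ⟨h1, h2⟩ := Finset.mem_product.1 hq
    refine Finset.mem_filter.2 ⟨Finset.mem_univ _, ?_⟩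
    have h3 := hPr q.1 h1
    have h4 := (Finset.mem_filter.1 h2).2
    have h5 : c4 / 2 * r ≤ f q.1 - f q.2 := by linarith
    have h6 := pow_le_pow_left₀ (by positivity) h5 2
    rw [← hr2]
    nlinarith
  have hcard : (P.card : ℝ) * M.card ≤ ((Finset.univ.filter (fun q : Fin n × Fin n =>
        (c4 / 2) ^ 2 * sn f ≤ n * (f q.1 - f q.2) ^ 2)).card : ℝ) := by
    have := Finset.card_le_card hsub
    rw [Finset.card_product] at this
    exact_mod_cast this
  refine le_trans ?_ hcard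
  by_cases hε : 0 ≤ ε
  · calc ε / 2 * (c4 ^ 2 / 64) * (n : ℝ) ^ 2 = (ε / 2 * n) * (c4 ^ 2 / 64 * n) := by ring
      _ ≤ (P.card : ℝ) * (M.card : ℝ) := mul_le_mul hP hMc (by positivity) (by positivity)
  · have h1 : ε / 2 * (c4 ^ 2 / 64) * n ^ 2 ≤ 0 := by
      rw [not_le] at hε
      have : 0 ≤ (c4 ^ 2 / 64) * (n : ℝ) ^ 2 := by positivity
      nlinarith
    exact h1.trans (by positivity)

theorem inc : S_INC := by
  intro p hp hp1 C c ε hC hc hε
  obtain ⟨C1, hC1, n1, hth⟩ := th p hp hp1 C hC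
  set c4sq : ℝ := min (1 / 2) (c / (12 * (C1 ^ 2 + C ^ 2 + 1))) with hc4sq
  have hpos : 0 < c4sq := lt_min (by norm_num) (by positivity)
  set c4 := Real.sqrt c4sq with hc4
  have hc40 : 0 < c4 := Real.sqrt_pos.2 hpos
  have hc4s : c4 ^ 2 = c4sq := Real.sq_sqrt hpos.le
  have hc4' : c4 ^ 2 ≤ 1 / 2 := by rw [hc4s]; exact min_le_left _ _
  have hc4c : 6 * (C1 ^ 2 + C ^ 2 + 1) * c4 ^ 2 < c := by
    have h1 : c4 ^ 2 ≤ c / (12 * (C1 ^ 2 + C ^ 2 + 1)) := by rw [hc4s]; exact min_le_right _ _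
    have h2 : 6 * (C1 ^ 2 + C ^ 2 + 1) * c4 ^ 2
        ≤ 6 * (C1 ^ 2 + C ^ 2 + 1) * (c / (12 * (C1 ^ 2 + C ^ 2 + 1))) :=
      mul_le_mul_of_nonneg_left h1 (by positivity)
    have e : 6 * (C1 ^ 2 + C ^ 2 + 1) * (c / (12 * (C1 ^ 2 + C ^ 2 + 1))) = c / 2 := by
      field_simp
      norm_num
    rw [e] at h2
    linarith
  set c5 : ℝ := min (c4 / 2) (min ε (ε / 2 * (c4 ^ 2 / 64))) with hc5
  have hc50 : 0 < c5 := lt_min (by positivity) (lt_min hε (by positivity))
  have hc5a : c5 ≤ c4 / 2 := min_le_left _ _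
  have hc5b : c5 ≤ ε := (min_le_right _ _).trans (min_le_left _ _)
  have hc5c : c5 ≤ ε / 2 * (c4 ^ 2 / 64) := (min_le_right _ _).trans (min_le_right _ _)
  refine ⟨c5, hc50, max 2 n1, ?_⟩
  intro n hn G hO hD hS θ f hf hf0 hrow
  have hn2 : 2 ≤ n := (le_max_left _ _).trans hn
  have hn1 : n1 ≤ n := (le_max_right _ _).trans hn
  have hn0 : (0 : ℝ) < n := by
    have : (2 : ℝ) ≤ n := by exact_mod_cast hn2
    linarith
  have hsn : 0 < sn f := by
    rcases (sn_nonneg f).eq_or_lt with h | h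
    · exfalso
      apply hf0
      funext v
      have := (Finset.sum_eq_zero_iff_of_nonneg (fun v _ => sq_nonneg (f v))).1 h.symm v
        (Finset.mem_univ v)
      exact pow_eq_zero_iff (two_ne_zero) |>.1 this
    · exact h
  have hθ : θ ^ 2 * n ≤ C1 ^ 2 := by
    refine hth n hn1 G hO hD θ f hf hf0 ?_
    rw [Finset.mul_sum]
    refine Finset.sum_congr rfl (fun u _ => ?_)
    have e1 : ∑ v, adj G u v * f u * f v = f u * ∑ v, adj G u v * f v := by
      rw [Finset.mul_sum]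
      exact Finset.sum_congr rfl (fun v _ => by ring)
    rw [e1, hrow u]
    ring
  have hmany := inc_many hn2 hp hp1 hc hc40 hc4' hc4c hO hS hθ hsn hrow
  constructor
  · have hsub : (Finset.univ.filter (fun v : Fin n => c4 ^ 2 * sn f ≤ n * f v ^ 2)) ⊆
        (Finset.univ.filter (fun v : Fin n => c5 ^ 2 * sn f ≤ n * f v ^ 2)) := by
      intro v hv
      refine Finset.mem_filter.2 ⟨Finset.mem_univ _, le_trans ?_ (Finset.mem_filter.1 hv).2⟩
      exact mul_le_mul_of_nonneg_right (pow_le_pow_left₀ hc50.le (by linarith) 2) hsn.le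
    have h1 : (((Finset.univ.filter (fun v : Fin n => c4 ^ 2 * sn f ≤ n * f v ^ 2)).card : ℕ) : ℝ)
        ≤ ((Finset.univ.filter (fun v : Fin n => c5 ^ 2 * sn f ≤ n * f v ^ 2)).card : ℝ) := by
      exact_mod_cast Finset.card_le_card hsub
    have h2 : c5 * n ≤ ε * n := mul_le_mul_of_nonneg_right hc5b hn0.le
    linarith
  · -- pairs
    have hfd : ∑ v, deg G v * f v = 0 := hf
    have hsnn : sn (fun v => - f v) = sn f := by simp [sn]
    have hsplit : ((Finset.univ.filter (fun v : Fin n => c4 ^ 2 * sn f ≤ n * f v ^ 2)).card : ℝ)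
        ≤ ((Finset.univ.filter (fun v : Fin n => 0 < f v ∧ c4 ^ 2 * sn f ≤ n * f v ^ 2)).card : ℝ)
        + ((Finset.univ.filter (fun v : Fin n => 0 < - f v ∧
            c4 ^ 2 * sn (fun v => - f v) ≤ n * (- f v) ^ 2)).card : ℝ) := by
      rw [hsnn]
      have hsub : (Finset.univ.filter (fun v : Fin n => c4 ^ 2 * sn f ≤ n * f v ^ 2)) ⊆
          (Finset.univ.filter (fun v : Fin n => 0 < f v ∧ c4 ^ 2 * sn f ≤ n * f v ^ 2)) ∪
          (Finset.univ.filter (fun v : Fin n => 0 < - f v ∧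
            c4 ^ 2 * sn f ≤ n * (- f v) ^ 2)) := by
        intro v hv
        have h1 := (Finset.mem_filter.1 hv).2
        rw [Finset.mem_union, Finset.mem_filter, Finset.mem_filter]
        rcases lt_trichotomy (f v) 0 with h | h | h
        · right
          refine ⟨Finset.mem_univ _, by linarith, ?_⟩
          rw [neg_sq]
          exact h1
        · exfalso
          rw [h] at h1
          have : 0 < c4 ^ 2 * sn f := by positivity
          have e : (n : ℝ) * 0 ^ 2 = 0 := by ring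
          linarith
        · left
          exact ⟨Finset.mem_univ _, h, h1⟩
      exact_mod_cast (Finset.card_le_card hsub).trans (Finset.card_union_le _ _)
    have hmono : ∀ k : ℕ, ε / 2 * (c4 ^ 2 / 64) * n ^ 2 ≤ (k : ℝ) → c5 * n ^ 2 ≤ (k : ℝ) := by
      intro k hk
      exact (mul_le_mul_of_nonneg_right hc5c (by positivity)).trans hk
    have hset : ((Finset.univ.filter (fun q : Fin n × Fin n =>
        (c4 / 2) ^ 2 * sn f ≤ n * (f q.1 - f q.2) ^ 2)).card : ℝ) ≤
        ((Finset.univ.filter (fun q : Fin n × Fin n =>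
        c5 ^ 2 * sn f ≤ n * (f q.1 - f q.2) ^ 2)).card : ℝ) := by
      have hsub : (Finset.univ.filter (fun q : Fin n × Fin n =>
          (c4 / 2) ^ 2 * sn f ≤ n * (f q.1 - f q.2) ^ 2)) ⊆
          (Finset.univ.filter (fun q : Fin n × Fin n =>
          c5 ^ 2 * sn f ≤ n * (f q.1 - f q.2) ^ 2)) := by
        intro q hq
        refine Finset.mem_filter.2 ⟨Finset.mem_univ _, le_trans ?_ (Finset.mem_filter.1 hq).2⟩
        exact mul_le_mul_of_nonneg_right (pow_le_pow_left₀ hc50.le hc5a 2) hsn.le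
      exact_mod_cast Finset.card_le_card hsub
    by_cases hside : ε / 2 * n ≤ ((Finset.univ.filter (fun v : Fin n => 0 < f v ∧
      c4 ^ 2 * sn f ≤ n * f v ^ 2)).card : ℝ)
    · have h1 := inc_pairs hn2 hp hc40 hc4' hD hfd hsn hside
      exact (mul_le_mul_of_nonneg_right hc5c (by positivity)).trans (h1.trans hset)
    · rw [not_le] at hside
      have hside' : ε / 2 * n ≤ ((Finset.univ.filter (fun v : Fin n => 0 < - f v ∧
            c4 ^ 2 * sn (fun v => - f v) ≤ n * (- f v) ^ 2)).card : ℝ) := by linarith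
      have hfd' : ∑ v, deg G v * (fun v => - f v) v = 0 := by
        simp only [mul_neg, Finset.sum_neg_distrib, hfd, neg_zero]
      have h1 := inc_pairs (f := fun v => - f v) hn2 hp hc40 hc4' hD hfd' (by rw [hsnn]; exact hsn)
        hside'
      rw [hsnn] at h1
      have e : (Finset.univ.filter (fun q : Fin n × Fin n =>
          (c4 / 2) ^ 2 * sn f ≤ n * ((fun v => - f v) q.1 - (fun v => - f v) q.2) ^ 2))
          = Finset.univ.filter (fun q : Fin n × Fin n =>
          (c4 / 2) ^ 2 * sn f ≤ n * (f q.1 - f q.2) ^ 2) := by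
        refine Finset.filter_congr (fun q _ => ?_)
        have : ((fun v => - f v) q.1 - (fun v => - f v) q.2) ^ 2 = (f q.1 - f q.2) ^ 2 := by
          simp only
          ring
        rw [this]
      rw [e] at h1
      exact (mul_le_mul_of_nonneg_right hc5c (by positivity)).trans (h1.trans hset)

end Pool.Agent.W839.Ch
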