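import Pool.Agent.W839.Ch.Fin5
import Pool.Agent.W839.Ch.Bits
import Pool.Agent.W839.Ch.ThInc
import Pool.Agent.W120.Ch.Cha
import Pool.Agent.W120.Ch.LO
import Pool.Agent.W120.Ch.Swp
import Pool.Agent.W766.ChNA
import Pool.Agent.W766.ChG3
import Pool.Agent.W766.ChES
import Pool.Agent.W766.ChGAP
import Pool.Agent.W809.Ch2
import Pool.Agent.W822.ChSP
import Pool.Agent.W52.ChDET

/-! # Everything together -/

set_option autoImplicit false
open scoped Classical
open Finset Filter Topology

namespace Pool.Agent.W839.Ch

theorem opn : S_OPN := (Pool.Agent.W809.Ch2.main bit blk).1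
theorem dgs : S_DEG := (Pool.Agent.W809.Ch2.main bit blk).2
theorem sps : S_SP := Pool.Agent.W822.ChSP.main bit blk opn
theorem nas : S_NA := Pool.Agent.W766.ChNA.main bit mix
theorem g3s : S_G3 := Pool.Agent.W766.ChG3.main bit mix blk opn dgs sps nas
theorem cha2 : S_CHA2 := by
  intro V I _ _ b L hL hb
  exact Pool.Agent.W120.Ch.cha V I b L hL hb

theorem final_of (hDET : S_DET) :
    ∀ gap : (n : ℕ) → SimpleGraph (Fin n) → ℝ,
      (∀ (n : ℕ) (H : SimpleGraph (Fin n)),
        gap n H = sInf {t : ℝ | 2 ≤ (((Matrix.of fun i j : Fin n =>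
            (if i = j then (1 : ℝ) else 0) -
              (if H.Adj i j then (1 : ℝ) else 0) /
                Real.sqrt ((∑ k : Fin n, if H.Adj i k then (1 : ℝ) else 0) *
                  (∑ k : Fin n, if H.Adj j k then (1 : ℝ) else 0))).charpoly.roots).filter
              (fun x => x ≤ t)).card}) →
      ∀ p : ℝ, 0 < p → p < 1 →
        ∃ c : ℝ, 0 < c ∧
          Filter.Tendsto
            (fun n : ℕ => ∑ G : SimpleGraph (Fin n),
              if c ≤ 1 - ((G.edgeFinset.filter
                    (fun e => gap n (G.deleteEdges {e}) < gap n G)).card : ℝ) /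
                  (G.edgeFinset.card : ℝ)
              then p ^ G.edgeFinset.card * (1 - p) ^ (n.choose 2 - G.edgeFinset.card)
              else 0)
            Filter.atTop (nhds 1) :=
  frozen_of bit (main_of bit opn dgs sps nas g3s Pool.Agent.W120.Ch.lo cha2
    Pool.Agent.W766.ChES.es Pool.Agent.W766.ChES.int Pool.Agent.W766.ChES.fr hDET th inc
    Pool.Agent.W120.Ch.swp)

/-- the frozen statement S19255 -/
theorem final :
    ∀ gap : (n : ℕ) → SimpleGraph (Fin n) → ℝ,
      (∀ (n : ℕ) (H : SimpleGraph (Fin n)),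
        gap n H = sInf {t : ℝ | 2 ≤ (((Matrix.of fun i j : Fin n =>
            (if i = j then (1 : ℝ) else 0) -
              (if H.Adj i j then (1 : ℝ) else 0) /
                Real.sqrt ((∑ k : Fin n, if H.Adj i k then (1 : ℝ) else 0) *
                  (∑ k : Fin n, if H.Adj j k then (1 : ℝ) else 0))).charpoly.roots).filter
              (fun x => x ≤ t)).card}) →
      ∀ p : ℝ, 0 < p → p < 1 →
        ∃ c : ℝ, 0 < c ∧
          Filter.Tendsto
            (fun n : ℕ => ∑ G : SimpleGraph (Fin n),
              if c ≤ 1 - ((G.edgeFinset.filter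
                    (fun e => gap n (G.deleteEdges {e}) < gap n G)).card : ℝ) /
                  (G.edgeFinset.card : ℝ)
              then p ^ G.edgeFinset.card * (1 - p) ^ (n.choose 2 - G.edgeFinset.card)
              else 0)
            Filter.atTop (nhds 1) :=
  final_of (Pool.Agent.W52.ChDET.main Pool.Agent.W766.ChGAP.gap1 Pool.Agent.W766.ChGAP.gap2)

end Pool.Agent.W839.Ch
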