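import Pool.Agent.W839.Ch.Stubs

/-! # Elementary facts about `Pr` -/

set_option autoImplicit false
open scoped Classical
open Finset Filter Topology

namespace Pool.Agent.W839.Ch

variable {n : ℕ} {p : ℝ}

lemma wt_nonneg (h0 : 0 ≤ p) (h1 : p ≤ 1) (G : SimpleGraph (Fin n)) : 0 ≤ wt n p G := by
  unfold wt
  have : 0 ≤ 1 - p := by linarith
  positivity

lemma Pr_nonneg (h0 : 0 ≤ p) (h1 : p ≤ 1) (P : SimpleGraph (Fin n) → Prop) : 0 ≤ Pr n p P := by
  unfold Pr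
  refine Finset.sum_nonneg (fun G _ => ?_)
  split_ifs
  · exact wt_nonneg h0 h1 G
  · exact le_rfl

lemma Pr_mono (h0 : 0 ≤ p) (h1 : p ≤ 1) {P Q : SimpleGraph (Fin n) → Prop}
    (h : ∀ G, P G → Q G) : Pr n p P ≤ Pr n p Q := by
  unfold Pr
  refine Finset.sum_le_sum (fun G _ => ?_)
  by_cases hP : P G
  · simp [hP, h G hP]
  · by_cases hQ : Q G
    · simp [hP, hQ, wt_nonneg h0 h1 G]
    · simp [hP, hQ]

lemma Pr_or_le (h0 : 0 ≤ p) (h1 : p ≤ 1) (P Q : SimpleGraph (Fin n) → Prop) :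
    Pr n p (fun G => P G ∨ Q G) ≤ Pr n p P + Pr n p Q := by
  unfold Pr
  rw [← Finset.sum_add_distrib]
  refine Finset.sum_le_sum (fun G _ => ?_)
  have := wt_nonneg h0 h1 G
  by_cases hP : P G <;> by_cases hQ : Q G <;> simp [hP, hQ, this]

lemma Pr_exists_le {ι : Type*} (h0 : 0 ≤ p) (h1 : p ≤ 1) (s : Finset ι)
    (P : ι → SimpleGraph (Fin n) → Prop) :
    Pr n p (fun G => ∃ i ∈ s, P i G) ≤ ∑ i ∈ s, Pr n p (P i) := by
  unfold Pr
  rw [Finset.sum_comm]
  refine Finset.sum_le_sum (fun G _ => ?_)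
  have hw := wt_nonneg h0 h1 G
  by_cases h : ∃ i ∈ s, P i G
  · obtain ⟨i, hi, hP⟩ := h
    rw [if_pos ⟨i, hi, hP⟩]
    have : (if P i G then wt n p G else 0) ≤ ∑ i ∈ s, if P i G then wt n p G else 0 :=
      Finset.single_le_sum (f := fun i => if P i G then wt n p G else 0)
        (fun j _ => by positivity) hi
    rwa [if_pos hP] at this
  · rw [if_neg h]
    exact Finset.sum_nonneg (fun j _ => by positivity)

lemma EB_one {ι : Type} [Fintype ι] (p : ℝ) : EB p (fun _ : ι → Bool => (1 : ℝ)) = 1 := by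
  unfold EB
  simp only [mul_one]
  have := (Finset.prod_univ_sum (fun _ : ι => (Finset.univ : Finset Bool)) (fun _ b => bw p b))
  rw [Fintype.piFinset_univ] at this
  rw [← this]
  simp [bw]

lemma Pr_true (hB : S_BIT) : Pr n p (fun _ => True) = 1 := by
  have := hB n p (fun _ => 1)
  rw [EB_one] at this
  unfold Pr
  simp only [if_true]
  rw [this]
  simp

lemma Pr_add_not (hB : S_BIT) (P : SimpleGraph (Fin n) → Prop) :
    Pr n p P + Pr n p (fun G => ¬ P G) = 1 := by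
  rw [← Pr_true (n := n) (p := p) hB]
  unfold Pr
  rw [← Finset.sum_add_distrib]
  refine Finset.sum_congr rfl (fun G _ => ?_)
  by_cases hP : P G <;> simp [hP]

/-- first moment -/
lemma Pr_count {ι : Type*} (h0 : 0 ≤ p) (h1 : p ≤ 1) (Q : Finset ι) (N : ℝ)
    (P : SimpleGraph (Fin n) → Prop) (R : ι → SimpleGraph (Fin n) → Prop)
    (h : ∀ G, P G → N ≤ ((Q.filter (fun q => R q G)).card : ℝ)) :
    N * Pr n p P ≤ ∑ q ∈ Q, Pr n p (R q) := by
  unfold Pr
  rw [Finset.sum_comm, Finset.mul_sum]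
  refine Finset.sum_le_sum (fun G _ => ?_)
  have hw := wt_nonneg h0 h1 G
  have e : ∑ q ∈ Q, (if R q G then wt n p G else 0)
      = ((Q.filter (fun q => R q G)).card : ℝ) * wt n p G := by
    rw [← Finset.sum_filter, Finset.sum_const, nsmul_eq_mul]
  rw [e]
  by_cases hP : P G
  · rw [if_pos hP]
    exact mul_le_mul_of_nonneg_right (h G hP) hw
  · rw [if_neg hP, mul_zero]
    positivity

/-- CH-7 (corrected: the hypothesis `0 ≤ L` is needed if `V` is empty) -/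
def S_CHA2 : Prop := ∀ (V I : Type) [Fintype V] [Fintype I] (b : I → V → ℝ) (L : ℝ), 0 ≤ L →
  (∀ x : V → ℝ, ∑ i, (∑ v, b i v * x v) ^ 2 ≤ L * ∑ v, x v ^ 2) →
  ((Finset.univ.filter (fun τ : V → Bool =>
    ∑ i, (∑ v, (if τ v then b i v else - b i v)) ^ 2 ≤ (1 / 2) * ∑ i, ∑ v, b i v ^ 2)).card : ℝ)
    * (∑ i, ∑ v, b i v ^ 2) ≤ 8 * L * 2 ^ Fintype.card V

end Pool.Agent.W839.Ch
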