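import Pool.Agent.W839.Ch.Lagr

/-! # Bounds for one class of swaps -/

set_option autoImplicit false
open scoped Classical
open Finset Filter Topology

namespace Pool.Agent.W839.Ch

variable {n m : ℕ} {a b : Fin n} {G : SimpleGraph (Fin n)}

lemma swap_swap (hab : a ≠ b) (τ : Fin n → Bool) (G : SimpleGraph (Fin n)) :
    swapG a b τ (swapG a b τ G) = G := by
  ext u v
  have key : ∀ u v : Fin n, adj (swapG a b τ (swapG a b τ G)) u v = adj G u v := by
    intro u v
    by_cases hu : u ≠ a ∧ u ≠ b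
    · by_cases hv : v ≠ a ∧ v ≠ b
      · rw [swap_off hu hv, swap_off hu hv]
      · rw [adj_comm' _ u v, adj_comm' G u v]
        by_cases h1 : v = a
        · subst h1
          rw [swap_a hab hu, swap_b hab hu, swap_a hab hu]
          by_cases ht : τ u = true <;> simp [ht]
        · have h2 : v = b := by
            by_contra h2; exact hv ⟨h1, h2⟩
          subst h2
          rw [swap_b hab hu, swap_a hab hu, swap_b hab hu]
          by_cases ht : τ u = true <;> simp [ht]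
    · by_cases hv : v ≠ a ∧ v ≠ b
      · by_cases h1 : u = a
        · subst h1
          rw [swap_a hab hv, swap_b hab hv, swap_a hab hv]
          by_cases ht : τ v = true <;> simp [ht]
        · have h2 : u = b := by
            by_contra h2; exact hu ⟨h1, h2⟩
          subst h2
          rw [swap_b hab hv, swap_a hab hv, swap_b hab hv]
          by_cases ht : τ v = true <;> simp [ht]
      · by_cases h1 : u = a
        · by_cases h2 : v = a
          · rw [h1, h2]; simp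
          · have h3 : v = b := by
              by_contra h3; exact hv ⟨h2, h3⟩
            rw [h1, h3, swap_ab hab, swap_ab hab]
        · have h3 : u = b := by
            by_contra h3; exact hu ⟨h1, h3⟩
          by_cases h2 : v = a
          · rw [h3, h2, swap_ba hab, swap_ba hab]
          · have h4 : v = b := by
              by_contra h4; exact hv ⟨h2, h4⟩
            rw [h3, h4]; simp
  have := key u v
  unfold adj at this
  by_cases h1 : (swapG a b τ (swapG a b τ G)).Adj u v <;> by_cases h2 : G.Adj u v <;>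
    simp_all

lemma deg_nonneg (G : SimpleGraph (Fin n)) (v : Fin n) : 0 ≤ deg G v :=
  Finset.sum_nonneg (fun u _ => adj_nonneg G v u)

lemma deg_le (G : SimpleGraph (Fin n)) (v : Fin n) : deg G v ≤ n := by
  have : deg G v ≤ ∑ _u : Fin n, (1 : ℝ) := Finset.sum_le_sum (fun u _ => adj_le_one G v u)
  simpa using this

lemma sn_nonneg (x : Fin n → ℝ) : 0 ≤ sn x := Finset.sum_nonneg (fun _ _ => sq_nonneg _)

lemma one_le_sn {d : Fin n → ℝ} (hd : ∀ v, d v ≤ n) {w : Fin n → ℝ}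
    (h : ∑ v, d v * w v * w v = 1) : 1 ≤ n * sn w := by
  rw [← h, sn, Finset.mul_sum]
  refine Finset.sum_le_sum (fun v _ => ?_)
  have := mul_le_mul_of_nonneg_right (hd v) (sq_nonneg (w v))
  nlinarith [this]

/-- the contribution of one eigenvector -/
lemma cls_Q {τ0 : Fin n → Bool} (hab : a ≠ b) (hn : 0 < n) {c ε C0 : ℝ} (hc : 0 < c)
    (hce : C0 ^ 2 * ε ^ 2 ≤ c ^ 2 / 4)
    (hG3 : G3 C0 c ε a b (swapG a b τ0 G)) {θ : ℝ} {w : Fin n → ℝ} (hw0 : w ≠ 0)
    (hθ : θ ^ 2 * n ≤ C0 ^ 2) (hwab : w a = w b)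
    (hrow : ∀ v, v ≠ a → v ≠ b →
      ∑ u, adj (swapG a b τ0 G) v u * w u = θ * deg (swapG a b τ0 G) v * w v)
    (hsm : w a ^ 2 ≤ ε ^ 2 * sn w) :
    c ^ 3 / 4 * sn w ≤ ∑ v, bvec G a b θ w v ^ 2 := by
  have h := hG3 θ w hw0 hθ hwab hrow hsm
  set S := Finset.univ.filter (fun v : Fin n => v ≠ a ∧ v ≠ b ∧
    adj (swapG a b τ0 G) a v ≠ adj (swapG a b τ0 G) b v ∧ c ^ 2 * sn w ≤ n * w v ^ 2) with hS
  have hn' : (0 : ℝ) < n := by exact_mod_cast hn
  have hpt : ∀ v ∈ S, c ^ 2 / 4 * sn w / n ≤ bvec G a b θ w v ^ 2 := by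
    intro v hv
    simp only [hS, Finset.mem_filter, Finset.mem_univ, true_and] at hv
    obtain ⟨hva, hvb, hne, hbig⟩ := hv
    have hv' : v ≠ a ∧ v ≠ b := ⟨hva, hvb⟩
    rw [swap_a hab hv', swap_b hab hv'] at hne
    have hne' : adj G a v ≠ adj G b v := by
      intro he; apply hne; rw [he]
    have hs1 : (adj G a v - adj G b v) ^ 2 = 1 := by
      unfold adj at hne' ⊢
      by_cases h1 : G.Adj a v <;> by_cases h2 : G.Adj b v <;> simp_all
    unfold bvec
    rw [if_pos hv', mul_pow, hs1, one_mul, div_le_iff₀ hn']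
    have hy : θ ^ 2 * w a ^ 2 * n ≤ c ^ 2 / 4 * sn w := by
      calc θ ^ 2 * w a ^ 2 * n = (θ ^ 2 * n) * w a ^ 2 := by ring
        _ ≤ C0 ^ 2 * (ε ^ 2 * sn w) :=
            mul_le_mul hθ hsm (sq_nonneg _) (sq_nonneg _)
        _ = (C0 ^ 2 * ε ^ 2) * sn w := by ring
        _ ≤ c ^ 2 / 4 * sn w := mul_le_mul_of_nonneg_right hce (sn_nonneg w)
    have hxy : w v ^ 2 / 2 - θ ^ 2 * w a ^ 2 ≤ (w v - θ * w a) ^ 2 := by
      nlinarith [sq_nonneg (w v - 2 * (θ * w a))]
    have := mul_le_mul_of_nonneg_right hxy hn'.le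
    nlinarith
  calc c ^ 3 / 4 * sn w = (c * n) * (c ^ 2 / 4 * sn w / n) := by field_simp
    _ ≤ (S.card : ℝ) * (c ^ 2 / 4 * sn w / n) := by
        refine mul_le_mul_of_nonneg_right h ?_
        have := sn_nonneg w
        positivity
    _ = ∑ v ∈ S, c ^ 2 / 4 * sn w / n := by rw [Finset.sum_const, nsmul_eq_mul]
    _ ≤ ∑ v ∈ S, bvec G a b θ w v ^ 2 := Finset.sum_le_sum hpt
    _ ≤ ∑ v, bvec G a b θ w v ^ 2 :=
        Finset.sum_le_sum_of_subset_of_nonneg (Finset.subset_univ _) (fun _ _ _ => sq_nonneg _)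

/-- the Bessel constant of the coefficient vectors -/
lemma cls_L (hab : a ≠ b) (hn : 0 < n) {p C0 : ℝ} (hp : 0 < p) 
    (hdr : ∀ v, v ≠ a → v ≠ b → 3 / 4 * p * n ≤ deg G v)
    (hda : 3 / 2 * p * n ≤ deg G a + deg G b)
    (E : ESys (adj G) (deg G) (perp2 (deg G) a b) m)
    (hθ : ∀ i, E.θ i ^ 2 * n ≤ C0 ^ 2) (x : Fin n → ℝ) :
    ∑ i, (∑ v, bvec G a b (E.θ i) (E.f i) v * x v) ^ 2
      ≤ (8 + 4 * C0 ^ 2) / (3 * p) / n * ∑ v, x v ^ 2 := by
  have hn' : (0 : ℝ) < n := by exact_mod_cast hn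
  set y : Fin n → ℝ := fun v => if v ≠ a ∧ v ≠ b then (adj G a v - adj G b v) * x v else 0 with hy
  have hy2 : ∀ v, y v ^ 2 ≤ x v ^ 2 := by
    intro v
    simp only [hy]
    split_ifs with h
    · rw [mul_pow]
      have h1 : (adj G a v - adj G b v) ^ 2 ≤ 1 := by
        have := adj_nonneg G a v; have := adj_nonneg G b v
        have := adj_le_one G a v; have := adj_le_one G b v
        nlinarith
      nlinarith [sq_nonneg (x v), mul_le_mul_of_nonneg_right h1 (sq_nonneg (x v))]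
    · nlinarith [sq_nonneg (x v)]
  have hsy : ∑ v, y v ^ 2 ≤ ∑ v, x v ^ 2 := Finset.sum_le_sum (fun v _ => hy2 v)
  have e1 : ∀ i, ∑ v, bvec G a b (E.θ i) (E.f i) v * x v
      = ∑ v, y v * E.f i v - E.θ i * E.f i a * ∑ v, y v := by
    intro i
    rw [Finset.mul_sum, ← Finset.sum_sub_distrib]
    refine Finset.sum_congr rfl (fun v _ => ?_)
    simp only [bvec, hy]
    split_ifs <;> ring
  have e2 : ∀ i, (∑ v, bvec G a b (E.θ i) (E.f i) v * x v) ^ 2
      ≤ 2 * (∑ v, y v * E.f i v) ^ 2 + 2 * (C0 ^ 2 * ∑ v, x v ^ 2) * E.f i a ^ 2 := by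
    intro i
    rw [e1 i]
    have h1 : (∑ v, y v * E.f i v - E.θ i * E.f i a * ∑ v, y v) ^ 2
        ≤ 2 * (∑ v, y v * E.f i v) ^ 2 + 2 * (E.θ i * E.f i a * ∑ v, y v) ^ 2 := by
      nlinarith [sq_nonneg (∑ v, y v * E.f i v + E.θ i * E.f i a * ∑ v, y v)]
    have h2 : (∑ v, y v) ^ 2 ≤ n * ∑ v, y v ^ 2 := by
      have := sq_sum_le_card_mul_sum_sq (s := (Finset.univ : Finset (Fin n))) (f := y)
      simpa using this
    have h3 : (E.θ i * E.f i a * ∑ v, y v) ^ 2 ≤ (C0 ^ 2 * ∑ v, x v ^ 2) * E.f i a ^ 2 := by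
      calc (E.θ i * E.f i a * ∑ v, y v) ^ 2
          = (E.θ i ^ 2 * E.f i a ^ 2) * (∑ v, y v) ^ 2 := by ring
        _ ≤ (E.θ i ^ 2 * E.f i a ^ 2) * (n * ∑ v, x v ^ 2) :=
            mul_le_mul_of_nonneg_left (h2.trans (mul_le_mul_of_nonneg_left hsy hn'.le))
              (by positivity)
        _ = (E.θ i ^ 2 * n) * ((∑ v, x v ^ 2) * E.f i a ^ 2) := by ring
        _ ≤ C0 ^ 2 * ((∑ v, x v ^ 2) * E.f i a ^ 2) :=
            mul_le_mul_of_nonneg_right (hθ i)
              (mul_nonneg (Finset.sum_nonneg (fun _ _ => sq_nonneg _)) (sq_nonneg _))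
        _ = _ := by ring
    linarith
  -- Bessel for the first part
  set z : Fin n → ℝ := fun v => y v / deg G v with hz
  have hdz : ∀ v, deg G v * z v = y v := by
    intro v
    simp only [hz]
    by_cases hv : v ≠ a ∧ v ≠ b
    · have : 0 < deg G v := lt_of_lt_of_le (by positivity) (hdr v hv.1 hv.2)
      field_simp
    · have : y v = 0 := by simp only [hy]; rw [if_neg hv]
      rw [this]; simp
  have hB := E.bessel (fun v => deg_nonneg G v) z
  have e3 : ∀ i, ∑ v, deg G v * z v * E.f i v = ∑ v, y v * E.f i v :=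
    fun i => Finset.sum_congr rfl (fun v _ => by rw [hdz v])
  have e4 : ∑ v, deg G v * z v ^ 2 ≤ 4 / (3 * p * n) * ∑ v, x v ^ 2 := by
    rw [Finset.mul_sum]
    refine Finset.sum_le_sum (fun v _ => ?_)
    by_cases hv : v ≠ a ∧ v ≠ b
    · have hd := hdr v hv.1 hv.2
      have hd0 : 0 < deg G v := lt_of_lt_of_le (by positivity) hd
      have : deg G v * z v ^ 2 = y v ^ 2 / deg G v := by
        simp only [hz]; field_simp
      rw [this, div_le_iff₀ hd0]
      have h5 : 1 ≤ 4 / (3 * p * n) * deg G v := by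
        have h6 : 4 / (3 * p * n) * (3 / 4 * p * n) = 1 := by field_simp
        rw [← h6]
        exact mul_le_mul_of_nonneg_left hd (by positivity)
      calc y v ^ 2 ≤ x v ^ 2 := hy2 v
        _ = x v ^ 2 * 1 := by ring
        _ ≤ x v ^ 2 * (4 / (3 * p * n) * deg G v) :=
            mul_le_mul_of_nonneg_left h5 (sq_nonneg _)
        _ = _ := by ring
    · have : y v = 0 := by simp only [hy]; rw [if_neg hv]
      have hz0 : z v = 0 := by simp only [hz, this]; simp
      rw [hz0]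
      have : 0 ≤ x v ^ 2 := sq_nonneg _
      simp only [ne_eq, OfNat.ofNat_ne_zero, not_false_eq_true, zero_pow, mul_zero]
      positivity
  have hpt := E.point2 (fun v => deg_nonneg G v) hab
    (lt_of_lt_of_le (by positivity) hda) (fun i => (E.mem i).2)
  have hpt2 : ∑ i, E.f i a ^ 2 ≤ 2 / (3 * p * n) := by
    refine hpt.trans ?_
    rw [div_le_div_iff₀ (lt_of_lt_of_le (by positivity) hda) (by positivity)]
    nlinarith
  calc ∑ i, (∑ v, bvec G a b (E.θ i) (E.f i) v * x v) ^ 2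
      ≤ ∑ i, (2 * (∑ v, y v * E.f i v) ^ 2 + 2 * (C0 ^ 2 * ∑ v, x v ^ 2) * E.f i a ^ 2) :=
        Finset.sum_le_sum (fun i _ => e2 i)
    _ = 2 * ∑ i, (∑ v, y v * E.f i v) ^ 2
        + 2 * (C0 ^ 2 * ∑ v, x v ^ 2) * ∑ i, E.f i a ^ 2 := by
        rw [Finset.sum_add_distrib, ← Finset.mul_sum, ← Finset.mul_sum]
    _ ≤ 2 * (4 / (3 * p * n) * ∑ v, x v ^ 2)
        + 2 * (C0 ^ 2 * ∑ v, x v ^ 2) * (2 / (3 * p * n)) := by
        have hx0 : 0 ≤ ∑ v, x v ^ 2 := Finset.sum_nonneg (fun _ _ => sq_nonneg _)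
        refine add_le_add ?_ (mul_le_mul_of_nonneg_left hpt2 (by positivity))
        refine mul_le_mul_of_nonneg_left ?_ (by norm_num)
        simp only [e3] at hB
        exact hB.trans e4
    _ = _ := by field_simp; ring

end Pool.Agent.W839.Ch
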