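import Pool.Agent.W839.Ch.ClsK

/-! # The probability of a small first gap within one class of swaps -/

set_option autoImplicit false
open scoped Classical
open Finset Filter Topology

namespace Pool.Agent.W839.Ch

/-- small first gap, together with the typical properties -/
def EvG (m : ℕ) (p C C0 c ε g α : ℝ) (a b : Fin (m + 2))
    (H : SimpleGraph (Fin (m + 2))) : Prop :=
  OpN p C H ∧ DG p (p / 4) H ∧ G3 C0 c ε a b H ∧
  (∃ (E : ESys (adj H) (deg H) (perp (deg H)) (m + 1)) (h1 : 1 < m + 1),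
    E.θ 0 - g ≤ E.θ ⟨1, h1⟩ ∧ α ^ 2 ≤ (E.f 0 a - E.f 0 b) ^ 2) ∧
  (∀ (E' : ESys (adj H) (deg H) (perp2 (deg H) a b) m) (h0 : 0 < m),
    E'.f ⟨0, h0⟩ a ^ 2 ≤ ε ^ 2 * sn (E'.f ⟨0, h0⟩))

/-- number of large coefficients -/
lemma cls_N {n : ℕ} {a b : Fin n} {G : SimpleGraph (Fin n)} {τ0 : Fin n → Bool} (hab : a ≠ b)
    (hn : 0 < n) {c ε C0 : ℝ} (hc : 0 < c) (hce : C0 ^ 2 * ε ^ 2 ≤ c ^ 2 / 4)
    (hG3 : G3 C0 c ε a b (swapG a b τ0 G)) {θ : ℝ} {w : Fin n → ℝ} (hw0 : w ≠ 0)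
    (hθ : θ ^ 2 * n ≤ C0 ^ 2) (hwab : w a = w b)
    (hrow : ∀ v, v ≠ a → v ≠ b →
      ∑ u, adj (swapG a b τ0 G) v u * w u = θ * deg (swapG a b τ0 G) v * w v)
    (hsm : w a ^ 2 ≤ ε ^ 2 * sn w) (hsn : 1 ≤ n * sn w) :
    c * n ≤ ((Finset.univ.filter (fun v : Fin n =>
      c / (2 * n) ≤ |- bvec G a b θ w v|)).card : ℝ) := by
  have h := hG3 θ w hw0 hθ hwab hrow hsm
  refine h.trans ?_
  have hn' : (0 : ℝ) < n := by exact_mod_cast hn
  have : (Finset.univ.filter (fun v : Fin n => v ≠ a ∧ v ≠ b ∧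
    adj (swapG a b τ0 G) a v ≠ adj (swapG a b τ0 G) b v ∧ c ^ 2 * sn w ≤ n * w v ^ 2)) ⊆
    (Finset.univ.filter (fun v : Fin n => c / (2 * n) ≤ |- bvec G a b θ w v|)) := by
    intro v hv
    simp only [Finset.mem_filter, Finset.mem_univ, true_and] at hv ⊢
    obtain ⟨hva, hvb, hne, hbig⟩ := hv
    have hv' : v ≠ a ∧ v ≠ b := ⟨hva, hvb⟩
    rw [swap_a hab hv', swap_b hab hv'] at hne
    have hne' : adj G a v ≠ adj G b v := by
      intro he; apply hne; rw [he]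
    have hs1 : (adj G a v - adj G b v) ^ 2 = 1 := by
      unfold adj at hne' ⊢
      by_cases h1 : G.Adj a v <;> by_cases h2 : G.Adj b v <;> simp_all
    rw [abs_neg]
    have hpos : 0 ≤ c / (2 * (n : ℝ)) := by positivity
    rw [← abs_of_nonneg hpos]
    refine sq_le_sq.1 ?_
    · unfold bvec
      rw [if_pos hv', mul_pow, hs1, one_mul]
      have hy : θ ^ 2 * w a ^ 2 * n ≤ c ^ 2 / 4 * sn w := by
        calc θ ^ 2 * w a ^ 2 * n = (θ ^ 2 * n) * w a ^ 2 := by ring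
          _ ≤ C0 ^ 2 * (ε ^ 2 * sn w) :=
              mul_le_mul hθ hsm (sq_nonneg _) (sq_nonneg _)
          _ = (C0 ^ 2 * ε ^ 2) * sn w := by ring
          _ ≤ c ^ 2 / 4 * sn w := mul_le_mul_of_nonneg_right hce (sn_nonneg w)
      have hxy : w v ^ 2 / 2 - θ ^ 2 * w a ^ 2 ≤ (w v - θ * w a) ^ 2 := by
        nlinarith [sq_nonneg (w v - 2 * (θ * w a))]
      have h1 := mul_le_mul_of_nonneg_right hxy hn'.le
      have h2 : c ^ 2 / 4 * sn w ≤ (w v - θ * w a) ^ 2 * n := by nlinarith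
      have h3 : c ^ 2 / 4 ≤ (w v - θ * w a) ^ 2 * n ^ 2 := by
        have : c ^ 2 / 4 * 1 ≤ c ^ 2 / 4 * (n * sn w) :=
          mul_le_mul_of_nonneg_left hsn (by positivity)
        nlinarith
      rw [div_pow, div_le_iff₀ (by positivity)]
      nlinarith
  exact_mod_cast Finset.card_le_card this

theorem clsG (hES : S_ES) (hINT : S_INT) (hFR : S_FR) {K : ℝ} (hK : 0 < K)
    (hLO : ∀ (V : Type) [Fintype V] (b : V → ℝ) (h : ℝ) (N : ℕ),
      0 < h → 0 < N → N ≤ (Finset.univ.filter (fun v => h ≤ |b v|)).card →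
      ∀ R x : ℝ, 0 ≤ R →
        ((Finset.univ.filter (fun τ : V → Bool =>
          |∑ v, (if τ v then b v else - b v) - x| ≤ R)).card : ℝ)
          ≤ K * (R / h + 1) / Real.sqrt N * 2 ^ Fintype.card V)
    {m : ℕ} (hm : 1 ≤ m)
    {p C C0 c ε g α : ℝ} (hp : 0 < p) (hc : 0 < c)
    (hce : C0 ^ 2 * ε ^ 2 ≤ c ^ 2 / 4) (hg : 0 ≤ g) (hα : 0 < α)
    (hTH : THp (m + 2) p C C0)
    {a b : Fin (m + 2)} (hab : a ≠ b) (G : SimpleGraph (Fin (m + 2))) :
    ((Finset.univ.filter (fun τ : Fin (m + 2) → Bool =>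
      EvG m p C C0 c ε g α a b (swapG a b τ G))).card : ℝ)
      ≤ K * (4 * g * ((m + 2 : ℕ) : ℝ) / (α * c) + 1) / Real.sqrt (c * ((m + 2 : ℕ) : ℝ))
        * 2 ^ (m + 2) := by
  have hn0 : (0 : ℝ) < ((m + 2 : ℕ) : ℝ) := by positivity
  by_cases hne : ∃ τ0, EvG m p C C0 c ε g α a b (swapG a b τ0 G)
  swap
  · have : Finset.univ.filter (fun τ : Fin (m + 2) → Bool =>
      EvG m p C C0 c ε g α a b (swapG a b τ G)) = ∅ := by
      apply Finset.filter_eq_empty_iff.2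
      intro τ _ h
      exact hne ⟨τ, h⟩
    rw [this]
    simp only [Finset.card_empty, Nat.cast_zero]
    positivity
  obtain ⟨τ0, hO, hD, hG3, -, hsmall⟩ := hne
  obtain ⟨E', hθ, hf0, hrow, hdr, hda⟩ := cls_sys hES hFR hm hp hTH hab G τ0 hO hD
  have h0m : 0 < m := hm
  set w := E'.f ⟨0, h0m⟩ with hw
  set θ' := E'.θ ⟨0, h0m⟩ with hθ'
  have hsn : 1 ≤ ((m + 2 : ℕ) : ℝ) * sn w :=
    one_le_sn (fun v => deg_le G v) (by have := E'.orth ⟨0, h0m⟩ ⟨0, h0m⟩; simpa using this)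
  have hsm : w a ^ 2 ≤ ε ^ 2 * sn w := hsmall (E'.swap hab τ0) h0m
  have hN := cls_N hab (Nat.succ_pos _) hc hce hG3 (hf0 ⟨0, h0m⟩) (hθ ⟨0, h0m⟩)
    (E'.mem ⟨0, h0m⟩).2 (hrow ⟨0, h0m⟩) hsm hsn
  set N : ℕ := ⌈c * ((m + 2 : ℕ) : ℝ)⌉₊ with hNdef
  have hNpos : 0 < N := Nat.ceil_pos.2 (by positivity)
  have hNle : N ≤ (Finset.univ.filter (fun v : Fin (m + 2) =>
      c / (2 * ((m + 2 : ℕ) : ℝ)) ≤ |- bvec G a b θ' w v|)).card := Nat.ceil_le.2 hN
  have hlo := hLO (Fin (m + 2)) (fun v => - bvec G a b θ' w v) (c / (2 * ((m + 2 : ℕ) : ℝ))) N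
    (by positivity) hNpos hNle (2 * g / α) 0 (by positivity)
  have hsub : (Finset.univ.filter (fun τ : Fin (m + 2) → Bool =>
      EvG m p C C0 c ε g α a b (swapG a b τ G))) ⊆
      (Finset.univ.filter (fun τ : Fin (m + 2) → Bool =>
        |∑ v, (if τ v then - bvec G a b θ' w v else - - bvec G a b θ' w v) - 0|
          ≤ 2 * g / α)) := by
    intro τ hτ
    simp only [Finset.mem_filter, Finset.mem_univ, true_and] at hτ ⊢
    obtain ⟨hO', hD', -, ⟨E, h1, hgap, hα'⟩, -⟩ := hτ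
    obtain ⟨r1, r2, r3, r4⟩ := cls_rel hINT hp hab G E' τ hD' E
    have h3 := r3 ⟨0, h0m⟩
    simp only [neg_neg, sub_zero]
    set B := ∑ v, (if τ v then - bvec G a b θ' w v else bvec G a b θ' w v) with hB
    set Z := ∑ v, deg (swapG a b τ G) v * E.f 0 v * w v with hZ
    have hd1 : 0 ≤ E.θ 0 - θ' := by
      have := r1 (⟨0, h0m⟩ : Fin m)
      linarith
    have hd2 : E.θ 0 - θ' ≤ g := by
      have := r2 (⟨0, h0m⟩ : Fin m) (⟨1, h1⟩ : Fin (m + 1)) (Nat.le_refl 1)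
      linarith
    have hZ1 : Z ^ 2 ≤ 1 := by
      have : Z ^ 2 ≤ ∑ i : Fin m, (∑ v, deg (swapG a b τ G) v * E.f 0 v * E'.f i v) ^ 2 :=
        Finset.single_le_sum (f := fun i : Fin m =>
          (∑ v, deg (swapG a b τ G) v * E.f 0 v * E'.f i v) ^ 2)
          (fun i _ => sq_nonneg _) (Finset.mem_univ (⟨0, h0m⟩ : Fin m))
      linarith
    have h4 : (|B| * α) ^ 2 ≤ (2 * g) ^ 2 := by
      rw [mul_pow, sq_abs]
      calc B ^ 2 * α ^ 2 ≤ B ^ 2 * (E.f 0 a - E.f 0 b) ^ 2 :=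
            mul_le_mul_of_nonneg_left hα' (sq_nonneg _)
        _ = (B * (E.f 0 a - E.f 0 b)) ^ 2 := by ring
        _ = (2 * ((E.θ 0 - θ') * Z)) ^ 2 := by rw [← h3]
        _ = 4 * (E.θ 0 - θ') ^ 2 * Z ^ 2 := by ring
        _ ≤ 4 * g ^ 2 * 1 := by
            have := pow_le_pow_left₀ hd1 hd2 2
            exact mul_le_mul (by linarith) hZ1 (sq_nonneg _) (by positivity)
        _ = (2 * g) ^ 2 := by ring
    have h5 := abs_le_of_sq_le_sq h4 (by positivity)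
    rw [abs_of_nonneg (by positivity)] at h5
    rw [le_div_iff₀ hα]
    exact h5
  have hcard : ((Finset.univ.filter (fun τ : Fin (m + 2) → Bool =>
      EvG m p C C0 c ε g α a b (swapG a b τ G))).card : ℝ) ≤
      ((Finset.univ.filter (fun τ : Fin (m + 2) → Bool =>
        |∑ v, (if τ v then - bvec G a b θ' w v else - - bvec G a b θ' w v) - 0|
          ≤ 2 * g / α)).card : ℝ) := by
    exact_mod_cast Finset.card_le_card hsub
  rw [Fintype.card_fin] at hlo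
  have hlo' : ((Finset.univ.filter (fun τ : Fin (m + 2) → Bool =>
        |∑ v, (if τ v then - bvec G a b θ' w v else - - bvec G a b θ' w v) - 0|
          ≤ 2 * g / α)).card : ℝ) ≤
      K * (2 * g / α / (c / (2 * ((m + 2 : ℕ) : ℝ))) + 1) / Real.sqrt N * 2 ^ (m + 2) := by
    convert hlo
  refine hcard.trans (hlo'.trans ?_)
  have e1 : 2 * g / α / (c / (2 * ((m + 2 : ℕ) : ℝ))) = 4 * g * ((m + 2 : ℕ) : ℝ) / (α * c) := by
    field_simp
    ring
  rw [e1]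
  refine mul_le_mul_of_nonneg_right ?_ (by positivity)
  refine div_le_div_of_nonneg_left (by positivity) (Real.sqrt_pos.2 (by positivity)) ?_
  exact Real.sqrt_le_sqrt (Nat.le_ceil _)

end Pool.Agent.W839.Ch
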