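import Pool.Agent.W839.Ch.Cls

/-! # The probability of a small k-th gap within one class of swaps -/

set_option autoImplicit false
open scoped Classical
open Finset Filter Topology

namespace Pool.Agent.W839.Ch

/-- small `k`-th gap, together with the typical properties -/
def EvK (m : ℕ) (p C C0 c ε s α : ℝ) (k : ℕ) (a b : Fin (m + 2))
    (H : SimpleGraph (Fin (m + 2))) : Prop :=
  OpN p C H ∧ DG p (p / 4) H ∧ G3 C0 c ε a b H ∧
  ∃ (E : ESys (adj H) (deg H) (perp (deg H)) (m + 1)) (hk : k < m + 1),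
    E.θ 0 - s ≤ E.θ ⟨k, hk⟩ ∧ α ^ 2 ≤ (E.f 0 a - E.f 0 b) ^ 2

/-- the consequence of `S_TH` for fixed constants -/
def THp (n : ℕ) (p C C0 : ℝ) : Prop :=
  ∀ G : SimpleGraph (Fin n), OpN p C G → DG p (p / 4) G →
    ∀ (θ : ℝ) (f : Fin n → ℝ), f ∈ perp (deg G) → f ≠ 0 →
      ∑ u, ∑ v, adj G u v * f u * f v = θ * ∑ v, deg G v * f v ^ 2 → θ ^ 2 * n ≤ C0 ^ 2

lemma DG_lower {n : ℕ} {p : ℝ} {H : SimpleGraph (Fin n)} (h : DG p (p / 4) H) (v : Fin n) :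
    3 / 4 * p * n ≤ deg H v := by
  have := (abs_le.1 (h v)).1
  nlinarith

lemma perp2_le {n : ℕ} (d : Fin n → ℝ) (a b : Fin n) : perp2 d a b ≤ perp d :=
  fun _ hx => hx.1

lemma sum_castLE {k m : ℕ} (h : k ≤ m) (g : Fin m → ℝ) (hg : ∀ i, 0 ≤ g i) :
    ∑ i : Fin k, g (Fin.castLE h i) ≤ ∑ i, g i := by
  have e : ∑ i : Fin k, g (Fin.castLE h i) = ∑ j ∈ Finset.univ.map (Fin.castLEEmb h), g j := by
    rw [Finset.sum_map]
    rfl
  rw [e]
  exact Finset.sum_le_sum_of_subset_of_nonneg (Finset.subset_univ _) (fun j _ _ => hg j)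

/-- Everything about the compressed eigen system of a class which contains a good graph. -/
lemma cls_sys (hES : S_ES) (hFR : S_FR) {m : ℕ} (hm : 1 ≤ m) {p C C0 : ℝ} (hp : 0 < p)
    (hTH : THp (m + 2) p C C0) {a b : Fin (m + 2)} (hab : a ≠ b)
    (G : SimpleGraph (Fin (m + 2))) (τ0 : Fin (m + 2) → Bool)
    (hO : OpN p C (swapG a b τ0 G)) (hD : DG p (p / 4) (swapG a b τ0 G)) :
    ∃ E : ESys (adj G) (deg G) (perp2 (deg G) a b) m,
      (∀ i, E.θ i ^ 2 * ((m + 2 : ℕ) : ℝ) ≤ C0 ^ 2) ∧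
      (∀ i, E.f i ≠ 0) ∧
      (∀ i v, v ≠ a → v ≠ b → ∑ u, adj (swapG a b τ0 G) v u * E.f i u
        = E.θ i * deg (swapG a b τ0 G) v * E.f i v) ∧
      (∀ v, v ≠ a → v ≠ b → 3 / 4 * p * ((m + 2 : ℕ) : ℝ) ≤ deg G v) ∧
      3 / 2 * p * ((m + 2 : ℕ) : ℝ) ≤ deg G a + deg G b := by
  have hn0 : (0 : ℝ) < ((m + 2 : ℕ) : ℝ) := by positivity
  have hpos : ∀ v, 0 < deg (swapG a b τ0 G) v := fun v =>
    lt_of_lt_of_le (by positivity) (DG_lower hD v)
  obtain ⟨E0⟩ := hES (m + 2) (adj (swapG a b τ0 G)) (deg (swapG a b τ0 G))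
    (perp2 (deg (swapG a b τ0 G)) a b) m (adj_comm' _) hpos
    ((hFR (m + 2) _ hpos).2 (by omega) a b hab)
  have E : ESys (adj G) (deg G) (perp2 (deg G) a b) m := by
    have h := E0.swap hab τ0
    rw [swap_swap hab τ0 G] at h
    exact h
  set F := E.swap hab τ0 with hF
  have hDs : 0 < ∑ v, deg (swapG a b τ0 G) v :=
    Finset.sum_pos (fun v _ => hpos v) ⟨a, Finset.mem_univ a⟩
  have hne : ∀ i, E.f i ≠ 0 := by
    intro i h0
    have := E.orth i i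
    rw [h0] at this
    simp at this
  refine ⟨E, ?_, hne, ?_, ?_, ?_⟩
  · intro i
    refine hTH _ hO hD (E.θ i) (E.f i) (perp2_le _ a b (F.mem i)) (hne i) ?_
    have := F.eig i (E.f i) (F.mem i)
    rw [show F.f i = E.f i from rfl] at this
    rw [this]
    congr 1
    exact Finset.sum_congr rfl (fun v _ => by ring)
  · intro i v hv hv'
    exact lagr2_rest hDs (F.mem i) (F.eig i) v hv hv'
  · intro v hv hv'
    rw [← deg_rest (τ := τ0) hab ⟨hv, hv'⟩]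
    exact DG_lower hD v
  · rw [← deg_ab (τ := τ0) hab]
    have h1 := DG_lower hD a
    have h2 := DG_lower hD b
    linarith

/-- the key relation for all graphs of a class -/
lemma cls_rel (hINT : S_INT) {m : ℕ} {p : ℝ} (hp : 0 < p)
    {a b : Fin (m + 2)} (hab : a ≠ b) (G : SimpleGraph (Fin (m + 2)))
    (E' : ESys (adj G) (deg G) (perp2 (deg G) a b) m) (τ : Fin (m + 2) → Bool)
    (hD : DG p (p / 4) (swapG a b τ G))
    (E : ESys (adj (swapG a b τ G)) (deg (swapG a b τ G)) (perp (deg (swapG a b τ G))) (m + 1)) :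
    (∀ i : Fin m, E'.θ i ≤ E.θ 0) ∧
    (∀ (i : Fin m) (j : Fin (m + 1)), (i : ℕ) + 1 ≤ j → E.θ j ≤ E'.θ i) ∧
    (∀ i : Fin m, 2 * ((E.θ 0 - E'.θ i) * ∑ v, deg (swapG a b τ G) v * E.f 0 v * E'.f i v)
      = (∑ v, (if τ v then - bvec G a b (E'.θ i) (E'.f i) v
          else bvec G a b (E'.θ i) (E'.f i) v)) * (E.f 0 a - E.f 0 b)) ∧
    ∑ i : Fin m, (∑ v, deg (swapG a b τ G) v * E.f 0 v * E'.f i v) ^ 2 ≤ 1 := by
  have hn0 : (0 : ℝ) < ((m + 2 : ℕ) : ℝ) := by positivity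
  have hpos : ∀ v, 0 < deg (swapG a b τ G) v := fun v =>
    lt_of_lt_of_le (by positivity) (DG_lower hD v)
  have hDs : 0 < ∑ v, deg (swapG a b τ G) v :=
    Finset.sum_pos (fun v _ => hpos v) ⟨a, Finset.mem_univ a⟩
  set F := E'.swap hab τ with hF
  obtain ⟨h1, h2⟩ := hINT (m + 2) (adj (swapG a b τ G)) (deg (swapG a b τ G))
    (perp (deg (swapG a b τ G))) (perp2 (deg (swapG a b τ G)) a b) (m + 1) m (adj_comm' _) hpos
    (perp2_le _ a b) E F
  refine ⟨fun i => h1 i 0 (Nat.zero_le _), fun i j hij => h2 le_rfl i j hij, ?_, ?_⟩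
  · intro i
    have h := secular hab hDs (F.mem i) (F.eig i) (lagr1 hDs (E.mem 0) (E.eig 0))
    have hb := beta2_swap (G := G) (τ := τ) hab (E'.θ i) (E'.mem i).2
    rw [show F.θ i = E'.θ i from rfl, show F.f i = E'.f i from rfl, hb] at h
    exact h
  · have h := F.bessel (fun v => (hpos v).le) (E.f 0)
    have e : ∑ v, deg (swapG a b τ G) v * E.f 0 v ^ 2 = 1 := by
      have := E.orth 0 0
      simp only [if_true] at this
      rw [← this]
      exact Finset.sum_congr rfl (fun v _ => by ring)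
    rw [e] at h
    exact h

/-- lower bound for the quadratic form -/
lemma cls_Q0 {n m k : ℕ} {a b : Fin n} (hab : a ≠ b) (hn : 0 < n) {p C0 c ε : ℝ} (hp : 0 < p)
    (hc : 0 < c) (hε : 0 < ε) (hce : C0 ^ 2 * ε ^ 2 ≤ c ^ 2 / 4)
    (hk0 : 4 / (3 * p * ε ^ 2) ≤ k) (hkm : k ≤ m) {G : SimpleGraph (Fin n)}
    {τ0 : Fin n → Bool} (hG3 : G3 C0 c ε a b (swapG a b τ0 G))
    (E' : ESys (adj G) (deg G) (perp2 (deg G) a b) m)
    (hθ : ∀ i, E'.θ i ^ 2 * n ≤ C0 ^ 2) (hf0 : ∀ i, E'.f i ≠ 0)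
    (hrow : ∀ i v, v ≠ a → v ≠ b → ∑ u, adj (swapG a b τ0 G) v u * E'.f i u
        = E'.θ i * deg (swapG a b τ0 G) v * E'.f i v)
    (hda : 3 / 2 * p * n ≤ deg G a + deg G b) :
    c ^ 3 / 8 * k / n ≤ ∑ i : Fin k, ∑ v, bvec G a b (E'.θ (Fin.castLE hkm i))
      (E'.f (Fin.castLE hkm i)) v ^ 2 := by
  have hn0 : (0 : ℝ) < (n : ℝ) := by exact_mod_cast hn
  have hsn1 : ∀ i, 1 ≤ n * sn (E'.f i) := fun i =>
    one_le_sn (fun v => deg_le G v) (by have := E'.orth i i; simpa using this)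
  set good := Finset.univ.filter (fun i : Fin k =>
    E'.f (Fin.castLE hkm i) a ^ 2 ≤ ε ^ 2 * sn (E'.f (Fin.castLE hkm i))) with hgood
  have hg1 : ∀ i ∈ good, c ^ 3 / 4 / n ≤ ∑ v, bvec G a b (E'.θ (Fin.castLE hkm i))
      (E'.f (Fin.castLE hkm i)) v ^ 2 := by
    intro i hi
    have hi' := (Finset.mem_filter.1 hi).2
    have h := cls_Q hab hn hc hce hG3 (hf0 _) (hθ _) (E'.mem _).2
      (hrow (Fin.castLE hkm i)) hi'
    have h2 := hsn1 (Fin.castLE hkm i)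
    have h3 : c ^ 3 / 4 / n ≤ c ^ 3 / 4 * sn (E'.f (Fin.castLE hkm i)) := by
      rw [div_le_iff₀ hn0]
      have : 0 < c ^ 3 / 4 := by positivity
      nlinarith
    exact h3.trans h
  set bad := Finset.univ.filter (fun i : Fin k =>
    ¬ (E'.f (Fin.castLE hkm i) a ^ 2 ≤ ε ^ 2 * sn (E'.f (Fin.castLE hkm i)))) with hbaddef
  have hbad : (bad.card : ℝ) ≤ k / 2 := by
    have h1 : (bad.card : ℝ) * (ε ^ 2 / n) ≤ ∑ i ∈ bad, E'.f (Fin.castLE hkm i) a ^ 2 := by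
      rw [← nsmul_eq_mul, ← Finset.sum_const]
      refine Finset.sum_le_sum (fun i hi => ?_)
      have h2 := (Finset.mem_filter.1 hi).2
      push Not at h2
      have h3 := hsn1 (Fin.castLE hkm i)
      have h4 : ε ^ 2 / n ≤ ε ^ 2 * sn (E'.f (Fin.castLE hkm i)) := by
        rw [div_le_iff₀ hn0]
        have : 0 < ε ^ 2 := by positivity
        nlinarith
      linarith
    have h2 : ∑ i ∈ bad, E'.f (Fin.castLE hkm i) a ^ 2 ≤ ∑ i : Fin m, E'.f i a ^ 2 :=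
      (Finset.sum_le_sum_of_subset_of_nonneg (Finset.subset_univ _)
        (fun _ _ _ => sq_nonneg _)).trans
        (sum_castLE hkm (fun j : Fin m => E'.f j a ^ 2) (fun j => sq_nonneg _))
    have h3 := E'.point2 (fun v => deg_nonneg G v) hab
      (lt_of_lt_of_le (by positivity) hda) (fun i => (E'.mem i).2)
    have h4 : (1 : ℝ) / (deg G a + deg G b) ≤ 2 / (3 * p * n) := by
      rw [div_le_div_iff₀ (lt_of_lt_of_le (by positivity) hda) (by positivity)]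
      nlinarith
    have h5 : (bad.card : ℝ) * (ε ^ 2 / n) ≤ 2 / (3 * p * n) := by linarith
    have h6 : (bad.card : ℝ) ≤ 2 / (3 * p * ε ^ 2) := by
      rw [le_div_iff₀ (by positivity)]
      rw [mul_div_assoc', div_le_div_iff₀ hn0 (by positivity)] at h5
      have : (bad.card : ℝ) * (3 * p * ε ^ 2) * n ≤ 2 * n := by nlinarith
      exact le_of_mul_le_mul_right this hn0
    have h7 : 2 / (3 * p * ε ^ 2) = (4 / (3 * p * ε ^ 2)) / 2 := by ring
    rw [h7] at h6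
    linarith
  have hcard : (k : ℝ) / 2 ≤ (good.card : ℝ) := by
    have h1 := Finset.card_filter_add_card_filter_not (s := (Finset.univ : Finset (Fin k)))
      (p := fun i : Fin k =>
        E'.f (Fin.castLE hkm i) a ^ 2 ≤ ε ^ 2 * sn (E'.f (Fin.castLE hkm i)))
    rw [Finset.card_univ, Fintype.card_fin] at h1
    have h2 : (good.card : ℝ) + (bad.card : ℝ) = k := by
      rw [hgood, hbaddef]
      exact_mod_cast h1
    linarith
  calc c ^ 3 / 8 * k / n = (k / 2) * (c ^ 3 / 4 / n) := by ring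
    _ ≤ (good.card : ℝ) * (c ^ 3 / 4 / n) :=
        mul_le_mul_of_nonneg_right hcard (by positivity)
    _ = ∑ i ∈ good, c ^ 3 / 4 / n := by rw [Finset.sum_const, nsmul_eq_mul]
    _ ≤ ∑ i ∈ good, ∑ v, bvec G a b (E'.θ (Fin.castLE hkm i))
          (E'.f (Fin.castLE hkm i)) v ^ 2 := Finset.sum_le_sum hg1
    _ ≤ _ := Finset.sum_le_sum_of_subset_of_nonneg (Finset.subset_univ _)
        (fun _ _ _ => Finset.sum_nonneg (fun _ _ => sq_nonneg _))

/-- Chebyshev within a class -/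
lemma cls_cheb (hCHA : S_CHA2) {n m k : ℕ} {a b : Fin n} (hab : a ≠ b) (hn : 0 < n)
    {p C0 c s α : ℝ} (hp : 0 < p) (hc : 0 < c) (hk1 : 1 ≤ k) (hα : 0 < α)
    (hs : s ^ 2 * n ≤ c ^ 3 / 64 * k * α ^ 2)
    (hkm : k ≤ m) {G : SimpleGraph (Fin n)}
    (hdr : ∀ v, v ≠ a → v ≠ b → 3 / 4 * p * n ≤ deg G v)
    (hda : 3 / 2 * p * n ≤ deg G a + deg G b)
    (E' : ESys (adj G) (deg G) (perp2 (deg G) a b) m)
    (hθ : ∀ i, E'.θ i ^ 2 * n ≤ C0 ^ 2)
    (hQ : c ^ 3 / 8 * k / n ≤ ∑ i : Fin k, ∑ v, bvec G a b (E'.θ (Fin.castLE hkm i))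
      (E'.f (Fin.castLE hkm i)) v ^ 2)
    (T : Finset (Fin n → Bool))
    (hT : ∀ τ ∈ T, (∑ i : Fin k, (∑ v, (if τ v
        then - bvec G a b (E'.θ (Fin.castLE hkm i)) (E'.f (Fin.castLE hkm i)) v
        else bvec G a b (E'.θ (Fin.castLE hkm i)) (E'.f (Fin.castLE hkm i)) v)) ^ 2) * α ^ 2
          ≤ 4 * s ^ 2) :
    (T.card : ℝ) ≤ 64 * ((8 + 4 * C0 ^ 2) / (3 * p)) / (c ^ 3 * k) * 2 ^ n := by
  have hn0 : (0 : ℝ) < (n : ℝ) := by exact_mod_cast hn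
  have hk' : (0 : ℝ) < k := by exact_mod_cast hk1
  set bb : Fin k → Fin n → ℝ := fun i v =>
    - bvec G a b (E'.θ (Fin.castLE hkm i)) (E'.f (Fin.castLE hkm i)) v with hbb
  set L : ℝ := (8 + 4 * C0 ^ 2) / (3 * p) / n with hL
  have hLx : ∀ x : Fin n → ℝ, ∑ i, (∑ v, bb i v * x v) ^ 2 ≤ L * ∑ v, x v ^ 2 := by
    intro x
    refine le_trans ?_ (cls_L hab hn hp hdr hda E' hθ x)
    have e : ∀ i : Fin k, (∑ v, bb i v * x v) ^ 2
        = (∑ v, bvec G a b (E'.θ (Fin.castLE hkm i)) (E'.f (Fin.castLE hkm i)) v * x v) ^ 2 := by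
      intro i
      simp only [hbb, neg_mul, Finset.sum_neg_distrib, neg_sq]
    rw [Finset.sum_congr rfl (fun i _ => e i)]
    exact sum_castLE hkm (fun j : Fin m => (∑ v, bvec G a b (E'.θ j) (E'.f j) v * x v) ^ 2)
      (fun j => sq_nonneg _)
  have hcha := hCHA (Fin n) (Fin k) bb L (by positivity) hLx
  have hQe : ∑ i, ∑ v, bb i v ^ 2 = ∑ i : Fin k, ∑ v, bvec G a b (E'.θ (Fin.castLE hkm i))
      (E'.f (Fin.castLE hkm i)) v ^ 2 := by
    simp only [hbb, neg_sq]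
  rw [← hQe] at hQ
  set Q0 : ℝ := ∑ i, ∑ v, bb i v ^ 2 with hQ0
  have hα2 : 0 < α ^ 2 := by positivity
  have hsub : T ⊆ (Finset.univ.filter (fun τ : Fin n → Bool =>
        ∑ i, (∑ v, (if τ v then bb i v else - bb i v)) ^ 2 ≤ (1 / 2) * Q0)) := by
    intro τ hτ
    simp only [Finset.mem_filter, Finset.mem_univ, true_and]
    have h := hT τ hτ
    have h8 : 4 * s ^ 2 ≤ (c ^ 3 / 16 * k / n) * α ^ 2 := by
      have : 4 * s ^ 2 * n ≤ c ^ 3 / 16 * k * α ^ 2 := by nlinarith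
      rw [show (c ^ 3 / 16 * k / n) * α ^ 2 = (c ^ 3 / 16 * k * α ^ 2) / n by ring,
        le_div_iff₀ hn0]
      exact this
    have h9 := le_of_mul_le_mul_right (h.trans h8) hα2
    have h10 : c ^ 3 / 16 * k / n = 1 / 2 * (c ^ 3 / 8 * k / n) := by ring
    rw [h10] at h9
    have h11 : ∑ i, (∑ v, (if τ v then bb i v else - bb i v)) ^ 2
        = ∑ i : Fin k, (∑ v, (if τ v
        then - bvec G a b (E'.θ (Fin.castLE hkm i)) (E'.f (Fin.castLE hkm i)) v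
        else bvec G a b (E'.θ (Fin.castLE hkm i)) (E'.f (Fin.castLE hkm i)) v)) ^ 2 := by
      simp only [hbb, neg_neg]
    rw [h11]
    linarith
  have hcard' : (T.card : ℝ) ≤
      ((Finset.univ.filter (fun τ : Fin n → Bool =>
        ∑ i, (∑ v, (if τ v then bb i v else - bb i v)) ^ 2 ≤ (1 / 2) * Q0)).card : ℝ) := by
    exact_mod_cast Finset.card_le_card hsub
  rw [Fintype.card_fin] at hcha
  have hfin : (T.card : ℝ) * (c ^ 3 / 8 * k / n) ≤ 8 * L * 2 ^ n := by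
    calc (T.card : ℝ) * (c ^ 3 / 8 * k / n) ≤ (T.card : ℝ) * Q0 :=
          mul_le_mul_of_nonneg_left hQ (by positivity)
      _ ≤ _ * Q0 := mul_le_mul_of_nonneg_right hcard'
          (le_trans (by positivity) hQ)
      _ ≤ 8 * L * 2 ^ n := by convert hcha
  have hc3 : 0 < c ^ 3 / 8 * k / n := by positivity
  have := (le_div_iff₀ hc3).2 hfin
  refine this.trans (le_of_eq ?_)
  rw [hL]
  field_simp
  ring

theorem clsK (hES : S_ES) (hINT : S_INT) (hFR : S_FR) (hCHA : S_CHA2) {m : ℕ} (hm : 1 ≤ m)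
    {p C C0 c ε s α : ℝ} {k : ℕ} (hp : 0 < p) (hc : 0 < c) (hε : 0 < ε)
    (hce : C0 ^ 2 * ε ^ 2 ≤ c ^ 2 / 4) (hk1 : 1 ≤ k) (hk0 : 4 / (3 * p * ε ^ 2) ≤ k)
    (hα : 0 < α)
    (hs : s ^ 2 * ((m + 2 : ℕ) : ℝ) ≤ c ^ 3 / 64 * k * α ^ 2) (hTH : THp (m + 2) p C C0)
    {a b : Fin (m + 2)} (hab : a ≠ b) (G : SimpleGraph (Fin (m + 2))) :
    ((Finset.univ.filter (fun τ : Fin (m + 2) → Bool =>
      EvK m p C C0 c ε s α k a b (swapG a b τ G))).card : ℝ)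
      ≤ 64 * ((8 + 4 * C0 ^ 2) / (3 * p)) / (c ^ 3 * k) * 2 ^ (m + 2) := by
  have hk' : (0 : ℝ) < k := by exact_mod_cast hk1
  by_cases hne : ∃ τ0, EvK m p C C0 c ε s α k a b (swapG a b τ0 G)
  swap
  · have : Finset.univ.filter (fun τ : Fin (m + 2) → Bool =>
      EvK m p C C0 c ε s α k a b (swapG a b τ G)) = ∅ := by
      apply Finset.filter_eq_empty_iff.2
      intro τ _ h
      exact hne ⟨τ, h⟩
    rw [this]
    simp only [Finset.card_empty, Nat.cast_zero]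
    positivity
  obtain ⟨τ0, hO, hD, hG3, E0, hk, -, -⟩ := hne
  obtain ⟨E', hθ, hf0, hrow, hdr, hda⟩ := cls_sys hES hFR hm hp hTH hab G τ0 hO hD
  have hkm : k ≤ m := by omega
  have hQ := cls_Q0 hab (Nat.succ_pos _) hp hc hε hce hk0 hkm hG3 E' hθ hf0 hrow hda
  refine cls_cheb hCHA hab (Nat.succ_pos _) hp hc hk1 hα hs hkm hdr hda E' hθ hQ _ ?_
  intro τ hτ
  simp only [Finset.mem_filter, Finset.mem_univ, true_and] at hτ
  obtain ⟨hO', hD', -, E, hk', hgap, hα'⟩ := hτ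
  obtain ⟨r1, r2, r3, r4⟩ := cls_rel hINT hp hab G E' τ hD' E
  have hterm : ∀ i : Fin k, (∑ v, (if τ v
        then - bvec G a b (E'.θ (Fin.castLE hkm i)) (E'.f (Fin.castLE hkm i)) v
        else bvec G a b (E'.θ (Fin.castLE hkm i)) (E'.f (Fin.castLE hkm i)) v)) ^ 2 * α ^ 2
      ≤ 4 * s ^ 2 * (∑ v, deg (swapG a b τ G) v * E.f 0 v * E'.f (Fin.castLE hkm i) v) ^ 2 := by
    intro i
    have h3 := r3 (Fin.castLE hkm i)
    set B := ∑ v, (if τ v then - bvec G a b (E'.θ (Fin.castLE hkm i)) (E'.f (Fin.castLE hkm i)) v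
        else bvec G a b (E'.θ (Fin.castLE hkm i)) (E'.f (Fin.castLE hkm i)) v) with hB
    set Z := ∑ v, deg (swapG a b τ G) v * E.f 0 v * E'.f (Fin.castLE hkm i) v with hZ
    have hd1 : 0 ≤ E.θ 0 - E'.θ (Fin.castLE hkm i) := sub_nonneg.2 (r1 _)
    have hd2 : E.θ 0 - E'.θ (Fin.castLE hkm i) ≤ s := by
      have hi := i.2
      have := r2 (Fin.castLE hkm i) ⟨k, hk'⟩ (by simp only [Fin.val_castLE]; omega)
      linarith
    calc B ^ 2 * α ^ 2 ≤ B ^ 2 * (E.f 0 a - E.f 0 b) ^ 2 :=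
          mul_le_mul_of_nonneg_left hα' (sq_nonneg _)
      _ = (B * (E.f 0 a - E.f 0 b)) ^ 2 := by ring
      _ = (2 * ((E.θ 0 - E'.θ (Fin.castLE hkm i)) * Z)) ^ 2 := by rw [← h3]
      _ = 4 * (E.θ 0 - E'.θ (Fin.castLE hkm i)) ^ 2 * Z ^ 2 := by ring
      _ ≤ 4 * s ^ 2 * Z ^ 2 := by
          refine mul_le_mul_of_nonneg_right ?_ (sq_nonneg _)
          have := pow_le_pow_left₀ hd1 hd2 2
          linarith
  rw [Finset.sum_mul]
  refine (Finset.sum_le_sum (fun i _ => hterm i)).trans ?_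
  rw [← Finset.mul_sum]
  have h5 := sum_castLE hkm (fun j : Fin m =>
        (∑ v, deg (swapG a b τ G) v * E.f 0 v * E'.f j v) ^ 2) (fun j => sq_nonneg _)
  have h6 : 4 * s ^ 2 * ∑ i : Fin k,
      (∑ v, deg (swapG a b τ G) v * E.f 0 v * E'.f (Fin.castLE hkm i) v) ^ 2 ≤ 4 * s ^ 2 * 1 :=
    mul_le_mul_of_nonneg_left (h5.trans r4) (by positivity)
  linarith

end Pool.Agent.W839.Ch
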