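import Mathlib

/-!
# MP_332c83_pr (S19255): definitions

Random graphs `G(n,p)` as weighted sums over `SimpleGraph (Fin n)`, the generalised eigenvalue
problem `A f = θ D f`, and the properties of typical graphs that are used in the proof.
-/

set_option autoImplicit false
open scoped Classical
open Finset

namespace Pool.Agent.W839.Ch

/-- adjacency matrix -/
noncomputable def adj {n : ℕ} (G : SimpleGraph (Fin n)) (u v : Fin n) : ℝ :=
  if G.Adj u v then 1 else 0

/-- degree -/
noncomputable def deg {n : ℕ} (G : SimpleGraph (Fin n)) (v : Fin n) : ℝ := ∑ u, adj G v u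

/-- weight of `G` in `G(n,p)` -/
noncomputable def wt (n : ℕ) (p : ℝ) (G : SimpleGraph (Fin n)) : ℝ :=
  p ^ G.edgeFinset.card * (1 - p) ^ (n.choose 2 - G.edgeFinset.card)

/-- probability of an event in `G(n,p)` -/
noncomputable def Pr (n : ℕ) (p : ℝ) (P : SimpleGraph (Fin n) → Prop) : ℝ :=
  ∑ G : SimpleGraph (Fin n), if P G then wt n p G else 0

/-- squared Euclidean norm -/
noncomputable def sn {n : ℕ} (x : Fin n → ℝ) : ℝ := ∑ v, x v ^ 2

/-- vectors orthogonal to the constants with respect to the weights `d` -/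
def perp {n : ℕ} (d : Fin n → ℝ) : Submodule ℝ (Fin n → ℝ) where
  carrier := {x | ∑ v, d v * x v = 0}
  add_mem' := by
    intro x y hx hy
    simp only [Set.mem_ofPred_eq, Pi.add_apply, mul_add, Finset.sum_add_distrib] at *
    rw [hx, hy, add_zero]
  zero_mem' := by simp
  smul_mem' := by
    intro c x hx
    simp only [Set.mem_ofPred_eq, Pi.smul_apply, smul_eq_mul] at *
    have : ∑ v, d v * (c * x v) = c * ∑ v, d v * x v := by
      rw [Finset.mul_sum]; exact Finset.sum_congr rfl (fun v _ => by ring)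
    rw [this, hx, mul_zero]

/-- the same with the additional constraint `x a = x b` -/
def perp2 {n : ℕ} (d : Fin n → ℝ) (a b : Fin n) : Submodule ℝ (Fin n → ℝ) where
  carrier := {x | ∑ v, d v * x v = 0 ∧ x a = x b}
  add_mem' := by
    rintro x y ⟨hx, hx'⟩ ⟨hy, hy'⟩
    refine ⟨?_, ?_⟩
    · simp only [Pi.add_apply, mul_add, Finset.sum_add_distrib]
      rw [hx, hy, add_zero]
    · simp [hx', hy']
  zero_mem' := by simp
  smul_mem' := by
    rintro c x ⟨hx, hx'⟩
    refine ⟨?_, ?_⟩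
    · simp only [Pi.smul_apply, smul_eq_mul]
      have : ∑ v, d v * (c * x v) = c * ∑ v, d v * x v := by
        rw [Finset.mul_sum]; exact Finset.sum_congr rfl (fun v _ => by ring)
      rw [this, hx, mul_zero]
    · simp [hx']

/-- A complete system of eigenvectors of the pencil `(A, D)` compressed to the subspace `W`:
`θ` is decreasing, the `f i` form an orthonormal basis of `W` for `⟨x,y⟩ = ∑ d v * x v * y v`,
and `⟨x, A f_i⟩ = θ_i ⟨x, D f_i⟩` for all `x ∈ W`. -/
structure ESys {n : ℕ} (A : Fin n → Fin n → ℝ) (d : Fin n → ℝ)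
    (W : Submodule ℝ (Fin n → ℝ)) (m : ℕ) where
  θ : Fin m → ℝ
  f : Fin m → Fin n → ℝ
  anti : Antitone θ
  orth : ∀ i j, ∑ v, d v * f i v * f j v = if i = j then 1 else 0
  mem : ∀ i, f i ∈ W
  eig : ∀ i, ∀ x ∈ W, ∑ u, ∑ v, A u v * x u * f i v = θ i * ∑ v, d v * x v * f i v
  expand : ∀ x ∈ W, ∀ v, x v = ∑ i, (∑ u, d u * x u * f i u) * f i v

/-- the operator norm of `A - p (J - I)` is at most `C √n` -/
def OpN {n : ℕ} (p C : ℝ) (G : SimpleGraph (Fin n)) : Prop :=
  ∀ x y : Fin n → ℝ,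
    (∑ u, ∑ v, (adj G u v - if u = v then 0 else p) * x u * y v) ^ 2 ≤ C ^ 2 * n * sn x * sn y

/-- all degrees are within `δ n` of `p n` -/
def DG {n : ℕ} (p δ : ℝ) (G : SimpleGraph (Fin n)) : Prop :=
  ∀ v, |deg G v - p * n| ≤ δ * n

/-- sparse vectors `y` have `A y` far from constants outside of their support -/
def SP {n : ℕ} (c ε : ℝ) (G : SimpleGraph (Fin n)) : Prop :=
  ∀ T : Finset (Fin n), (T.card : ℝ) ≤ ε * n → ∀ y : Fin n → ℝ, (∀ v, v ∉ T → y v = 0) →
    ∀ α : ℝ, c * n * sn y ≤ ∑ v ∈ Tᶜ, (∑ u, adj G v u * y u - α) ^ 2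

/-- no window of length `κ √n` contains more than `c n` eigenvalues -/
def NA {n : ℕ} (c κ : ℝ) (G : SimpleGraph (Fin n)) : Prop :=
  ∀ (l : ℝ) (W : Submodule ℝ (Fin n → ℝ)),
    (∀ y ∈ W, ∑ v, (∑ u, adj G v u * y u - l * y v) ^ 2 ≤ κ ^ 2 * n * sn y) →
      (Module.finrank ℝ W : ℝ) ≤ c * n

/-- Every eigenvector `w` of the compression to `x a = x b` that is not concentrated on `a`, `b`
has many coordinates of typical size at vertices which are adjacent to exactly one of `a`, `b`. -/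
def G3 {n : ℕ} (C0 c ε : ℝ) (a b : Fin n) (G : SimpleGraph (Fin n)) : Prop :=
  ∀ (θ : ℝ) (w : Fin n → ℝ), w ≠ 0 → θ ^ 2 * n ≤ C0 ^ 2 → w a = w b →
    (∀ v, v ≠ a → v ≠ b → ∑ u, adj G v u * w u = θ * deg G v * w v) →
    w a ^ 2 ≤ ε ^ 2 * sn w →
    c * n ≤ ((Finset.univ.filter (fun v : Fin n => v ≠ a ∧ v ≠ b ∧ adj G a v ≠ adj G b v ∧
      c ^ 2 * sn w ≤ n * w v ^ 2)).card : ℝ)

/-- the spectral gap of the normalised Laplacian, in the form of the frozen statement -/
noncomputable def gapF (n : ℕ) (H : SimpleGraph (Fin n)) : ℝ :=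
  sInf {t : ℝ | 2 ≤ (((Matrix.of fun i j : Fin n =>
            (if i = j then (1 : ℝ) else 0) -
              (if H.Adj i j then (1 : ℝ) else 0) /
                Real.sqrt ((∑ k : Fin n, if H.Adj i k then (1 : ℝ) else 0) *
                  (∑ k : Fin n, if H.Adj j k then (1 : ℝ) else 0))).charpoly.roots).filter
              (fun x => x ≤ t)).card}

/-- For each `v ∉ {a,b}` with `τ v`, exchange the adjacencies `av` and `bv`. -/
def swapG {n : ℕ} (a b : Fin n) (τ : Fin n → Bool) (G : SimpleGraph (Fin n)) :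
    SimpleGraph (Fin n) where
  Adj u v := u ≠ v ∧ ((if (u ≠ a ∧ u ≠ b) ∧ τ u = true then G.Adj u (Equiv.swap a b v)
    else if (v ≠ a ∧ v ≠ b) ∧ τ v = true then G.Adj (Equiv.swap a b u) v else G.Adj u v))
  symm := by
    refine ⟨?_⟩
    rintro u v ⟨huv, h⟩
    refine ⟨huv.symm, ?_⟩
    by_cases hu : u ≠ a ∧ u ≠ b <;> by_cases hv : v ≠ a ∧ v ≠ b
    · have e1 : Equiv.swap a b v = v := Equiv.swap_apply_of_ne_of_ne hv.1 hv.2
      have e2 : Equiv.swap a b u = u := Equiv.swap_apply_of_ne_of_ne hu.1 hu.2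
      rw [e1, e2] at h
      rw [e1, e2]
      split_ifs at h ⊢ <;> exact h.symm
    · simp only [hu, hv, true_and, false_and, if_false, not_false_eq_true] at h ⊢
      split_ifs at h ⊢ <;> simp_all [G.adj_comm]
    · simp only [hu, hv, true_and, false_and, if_false, not_false_eq_true] at h ⊢
      split_ifs at h ⊢ <;> simp_all [G.adj_comm]
    · simp only [hu, hv, false_and, if_false] at h ⊢
      exact h.symm
  loopless := ⟨fun u h => h.1 rfl⟩

end Pool.Agent.W839.Ch
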