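import Pool.Agent.W839.Ch.ClsG

/-! # Deterministic consequences -/

set_option autoImplicit false
open scoped Classical
open Finset Filter Topology

set_option maxHeartbeats 4000000

namespace Pool.Agent.W839.Ch

lemma one_of {n : ℕ} {p : ℝ} (hB : S_BIT) (hp0 : 0 ≤ p) (hp1 : p ≤ 1) (F : SimpleGraph (Fin n) → ℝ)
    (B : ℝ) (h : ∀ G, F G ≤ B) : ∑ G : SimpleGraph (Fin n), wt n p G * F G ≤ B := by
  have h1 : ∑ G : SimpleGraph (Fin n), wt n p G * F G ≤ ∑ G : SimpleGraph (Fin n), wt n p G * B :=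
    Finset.sum_le_sum (fun G _ => mul_le_mul_of_nonneg_left (h G) (wt_nonneg hp0 hp1 G))
  rw [← Finset.sum_mul] at h1
  have h2 : ∑ G : SimpleGraph (Fin n), wt n p G = 1 := by
    have := Pr_true (n := n) (p := p) hB
    unfold Pr at this
    simpa using this
  rw [h2, one_mul] at h1
  exact h1

theorem PrK (hB : S_BIT) (hSW : S_SWP) (hES : S_ES) (hINT : S_INT) (hFR : S_FR) (hCHA : S_CHA2)
    {m : ℕ} (hm : 1 ≤ m)
    {p C C0 c ε s α : ℝ} {k : ℕ} (hp : 0 < p) (hp1 : p < 1) (hc : 0 < c) (hε : 0 < ε)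
    (hce : C0 ^ 2 * ε ^ 2 ≤ c ^ 2 / 4) (hk1 : 1 ≤ k) (hk0 : 4 / (3 * p * ε ^ 2) ≤ k)
    (hα : 0 < α)
    (hs : s ^ 2 * ((m + 2 : ℕ) : ℝ) ≤ c ^ 3 / 64 * k * α ^ 2) (hTH : THp (m + 2) p C C0)
    {a b : Fin (m + 2)} (hab : a ≠ b) :
    Pr (m + 2) p (EvK m p C C0 c ε s α k a b)
      ≤ 64 * ((8 + 4 * C0 ^ 2) / (3 * p)) / (c ^ 3 * k) := by
  rw [hSW (m + 2) p a b hab]
  refine one_of hB hp.le hp1.le _ _ (fun G => ?_)
  rw [div_le_iff₀ (by positivity)]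
  exact clsK hES hINT hFR hCHA hm hp hc hε hce hk1 hk0 hα hs hTH hab G

theorem PrG (hB : S_BIT) (hSW : S_SWP) (hES : S_ES) (hINT : S_INT) (hFR : S_FR)
    {K : ℝ} (hK : 0 < K)
    (hLO : ∀ (V : Type) [Fintype V] (b : V → ℝ) (h : ℝ) (N : ℕ),
      0 < h → 0 < N → N ≤ (Finset.univ.filter (fun v => h ≤ |b v|)).card →
      ∀ R x : ℝ, 0 ≤ R →
        ((Finset.univ.filter (fun τ : V → Bool =>
          |∑ v, (if τ v then b v else - b v) - x| ≤ R)).card : ℝ)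
          ≤ K * (R / h + 1) / Real.sqrt N * 2 ^ Fintype.card V)
    {m : ℕ} (hm : 1 ≤ m)
    {p C C0 c ε g α : ℝ} (hp : 0 < p) (hp1 : p < 1) (hc : 0 < c)
    (hce : C0 ^ 2 * ε ^ 2 ≤ c ^ 2 / 4) (hg : 0 ≤ g) (hα : 0 < α)
    (hTH : THp (m + 2) p C C0)
    {a b : Fin (m + 2)} (hab : a ≠ b) :
    Pr (m + 2) p (EvG m p C C0 c ε g α a b)
      ≤ K * (4 * g * ((m + 2 : ℕ) : ℝ) / (α * c) + 1) / Real.sqrt (c * ((m + 2 : ℕ) : ℝ)) := by
  rw [hSW (m + 2) p a b hab]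
  refine one_of hB hp.le hp1.le _ _ (fun G => ?_)
  rw [div_le_iff₀ (by positivity)]
  exact clsG hES hINT hFR hK hLO hm hp hc hce hg hα hTH hab G

/-- `w a` is small unless `a` is exceptional -/
lemma small_w (hINT : S_INT) {m : ℕ} {p ε g s α : ℝ} (hp : 0 < p)
    (hα : 0 < α) (hs : 0 < s) (hgs : g ≤ s / 2)
    (hcond : 1024 * g ^ 2 ≤ 9 * p ^ 2 * ε ^ 2 * ((m + 2 : ℕ) : ℝ) * α ^ 2 * s ^ 2)
    {H : SimpleGraph (Fin (m + 2))} (hD : DG p (p / 4) H)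
    (E : ESys (adj H) (deg H) (perp (deg H)) (m + 1)) (h1 : 1 < m + 1)
    (hgap : E.θ 0 - g ≤ E.θ ⟨1, h1⟩) {a b : Fin (m + 2)} (hab : a ≠ b)
    (hα' : α ^ 2 ≤ (E.f 0 a - E.f 0 b) ^ 2)
    (hnu : ∑ j ∈ Finset.univ.filter (fun j => E.θ 0 - s ≤ E.θ j), E.f j a ^ 2
      ≤ ε ^ 2 / (4 * ((m + 2 : ℕ) : ℝ)))
    (E' : ESys (adj H) (deg H) (perp2 (deg H) a b) m) (h0 : 0 < m) :
    E'.f ⟨0, h0⟩ a ^ 2 ≤ ε ^ 2 * sn (E'.f ⟨0, h0⟩) := by
  have hn0 : (0 : ℝ) < ((m + 2 : ℕ) : ℝ) := by positivity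
  have hpos : ∀ v, 0 < deg H v := fun v =>
    lt_of_lt_of_le (by positivity) (DG_lower hD v)
  have hDs : 0 < ∑ v, deg H v := Finset.sum_pos (fun v _ => hpos v) ⟨a, Finset.mem_univ a⟩
  obtain ⟨i1, i2⟩ := hINT (m + 2) (adj H) (deg H) (perp (deg H)) (perp2 (deg H) a b) (m + 1) m
    (adj_comm' _) hpos (perp2_le _ a b) E E'
  set i0 : Fin m := ⟨0, h0⟩ with hi0
  set w := E'.f i0 with hw
  set θ' := E'.θ i0 with hθ'
  have hd1 : θ' ≤ E.θ 0 := i1 i0 0 (Nat.zero_le _)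
  have hd2 : E.θ ⟨1, h1⟩ ≤ θ' := i2 le_rfl i0 ⟨1, h1⟩ (Nat.le_refl 1)
  set B := beta2 H a b θ' w with hB
  have sec : ∀ j, 2 * ((E.θ j - θ') * ∑ v, deg H v * E.f j v * w v) = B * (E.f j a - E.f j b) :=
    fun j => secular hab hDs (E'.mem i0) (E'.eig i0) (lagr1 hDs (E.mem j) (E.eig j))
  set cc : Fin (m + 1) → ℝ := fun j => ∑ v, deg H v * E.f j v * w v with hcc
  have hcc' : ∀ j, cc j = ∑ v, deg H v * w v * E.f j v := fun j =>
    Finset.sum_congr rfl (fun v _ => by ring)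
  have hw1 : ∑ v, deg H v * w v ^ 2 = 1 := by
    have := E'.orth i0 i0
    simp only [if_true] at this
    rw [← this]
    exact Finset.sum_congr rfl (fun v _ => by ring)
  have hbes : ∑ j, cc j ^ 2 ≤ 1 := by
    have := E.bessel (fun v => (hpos v).le) w
    rw [hw1] at this
    simpa only [hcc'] using this
  -- bound for B
  have hB2 : B ^ 2 * α ^ 2 ≤ 4 * g ^ 2 := by
    have h3 := sec 0
    have hZ1 : cc 0 ^ 2 ≤ 1 :=
      (Finset.single_le_sum (f := fun j => cc j ^ 2) (fun i _ => sq_nonneg _)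
        (Finset.mem_univ (0 : Fin (m + 1)))).trans hbes
    calc B ^ 2 * α ^ 2 ≤ B ^ 2 * (E.f 0 a - E.f 0 b) ^ 2 :=
          mul_le_mul_of_nonneg_left hα' (sq_nonneg _)
      _ = (B * (E.f 0 a - E.f 0 b)) ^ 2 := by ring
      _ = (2 * ((E.θ 0 - θ') * cc 0)) ^ 2 := by rw [← h3]
      _ = 4 * (E.θ 0 - θ') ^ 2 * cc 0 ^ 2 := by ring
      _ ≤ 4 * g ^ 2 * 1 := by
          have := pow_le_pow_left₀ (by linarith : 0 ≤ E.θ 0 - θ')
            (by linarith : E.θ 0 - θ' ≤ g) 2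
          exact mul_le_mul (by linarith) hZ1 (sq_nonneg _) (by positivity)
      _ = 4 * g ^ 2 := by ring
  set near := Finset.univ.filter (fun j : Fin (m + 1) => E.θ 0 - s ≤ E.θ j) with hnear
  set far := Finset.univ.filter (fun j : Fin (m + 1) => ¬ (E.θ 0 - s ≤ E.θ j)) with hfar
  have hpa := E.point (fun v => (hpos v).le) (hpos a)
  have hpb := E.point (fun v => (hpos v).le) (hpos b)
  have hda : 1 / deg H a ≤ 4 / (3 * p * ((m + 2 : ℕ) : ℝ)) := by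
    rw [div_le_div_iff₀ (hpos a) (by positivity)]
    have := DG_lower hD a
    nlinarith
  have hdb : 1 / deg H b ≤ 4 / (3 * p * ((m + 2 : ℕ) : ℝ)) := by
    rw [div_le_div_iff₀ (hpos b) (by positivity)]
    have := DG_lower hD b
    nlinarith
  -- far coefficients
  have hfarc : ∀ j ∈ far, cc j ^ 2 * s ^ 2 ≤ B ^ 2 * (2 * E.f j a ^ 2 + 2 * E.f j b ^ 2) := by
    intro j hj
    have hj' : E.θ j < E.θ 0 - s := not_le.1 (Finset.mem_filter.1 hj).2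
    have h3 := sec j
    have hd : s / 2 ≤ θ' - E.θ j := by linarith
    have hd' : (s / 2) ^ 2 ≤ (E.θ j - θ') ^ 2 := by
      have := pow_le_pow_left₀ (by positivity) hd 2
      nlinarith
    calc cc j ^ 2 * s ^ 2 = 4 * (s / 2) ^ 2 * cc j ^ 2 := by ring
      _ ≤ 4 * (E.θ j - θ') ^ 2 * cc j ^ 2 := by
          refine mul_le_mul_of_nonneg_right ?_ (sq_nonneg _)
          linarith
      _ = (2 * ((E.θ j - θ') * cc j)) ^ 2 := by ring
      _ = (B * (E.f j a - E.f j b)) ^ 2 := by rw [h3]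
      _ = B ^ 2 * (E.f j a - E.f j b) ^ 2 := by ring
      _ ≤ B ^ 2 * (2 * E.f j a ^ 2 + 2 * E.f j b ^ 2) := by
          refine mul_le_mul_of_nonneg_left ?_ (sq_nonneg _)
          nlinarith [sq_nonneg (E.f j a + E.f j b)]
  have hfars : (∑ j ∈ far, cc j ^ 2) * s ^ 2 ≤ B ^ 2 * (16 / (3 * p * ((m + 2 : ℕ) : ℝ))) := by
    rw [Finset.sum_mul]
    refine (Finset.sum_le_sum hfarc).trans ?_
    rw [← Finset.mul_sum]
    refine mul_le_mul_of_nonneg_left ?_ (sq_nonneg _)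
    have h5 : ∑ j ∈ far, (2 * E.f j a ^ 2 + 2 * E.f j b ^ 2)
        ≤ ∑ j, (2 * E.f j a ^ 2 + 2 * E.f j b ^ 2) :=
      Finset.sum_le_sum_of_subset_of_nonneg (Finset.subset_univ _)
        (fun j _ _ => by positivity)
    have h5' : ∑ j, (2 * E.f j a ^ 2 + 2 * E.f j b ^ 2)
        = 2 * ∑ j, E.f j a ^ 2 + 2 * ∑ j, E.f j b ^ 2 := by
      rw [Finset.sum_add_distrib, ← Finset.mul_sum, ← Finset.mul_sum]
    have h6 : (16 : ℝ) / (3 * p * ((m + 2 : ℕ) : ℝ))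
        = 2 * (4 / (3 * p * ((m + 2 : ℕ) : ℝ))) + 2 * (4 / (3 * p * ((m + 2 : ℕ) : ℝ))) := by ring
    rw [h6]
    refine h5.trans ?_
    rw [h5']
    linarith
  -- expansion of w a
  have hexp : w a = ∑ j ∈ near, cc j * E.f j a + ∑ j ∈ far, cc j * E.f j a := by
    have h := E.expand w (perp2_le _ a b (E'.mem i0)) a
    rw [h, hnear, hfar, Finset.sum_filter_add_sum_filter_not]
    exact Finset.sum_congr rfl (fun j _ => by rw [hcc' j])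
  have hcs1 : (∑ j ∈ near, cc j * E.f j a) ^ 2 ≤ ε ^ 2 / (4 * ((m + 2 : ℕ) : ℝ)) := by
    calc (∑ j ∈ near, cc j * E.f j a) ^ 2
        ≤ (∑ j ∈ near, cc j ^ 2) * ∑ j ∈ near, E.f j a ^ 2 :=
          Finset.sum_mul_sq_le_sq_mul_sq _ _ _
      _ ≤ 1 * ∑ j ∈ near, E.f j a ^ 2 := by
          refine mul_le_mul_of_nonneg_right ?_ (Finset.sum_nonneg (fun _ _ => sq_nonneg _))
          exact (Finset.sum_le_sum_of_subset_of_nonneg (Finset.subset_univ _)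
            (fun _ _ _ => sq_nonneg _)).trans hbes
      _ ≤ _ := by rw [one_mul]; exact hnu
  have hcs2 : (∑ j ∈ far, cc j * E.f j a) ^ 2 * (s ^ 2 * α ^ 2)
      ≤ 4 * g ^ 2 * (16 / (3 * p * ((m + 2 : ℕ) : ℝ))) * (4 / (3 * p * ((m + 2 : ℕ) : ℝ))) := by
    have h7 : ∑ j ∈ far, E.f j a ^ 2 ≤ 4 / (3 * p * ((m + 2 : ℕ) : ℝ)) :=
      (Finset.sum_le_sum_of_subset_of_nonneg (Finset.subset_univ _)
        (fun _ _ _ => sq_nonneg _)).trans (hpa.trans hda)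
    calc (∑ j ∈ far, cc j * E.f j a) ^ 2 * (s ^ 2 * α ^ 2)
        ≤ ((∑ j ∈ far, cc j ^ 2) * ∑ j ∈ far, E.f j a ^ 2) * (s ^ 2 * α ^ 2) :=
          mul_le_mul_of_nonneg_right (Finset.sum_mul_sq_le_sq_mul_sq _ _ _) (by positivity)
      _ = ((∑ j ∈ far, cc j ^ 2) * s ^ 2) * α ^ 2 * ∑ j ∈ far, E.f j a ^ 2 := by ring
      _ ≤ (B ^ 2 * (16 / (3 * p * ((m + 2 : ℕ) : ℝ)))) * α ^ 2
            * (4 / (3 * p * ((m + 2 : ℕ) : ℝ))) := by
          refine mul_le_mul (mul_le_mul_of_nonneg_right hfars (by positivity)) h7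
            (Finset.sum_nonneg (fun _ _ => sq_nonneg _)) (by positivity)
      _ = (B ^ 2 * α ^ 2) * (16 / (3 * p * ((m + 2 : ℕ) : ℝ)))
            * (4 / (3 * p * ((m + 2 : ℕ) : ℝ))) := by ring
      _ ≤ _ := by
          refine mul_le_mul_of_nonneg_right (mul_le_mul_of_nonneg_right hB2 (by positivity))
            (by positivity)
  have hcs3 : (∑ j ∈ far, cc j * E.f j a) ^ 2 ≤ ε ^ 2 / (4 * ((m + 2 : ℕ) : ℝ)) := by
    have hsα : 0 < s ^ 2 * α ^ 2 := by positivity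
    refine le_of_mul_le_mul_right (hcs2.trans ?_) hsα
    have e : 4 * g ^ 2 * (16 / (3 * p * ((m + 2 : ℕ) : ℝ))) * (4 / (3 * p * ((m + 2 : ℕ) : ℝ)))
        = (1024 * g ^ 2) * (1 / (36 * p ^ 2 * ((m + 2 : ℕ) : ℝ) ^ 2)) := by
      field_simp
      ring
    rw [e]
    calc (1024 * g ^ 2) * (1 / (36 * p ^ 2 * ((m + 2 : ℕ) : ℝ) ^ 2))
        ≤ (9 * p ^ 2 * ε ^ 2 * ((m + 2 : ℕ) : ℝ) * α ^ 2 * s ^ 2)
          * (1 / (36 * p ^ 2 * ((m + 2 : ℕ) : ℝ) ^ 2)) :=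
          mul_le_mul_of_nonneg_right hcond (by positivity)
      _ = _ := by field_simp; ring
  have hsn : 1 ≤ ((m + 2 : ℕ) : ℝ) * sn w :=
    one_le_sn (fun v => deg_le H v) (by have := E'.orth i0 i0; simpa using this)
  have hfin : w a ^ 2 ≤ ε ^ 2 / ((m + 2 : ℕ) : ℝ) := by
    rw [hexp]
    have : (∑ j ∈ near, cc j * E.f j a + ∑ j ∈ far, cc j * E.f j a) ^ 2
        ≤ 2 * (∑ j ∈ near, cc j * E.f j a) ^ 2 + 2 * (∑ j ∈ far, cc j * E.f j a) ^ 2 := by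
      nlinarith [sq_nonneg (∑ j ∈ near, cc j * E.f j a - ∑ j ∈ far, cc j * E.f j a)]
    have e : ε ^ 2 / ((m + 2 : ℕ) : ℝ) = 2 * (ε ^ 2 / (4 * ((m + 2 : ℕ) : ℝ)))
        + 2 * (ε ^ 2 / (4 * ((m + 2 : ℕ) : ℝ))) := by ring
    rw [e]
    linarith
  refine hfin.trans ?_
  rw [div_le_iff₀ hn0]
  nlinarith [sq_nonneg ε]

/-- few exceptional vertices -/
lemma exc_card {m : ℕ} {p η : ℝ} (hp : 0 < p) (hη : 0 < η)
    {H : SimpleGraph (Fin (m + 2))} (hD : DG p (p / 4) H)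
    (E : ESys (adj H) (deg H) (perp (deg H)) (m + 1)) (J : Finset (Fin (m + 1))) :
    ((Finset.univ.filter (fun a : Fin (m + 2) => ¬ (∑ j ∈ J, E.f j a ^ 2 ≤ η))).card : ℝ)
      * (3 / 4 * p * ((m + 2 : ℕ) : ℝ) * η) ≤ J.card := by
  have hpos : ∀ v, 0 < deg H v := fun v =>
    lt_of_lt_of_le (by positivity) (DG_lower hD v)
  have h1 : ∑ a, deg H a * ∑ j ∈ J, E.f j a ^ 2 = J.card := by
    have : ∀ a, deg H a * ∑ j ∈ J, E.f j a ^ 2 = ∑ j ∈ J, deg H a * E.f j a * E.f j a := by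
      intro a
      rw [Finset.mul_sum]
      exact Finset.sum_congr rfl (fun j _ => by ring)
    rw [Finset.sum_congr rfl (fun a _ => this a), Finset.sum_comm]
    have : ∀ j ∈ J, ∑ a, deg H a * E.f j a * E.f j a = 1 := by
      intro j _
      have := E.orth j j
      simpa using this
    rw [Finset.sum_congr rfl this, Finset.sum_const, nsmul_eq_mul, mul_one]
  rw [← h1]
  set X := Finset.univ.filter (fun a : Fin (m + 2) => ¬ (∑ j ∈ J, E.f j a ^ 2 ≤ η)) with hX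
  calc (X.card : ℝ) * (3 / 4 * p * ((m + 2 : ℕ) : ℝ) * η)
      = ∑ a ∈ X, (3 / 4 * p * ((m + 2 : ℕ) : ℝ) * η) := by rw [Finset.sum_const, nsmul_eq_mul]
    _ ≤ ∑ a ∈ X, deg H a * ∑ j ∈ J, E.f j a ^ 2 := by
        refine Finset.sum_le_sum (fun a ha => ?_)
        have h2 := not_le.1 (Finset.mem_filter.1 ha).2
        exact mul_le_mul (DG_lower hD a) h2.le hη.le (hpos a).le
    _ ≤ ∑ a, deg H a * ∑ j ∈ J, E.f j a ^ 2 :=
        Finset.sum_le_sum_of_subset_of_nonneg (Finset.subset_univ _)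
          (fun a _ _ => mul_nonneg (hpos a).le (Finset.sum_nonneg (fun _ _ => sq_nonneg _)))

end Pool.Agent.W839.Ch
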