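import Pool.Agent.W839.Ch.Det

/-! # The macroscopic gaps, and the sum over all gaps -/

set_option autoImplicit false
open scoped Classical
open Finset Filter Topology

namespace Pool.Agent.W839.Ch

/-- the vectors of an eigen system are linearly independent -/
lemma ESys.linInd {n : ℕ} {A : Fin n → Fin n → ℝ} {d : Fin n → ℝ} {W : Submodule ℝ (Fin n → ℝ)}
    {m : ℕ} (E : ESys A d W m) : LinearIndependent ℝ E.f := by
  rw [Fintype.linearIndependent_iff]
  intro g hg i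
  have h : ∑ v, d v * (∑ j, g j * E.f j v) ^ 2 = 0 := by
    refine Finset.sum_eq_zero (fun v _ => ?_)
    have := congrFun hg v
    simp only [Finset.sum_apply, Pi.smul_apply, smul_eq_mul, Pi.zero_apply] at this
    rw [this]
    ring
  rw [E.norm_sum] at h
  have := (Finset.sum_eq_zero_iff_of_nonneg (fun i _ => sq_nonneg (g i))).1 h i
    (Finset.mem_univ i)
  exact pow_eq_zero_iff (two_ne_zero) |>.1 this

/-- macroscopic gaps -/
lemma macro_gap {m : ℕ} {p C0 κ c' δ0 : ℝ} (hp : 0 < p) (hκ : 0 < κ) (hC0 : 0 < C0)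
    (hδ0 : 0 ≤ δ0) (hδ : 2 * C0 ^ 2 * δ0 ^ 2 ≤ κ ^ 2 / 2)
    {H : SimpleGraph (Fin (m + 2))} (hD : DG p (p / 4) H) (hD0 : DG p δ0 H)
    (hNA : NA c' κ H)
    (E : ESys (adj H) (deg H) (perp (deg H)) (m + 1))
    (hθ : E.θ 0 ^ 2 * ((m + 2 : ℕ) : ℝ) ≤ C0 ^ 2) (j : Fin (m + 1))
    (hj : c' * ((m + 2 : ℕ) : ℝ) < (j : ℕ) + 1) :
    κ ^ 2 / 4 < (E.θ 0 - E.θ j) ^ 2 * ((m + 2 : ℕ) : ℝ) := by
  by_contra hcon
  rw [not_lt] at hcon
  have hn0 : (0 : ℝ) < ((m + 2 : ℕ) : ℝ) := by positivity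
  have hpos : ∀ v, 0 < deg H v := fun v =>
    lt_of_lt_of_le (by positivity) (DG_lower hD v)
  have hDs : 0 < ∑ v, deg H v := Finset.sum_pos (fun v _ => hpos v) ⟨0, Finset.mem_univ _⟩
  have hle : (j : ℕ) + 1 ≤ m + 1 := j.2
  set e : Fin ((j : ℕ) + 1) → Fin (m + 1) := Fin.castLE hle with he
  have hinj : Function.Injective e := Fin.castLE_injective hle
  have hli : LinearIndependent ℝ (fun i => E.f (e i)) := E.linInd.comp e hinj
  have hfr := finrank_span_eq_card hli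
  rw [Fintype.card_fin] at hfr
  have hn1 := hNA (E.θ 0 * p * ((m + 2 : ℕ) : ℝ))
    (Submodule.span ℝ (Set.range (fun i => E.f (e i)))) ?_
  · rw [hfr] at hn1
    push_cast at hn1 hj
    linarith
  · intro y hy
    obtain ⟨c, hc⟩ := (Submodule.mem_span_range_iff_exists_fun ℝ).1 hy
    set c' : Fin (m + 1) → ℝ := fun i => if h : (i : ℕ) < (j : ℕ) + 1 then c ⟨i, h⟩ else 0 with hc'
    have hy' : ∀ v, y v = ∑ i, c' i * E.f i v := by
      intro v
      rw [← hc]
      simp only [Finset.sum_apply, Pi.smul_apply, smul_eq_mul]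
      have e1 : ∑ i, c' i * E.f i v = ∑ i ∈ Finset.univ.map (Fin.castLEEmb hle), c' i * E.f i v := by
        symm
        refine Finset.sum_subset (Finset.subset_univ _) (fun i _ hi => ?_)
        have : ¬ ((i : ℕ) < (j : ℕ) + 1) := by
          intro h
          apply hi
          rw [Finset.mem_map]
          exact ⟨⟨i, h⟩, Finset.mem_univ _, by ext; rfl⟩
        simp only [hc', dif_neg this, zero_mul]
      rw [e1, Finset.sum_map]
      refine Finset.sum_congr rfl (fun i _ => ?_)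
      have : c' (Fin.castLEEmb hle i) = c i := by
        simp only [hc', Fin.castLEEmb_apply, Fin.val_castLE, i.2, dif_pos]
      rw [this]
      rfl
    have hc0 : ∀ i : Fin (m + 1), ¬ ((i : ℕ) ≤ j) → c' i = 0 := by
      intro i hi
      have : ¬ ((i : ℕ) < (j : ℕ) + 1) := by omega
      simp only [hc', dif_neg this]
    have hA : ∀ v, ∑ u, adj H v u * y u = deg H v * ∑ i, (E.θ i * c' i) * E.f i v := by
      intro v
      have e1 : ∀ u, adj H v u * y u = ∑ i, c' i * (adj H v u * E.f i u) := by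
        intro u
        rw [hy' u, Finset.mul_sum]
        exact Finset.sum_congr rfl (fun i _ => by ring)
      rw [Finset.sum_congr rfl (fun u _ => e1 u), Finset.sum_comm, Finset.mul_sum]
      refine Finset.sum_congr rfl (fun i _ => ?_)
      rw [← Finset.mul_sum, lagr1 hDs (E.mem i) (E.eig i) v]
      ring
    set z : Fin (m + 2) → ℝ := fun v => ∑ i, ((E.θ i - E.θ 0) * c' i) * E.f i v with hz
    have hAy : ∀ v, ∑ u, adj H v u * y u - E.θ 0 * p * ((m + 2 : ℕ) : ℝ) * y v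
        = deg H v * z v + E.θ 0 * (deg H v - p * ((m + 2 : ℕ) : ℝ)) * y v := by
      intro v
      have e1 : z v = ∑ i, (E.θ i * c' i) * E.f i v - E.θ 0 * y v := by
        rw [hy' v, Finset.mul_sum, ← Finset.sum_sub_distrib]
        exact Finset.sum_congr rfl (fun i _ => by ring)
      rw [hA v, e1]
      ring
    have hzn : ∑ v, deg H v * z v ^ 2 ≤ (E.θ 0 - E.θ j) ^ 2 * ∑ v, deg H v * y v ^ 2 := by
      have e1 : ∑ v, deg H v * z v ^ 2 = ∑ i, ((E.θ i - E.θ 0) * c' i) ^ 2 := E.norm_sum _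
      have e2 : ∑ v, deg H v * y v ^ 2 = ∑ i, c' i ^ 2 := by
        rw [← E.norm_sum]
        exact Finset.sum_congr rfl (fun v _ => by rw [hy' v])
      rw [e1, e2, Finset.mul_sum]
      refine Finset.sum_le_sum (fun i _ => ?_)
      by_cases hi : (i : ℕ) ≤ j
      · rw [mul_pow]
        refine mul_le_mul_of_nonneg_right ?_ (sq_nonneg _)
        have h1 : E.θ j ≤ E.θ i := E.anti hi
        have h2 : E.θ i ≤ E.θ 0 := E.anti (Fin.zero_le i)
        have := pow_le_pow_left₀ (by linarith : 0 ≤ E.θ 0 - E.θ i)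
          (by linarith : E.θ 0 - E.θ i ≤ E.θ 0 - E.θ j) 2
        nlinarith
      · rw [hc0 i hi]
        simp
    have hyn : ∑ v, deg H v * y v ^ 2 ≤ ((m + 2 : ℕ) : ℝ) * sn y := by
      rw [sn, Finset.mul_sum]
      exact Finset.sum_le_sum (fun v _ => mul_le_mul_of_nonneg_right (deg_le H v) (sq_nonneg _))
    have hz2 : ∑ v, (deg H v * z v) ^ 2 ≤ ((m + 2 : ℕ) : ℝ) * ∑ v, deg H v * z v ^ 2 := by
      rw [Finset.mul_sum]
      refine Finset.sum_le_sum (fun v _ => ?_)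
      have h1 := deg_le H v
      have h2 := hpos v
      have h3 : 0 ≤ deg H v * z v ^ 2 := by positivity
      calc (deg H v * z v) ^ 2 = deg H v * (deg H v * z v ^ 2) := by ring
        _ ≤ ((m + 2 : ℕ) : ℝ) * (deg H v * z v ^ 2) := mul_le_mul_of_nonneg_right h1 h3
    have hsn := sn_nonneg y
    have hfirst : ∑ v, (deg H v * z v) ^ 2 ≤ κ ^ 2 / 4 * ((m + 2 : ℕ) : ℝ) * sn y := by
      calc ∑ v, (deg H v * z v) ^ 2 ≤ ((m + 2 : ℕ) : ℝ) * ∑ v, deg H v * z v ^ 2 := hz2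
        _ ≤ ((m + 2 : ℕ) : ℝ) * ((E.θ 0 - E.θ j) ^ 2 * (((m + 2 : ℕ) : ℝ) * sn y)) := by
            refine mul_le_mul_of_nonneg_left (hzn.trans ?_) hn0.le
            exact mul_le_mul_of_nonneg_left hyn (sq_nonneg _)
        _ = ((E.θ 0 - E.θ j) ^ 2 * ((m + 2 : ℕ) : ℝ)) * (((m + 2 : ℕ) : ℝ) * sn y) := by ring
        _ ≤ κ ^ 2 / 4 * (((m + 2 : ℕ) : ℝ) * sn y) :=
            mul_le_mul_of_nonneg_right hcon (by positivity)
        _ = _ := by ring
    have hsecond : ∑ v, (E.θ 0 * (deg H v - p * ((m + 2 : ℕ) : ℝ)) * y v) ^ 2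
        ≤ C0 ^ 2 * δ0 ^ 2 * ((m + 2 : ℕ) : ℝ) * sn y := by
      have e1 : C0 ^ 2 * δ0 ^ 2 * ((m + 2 : ℕ) : ℝ) * sn y
          = ∑ v, C0 ^ 2 * δ0 ^ 2 * ((m + 2 : ℕ) : ℝ) * y v ^ 2 := by
        rw [sn, Finset.mul_sum]
      rw [e1]
      refine Finset.sum_le_sum (fun v _ => ?_)
      have h1 : (deg H v - p * ((m + 2 : ℕ) : ℝ)) ^ 2 ≤ (δ0 * ((m + 2 : ℕ) : ℝ)) ^ 2 := by
        rw [← sq_abs]
        exact pow_le_pow_left₀ (abs_nonneg _) (hD0 v) 2
      calc (E.θ 0 * (deg H v - p * ((m + 2 : ℕ) : ℝ)) * y v) ^ 2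
          = E.θ 0 ^ 2 * (deg H v - p * ((m + 2 : ℕ) : ℝ)) ^ 2 * y v ^ 2 := by ring
        _ ≤ E.θ 0 ^ 2 * (δ0 * ((m + 2 : ℕ) : ℝ)) ^ 2 * y v ^ 2 := by
            refine mul_le_mul_of_nonneg_right ?_ (sq_nonneg _)
            exact mul_le_mul_of_nonneg_left h1 (sq_nonneg _)
        _ = (E.θ 0 ^ 2 * ((m + 2 : ℕ) : ℝ)) * (δ0 ^ 2 * ((m + 2 : ℕ) : ℝ) * y v ^ 2) := by ring
        _ ≤ C0 ^ 2 * (δ0 ^ 2 * ((m + 2 : ℕ) : ℝ) * y v ^ 2) :=
            mul_le_mul_of_nonneg_right hθ (by positivity)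
        _ = _ := by ring
    calc ∑ v, (∑ u, adj H v u * y u - E.θ 0 * p * ((m + 2 : ℕ) : ℝ) * y v) ^ 2
        ≤ ∑ v, (2 * (deg H v * z v) ^ 2
            + 2 * (E.θ 0 * (deg H v - p * ((m + 2 : ℕ) : ℝ)) * y v) ^ 2) := by
          refine Finset.sum_le_sum (fun v _ => ?_)
          rw [hAy v]
          nlinarith [sq_nonneg (deg H v * z v - E.θ 0 * (deg H v - p * ((m + 2 : ℕ) : ℝ)) * y v)]
      _ = 2 * ∑ v, (deg H v * z v) ^ 2
            + 2 * ∑ v, (E.θ 0 * (deg H v - p * ((m + 2 : ℕ) : ℝ)) * y v) ^ 2 := by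
          rw [Finset.sum_add_distrib, ← Finset.mul_sum, ← Finset.mul_sum]
      _ ≤ 2 * (κ ^ 2 / 4 * ((m + 2 : ℕ) : ℝ) * sn y)
            + 2 * (C0 ^ 2 * δ0 ^ 2 * ((m + 2 : ℕ) : ℝ) * sn y) := by linarith
      _ = (κ ^ 2 / 2 + 2 * C0 ^ 2 * δ0 ^ 2) * (((m + 2 : ℕ) : ℝ) * sn y) := by ring
      _ ≤ κ ^ 2 * (((m + 2 : ℕ) : ℝ) * sn y) := by
          refine mul_le_mul_of_nonneg_right (by linarith) (by positivity)
      _ = _ := by ring

/-- `∑ 1/√j ≤ 2 √N` -/
lemma inv_sqrt_sum (N : ℕ) : ∑ j ∈ Finset.range N, 1 / Real.sqrt ((j : ℝ) + 1)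
    ≤ 2 * Real.sqrt N := by
  induction N with
  | zero => simp
  | succ N ih =>
    rw [Finset.sum_range_succ]
    have h1 : (0 : ℝ) ≤ N := Nat.cast_nonneg N
    have hs1 : 0 < Real.sqrt ((N : ℝ) + 1) := Real.sqrt_pos.2 (by positivity)
    have hs0 : 0 ≤ Real.sqrt (N : ℝ) := Real.sqrt_nonneg _
    have e1 : Real.sqrt ((N : ℝ) + 1) ^ 2 = N + 1 := Real.sq_sqrt (by positivity)
    have e0 : Real.sqrt (N : ℝ) ^ 2 = N := Real.sq_sqrt h1
    have h2 : 1 / Real.sqrt ((N : ℝ) + 1) ≤ 2 * Real.sqrt ((N : ℝ) + 1) - 2 * Real.sqrt N := by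
      rw [div_le_iff₀ hs1]
      nlinarith [sq_nonneg (Real.sqrt ((N : ℝ) + 1) - Real.sqrt N)]
    push_cast
    linarith

/-- the sum over all gaps -/
lemma sum_bound {m M : ℕ} (hM : 1 ≤ M) {g A B Y : ℝ} (hg : 0 < g) (hA : 0 < A) (hB : 0 < B)
    (hY : 0 ≤ Y) (x : Fin (m + 1) → ℝ) (hx : ∀ j, 0 ≤ x j)
    (h1 : ∀ j, j ≠ 0 → g ≤ x j) (h2 : ∀ j : Fin (m + 1), M ≤ (j : ℕ) → A * (j : ℕ) ≤ x j ^ 2)
    (h3 : ∀ j : Fin (m + 1), Y < (j : ℕ) + 1 → B ≤ x j ^ 2) :
    ∑ j ∈ Finset.univ.erase 0, 1 / x j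
      ≤ M / g + 1 / Real.sqrt A * (2 * Real.sqrt Y) + (m + 1 : ℕ) / Real.sqrt B := by
  have hsA : 0 < Real.sqrt A := Real.sqrt_pos.2 hA
  have hsB : 0 < Real.sqrt B := Real.sqrt_pos.2 hB
  set F : ℕ → ℝ := fun j => if (j : ℝ) ≤ Y then 1 / Real.sqrt A * (1 / Real.sqrt (j : ℝ)) else 0
    with hF
  have hF0 : ∀ j, 0 ≤ F j := by
    intro j
    simp only [hF]
    split_ifs <;> positivity
  have hpt : ∀ j : Fin (m + 1), j ∈ Finset.univ.erase (0 : Fin (m + 1)) →
      1 / x j ≤ (if (j : ℕ) < M then 1 / g else 0) + F j + 1 / Real.sqrt B := by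
    intro j hj
    have hj0 : j ≠ 0 := (Finset.mem_erase.1 hj).1
    have hB' : 0 ≤ 1 / Real.sqrt B := by positivity
    by_cases hjM : (j : ℕ) < M
    · rw [if_pos hjM]
      have : 1 / x j ≤ 1 / g := one_div_le_one_div_of_le hg (h1 j hj0)
      linarith [hF0 j]
    · rw [if_neg hjM, zero_add]
      rw [not_lt] at hjM
      by_cases hjY : Y < (j : ℕ) + 1
      · have h4 : Real.sqrt B ≤ x j := by
          rw [← Real.sqrt_sq (hx j)]
          exact Real.sqrt_le_sqrt (h3 j hjY)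
        have : 1 / x j ≤ 1 / Real.sqrt B := one_div_le_one_div_of_le hsB h4
        linarith [hF0 j]
      · rw [not_lt] at hjY
        have hjY' : ((j : ℕ) : ℝ) ≤ Y := by linarith
        have hj1 : (0 : ℝ) < (j : ℕ) := by
          have : 1 ≤ (j : ℕ) := hM.trans hjM
          exact_mod_cast this
        have h4 : Real.sqrt A * Real.sqrt (j : ℕ) ≤ x j := by
          rw [← Real.sqrt_mul hA.le, ← Real.sqrt_sq (hx j)]
          exact Real.sqrt_le_sqrt (h2 j hjM)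
        have hsj : 0 < Real.sqrt (j : ℕ) := Real.sqrt_pos.2 hj1
        have : 1 / x j ≤ 1 / (Real.sqrt A * Real.sqrt (j : ℕ)) :=
          one_div_le_one_div_of_le (by positivity) h4
        simp only [hF, if_pos hjY']
        have e : 1 / (Real.sqrt A * Real.sqrt (j : ℕ))
            = 1 / Real.sqrt A * (1 / Real.sqrt ((j : ℕ) : ℝ)) := by
          field_simp
        rw [e] at this
        linarith
  refine (Finset.sum_le_sum hpt).trans ?_
  rw [Finset.sum_add_distrib, Finset.sum_add_distrib]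
  have s1 : ∑ j ∈ Finset.univ.erase (0 : Fin (m + 1)), (if (j : ℕ) < M then 1 / g else 0)
      ≤ M / g := by
    rw [← Finset.sum_filter, Finset.sum_const, nsmul_eq_mul]
    have hc : ((Finset.univ.erase (0 : Fin (m + 1))).filter (fun j : Fin (m + 1) => (j : ℕ) < M)).card ≤ M := by
      calc ((Finset.univ.erase (0 : Fin (m + 1))).filter (fun j : Fin (m + 1) => (j : ℕ) < M)).card
          = (((Finset.univ.erase (0 : Fin (m + 1))).filter (fun j : Fin (m + 1) => (j : ℕ) < M)).map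
              Fin.valEmbedding).card := by rw [Finset.card_map]
        _ ≤ (Finset.range M).card := by
            refine Finset.card_le_card (fun i hi => ?_)
            rw [Finset.mem_map] at hi
            obtain ⟨j, hj, rfl⟩ := hi
            rw [Finset.mem_range]
            exact (Finset.mem_filter.1 hj).2
        _ = M := Finset.card_range M
    rw [div_eq_mul_one_div (M : ℝ) g]
    exact mul_le_mul_of_nonneg_right (by exact_mod_cast hc) (by positivity)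
  have s2 : ∑ j ∈ Finset.univ.erase (0 : Fin (m + 1)), F j
      ≤ 1 / Real.sqrt A * (2 * Real.sqrt Y) := by
    calc ∑ j ∈ Finset.univ.erase (0 : Fin (m + 1)), F j
        ≤ ∑ j : Fin (m + 1), F j := Finset.sum_le_sum_of_subset_of_nonneg (Finset.erase_subset _ _)
          (fun j _ _ => hF0 j)
      _ = ∑ j ∈ Finset.range (m + 1), F j := Fin.sum_univ_eq_sum_range F (m + 1)
      _ = ∑ j ∈ (Finset.range (m + 1)).filter (fun j : ℕ => (j : ℝ) ≤ Y),
            1 / Real.sqrt A * (1 / Real.sqrt (j : ℝ)) := by rw [Finset.sum_filter]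
      _ ≤ ∑ j ∈ Finset.range (⌊Y⌋₊ + 1), 1 / Real.sqrt A * (1 / Real.sqrt (j : ℝ)) := by
          refine Finset.sum_le_sum_of_subset_of_nonneg (fun j hj => ?_) (fun j _ _ => by positivity)
          rw [Finset.mem_range]
          have := Nat.le_floor (Finset.mem_filter.1 hj).2
          omega
      _ = 1 / Real.sqrt A * ∑ j ∈ Finset.range ⌊Y⌋₊, 1 / Real.sqrt ((j : ℝ) + 1) := by
          rw [← Finset.mul_sum, Finset.sum_range_succ']
          simp
      _ ≤ 1 / Real.sqrt A * (2 * Real.sqrt (⌊Y⌋₊ : ℕ)) :=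
          mul_le_mul_of_nonneg_left (inv_sqrt_sum _) (by positivity)
      _ ≤ _ := by
          refine mul_le_mul_of_nonneg_left ?_ (by positivity)
          have := Real.sqrt_le_sqrt (Nat.floor_le hY)
          linarith
  have s3 : ∑ _j ∈ Finset.univ.erase (0 : Fin (m + 1)), 1 / Real.sqrt B
      ≤ (m + 1 : ℕ) / Real.sqrt B := by
    rw [Finset.sum_const, nsmul_eq_mul, div_eq_mul_one_div ((m + 1 : ℕ) : ℝ) (Real.sqrt B)]
    refine mul_le_mul_of_nonneg_right ?_ (by positivity)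
    have : (Finset.univ.erase (0 : Fin (m + 1))).card ≤ m + 1 := by
      calc (Finset.univ.erase (0 : Fin (m + 1))).card ≤ (Finset.univ : Finset (Fin (m + 1))).card :=
            Finset.card_le_card (Finset.erase_subset _ _)
        _ = m + 1 := by simp
    exact_mod_cast this
  linarith

end Pool.Agent.W839.Ch
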