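import Pool.Agent.W839.Ch.Fin1

/-! # The bad events -/

set_option autoImplicit false
open scoped Classical
open Finset Filter Topology

namespace Pool.Agent.W839.Ch

/-- few pairs violate `G3` -/
def Gcnt {n : ℕ} (C0 c ε c5 : ℝ) (H : SimpleGraph (Fin n)) : Prop :=
  (((Finset.univ.filter (fun q : Fin n × Fin n => q.1 ≠ q.2 ∧ ¬ G3 C0 c ε q.1 q.2 H)).card : ℝ)
    ≤ c5 / 4 * (n : ℝ) ^ 2)

/-- typical graphs -/
def Good1 {n : ℕ} (p C c1 ε1 C0 c ε c5 : ℝ) (H : SimpleGraph (Fin n)) : Prop :=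
  OpN p C H ∧ DG p (p / 4) H ∧ SP c1 ε1 H ∧ Gcnt C0 c ε c5 H

/-- a small `k`-th gap -/
def BadK (m k : ℕ) (s : ℝ) (H : SimpleGraph (Fin (m + 2))) : Prop :=
  ∃ (E : ESys (adj H) (deg H) (perp (deg H)) (m + 1)) (hk : k < m + 1),
    E.θ 0 - s ≤ E.θ ⟨k, hk⟩

/-- the consequence of `S_INC` for fixed constants -/
def INCp (n : ℕ) (p C c1 ε1 c5 : ℝ) : Prop :=
  ∀ G : SimpleGraph (Fin n), OpN p C G → DG p (p / 4) G → SP c1 ε1 G →
    ∀ (θ : ℝ) (f : Fin n → ℝ), f ∈ perp (deg G) → f ≠ 0 →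
      (∀ v, ∑ u, adj G v u * f u = θ * deg G v * f v) →
      c5 * n ≤ ((Finset.univ.filter (fun v : Fin n => c5 ^ 2 * sn f ≤ n * f v ^ 2)).card : ℝ) ∧
      c5 * n ^ 2 ≤ ((Finset.univ.filter (fun q : Fin n × Fin n =>
        c5 ^ 2 * sn f ≤ n * (f q.1 - f q.2) ^ 2)).card : ℝ)

lemma G3_mono {n : ℕ} {C0 c ε ε' : ℝ} (h0 : 0 ≤ ε) (h : ε ≤ ε') {a b : Fin n}
    {H : SimpleGraph (Fin n)} (hG : G3 C0 c ε' a b H) : G3 C0 c ε a b H := by
  intro θ w hw hθ hab hr hs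
  refine hG θ w hw hθ hab hr (hs.trans ?_)
  exact mul_le_mul_of_nonneg_right (pow_le_pow_left₀ h0 h 2) (sn_nonneg w)

lemma OpN_mono {n : ℕ} {p C C' : ℝ} (h0 : 0 ≤ C) (h : C ≤ C') {H : SimpleGraph (Fin n)}
    (hO : OpN p C H) : OpN p C' H := by
  intro x y
  refine (hO x y).trans ?_
  have h1 : C ^ 2 ≤ C' ^ 2 := pow_le_pow_left₀ h0 h 2
  have h2 := sn_nonneg x
  have h3 := sn_nonneg y
  have h4 : 0 ≤ (n : ℝ) * sn x * sn y := by positivity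
  nlinarith

/-- the pairs -/
lemma pairs_count {m : ℕ} {p C c1 ε1 C0 c ε c5 : ℝ} (hp : 0 < p) (hc5 : 0 < c5)
    (hI : INCp (m + 2) p C c1 ε1 c5) {H : SimpleGraph (Fin (m + 2))}
    (hG : Good1 p C c1 ε1 C0 c ε c5 H) (E : ESys (adj H) (deg H) (perp (deg H)) (m + 1)) :
    3 / 4 * c5 * ((m + 2 : ℕ) : ℝ) ^ 2 ≤
      ((Finset.univ.filter (fun q : Fin (m + 2) × Fin (m + 2) => q.1 ≠ q.2 ∧
        G3 C0 c ε q.1 q.2 H ∧
        (c5 / ((m + 2 : ℕ) : ℝ)) ^ 2 ≤ (E.f 0 q.1 - E.f 0 q.2) ^ 2)).card : ℝ) := by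
  obtain ⟨hO, hD, hS, hC⟩ := hG
  have hn0 : (0 : ℝ) < ((m + 2 : ℕ) : ℝ) := by positivity
  have hpos : ∀ v, 0 < deg H v := fun v =>
    lt_of_lt_of_le (by positivity) (DG_lower hD v)
  have hDs : 0 < ∑ v, deg H v := Finset.sum_pos (fun v _ => hpos v) ⟨0, Finset.mem_univ _⟩
  have hf0 : E.f 0 ≠ 0 := by
    intro h0
    have := E.orth 0 0
    rw [h0] at this
    simp at this
  have hsn : 1 ≤ ((m + 2 : ℕ) : ℝ) * sn (E.f 0) :=
    one_le_sn (fun v => deg_le H v) (by have := E.orth 0 0; simpa using this)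
  obtain ⟨_, h2⟩ := hI H hO hD hS (E.θ 0) (E.f 0) (E.mem 0) hf0
    (fun v => lagr1 hDs (E.mem 0) (E.eig 0) v)
  unfold Gcnt at hC
  set X := Finset.univ.filter (fun q : Fin (m + 2) × Fin (m + 2) =>
        c5 ^ 2 * sn (E.f 0) ≤ ((m + 2 : ℕ) : ℝ) * (E.f 0 q.1 - E.f 0 q.2) ^ 2) with hX
  set Y := Finset.univ.filter (fun q : Fin (m + 2) × Fin (m + 2) =>
    q.1 ≠ q.2 ∧ ¬ G3 C0 c ε q.1 q.2 H) with hY
  set Z := Finset.univ.filter (fun q : Fin (m + 2) × Fin (m + 2) => q.1 ≠ q.2 ∧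
        G3 C0 c ε q.1 q.2 H ∧
        (c5 / ((m + 2 : ℕ) : ℝ)) ^ 2 ≤ (E.f 0 q.1 - E.f 0 q.2) ^ 2) with hZ
  have hsub : X ⊆ Y ∪ Z := by
    intro q hq
    rw [hX, Finset.mem_filter] at hq
    have hq2 := hq.2
    have hal : (c5 / ((m + 2 : ℕ) : ℝ)) ^ 2 ≤ (E.f 0 q.1 - E.f 0 q.2) ^ 2 := by
      rw [div_pow, div_le_iff₀ (by positivity)]
      have h3 : c5 ^ 2 * 1 ≤ c5 ^ 2 * (((m + 2 : ℕ) : ℝ) * sn (E.f 0)) :=
        mul_le_mul_of_nonneg_left hsn (sq_nonneg _)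
      have h4 := mul_le_mul_of_nonneg_left hq2 hn0.le
      nlinarith
    have hne : q.1 ≠ q.2 := by
      intro he
      rw [he, sub_self] at hal
      have : 0 < (c5 / ((m + 2 : ℕ) : ℝ)) ^ 2 := by positivity
      rw [zero_pow two_ne_zero] at hal
      linarith
    rw [Finset.mem_union, hY, hZ, Finset.mem_filter, Finset.mem_filter]
    by_cases h3 : G3 C0 c ε q.1 q.2 H
    · exact Or.inr ⟨Finset.mem_univ _, hne, h3, hal⟩
    · exact Or.inl ⟨Finset.mem_univ _, hne, h3⟩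
  have hcard : (X.card : ℝ) ≤ Y.card + Z.card := by
    exact_mod_cast (Finset.card_le_card hsub).trans (Finset.card_union_le Y Z)
  linarith

/-- the probability of a small `k`-th gap -/
theorem PrBadK (hB : S_BIT) (hSW : S_SWP) (hES : S_ES) (hINT : S_INT) (hFR : S_FR)
    (hCHA : S_CHA2) {m : ℕ} (hm : 1 ≤ m)
    {p C c1 ε1 C0 c ε c5 s : ℝ} {k : ℕ} (hp : 0 < p) (hp1 : p < 1) (hc : 0 < c) (hε : 0 < ε)
    (hc5 : 0 < c5)
    (hce : C0 ^ 2 * ε ^ 2 ≤ c ^ 2 / 4) (hk1 : 1 ≤ k) (hk0 : 4 / (3 * p * ε ^ 2) ≤ k)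
    (hs : s ^ 2 * ((m + 2 : ℕ) : ℝ) ≤ c ^ 3 / 64 * k * (c5 / ((m + 2 : ℕ) : ℝ)) ^ 2)
    (hTH : THp (m + 2) p C C0) (hI : INCp (m + 2) p C c1 ε1 c5) :
    Pr (m + 2) p (fun H => Good1 p C c1 ε1 C0 c ε c5 H ∧ BadK m k s H)
      ≤ 4 / (3 * c5) * (64 * ((8 + 4 * C0 ^ 2) / (3 * p)) / (c ^ 3 * k)) := by
  have hn0 : (0 : ℝ) < ((m + 2 : ℕ) : ℝ) := by positivity
  have hk' : (0 : ℝ) < k := by exact_mod_cast hk1
  set K1 := 64 * ((8 + 4 * C0 ^ 2) / (3 * p)) / (c ^ 3 * k) with hK1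
  have hK1p : 0 ≤ K1 := by positivity
  set Q := Finset.univ.filter (fun q : Fin (m + 2) × Fin (m + 2) => q.1 ≠ q.2) with hQ
  have hcount := Pr_count (n := m + 2) (p := p) hp.le hp1.le Q
    (3 / 4 * c5 * ((m + 2 : ℕ) : ℝ) ^ 2)
    (fun H => Good1 p C c1 ε1 C0 c ε c5 H ∧ BadK m k s H)
    (fun q => EvK m p C C0 c ε s (c5 / ((m + 2 : ℕ) : ℝ)) k q.1 q.2) ?_
  · have hsum : ∑ q ∈ Q, Pr (m + 2) p (EvK m p C C0 c ε s (c5 / ((m + 2 : ℕ) : ℝ)) k q.1 q.2)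
        ≤ ((m + 2 : ℕ) : ℝ) ^ 2 * K1 := by
      have h1 : ∀ q ∈ Q, Pr (m + 2) p (EvK m p C C0 c ε s (c5 / ((m + 2 : ℕ) : ℝ)) k q.1 q.2)
          ≤ K1 := by
        intro q hq
        exact PrK hB hSW hES hINT hFR hCHA hm hp hp1 hc hε hce hk1 hk0 (by positivity) hs hTH
          (Finset.mem_filter.1 hq).2
      refine (Finset.sum_le_sum h1).trans ?_
      rw [Finset.sum_const, nsmul_eq_mul]
      refine mul_le_mul_of_nonneg_right ?_ hK1p
      have : Q.card ≤ (m + 2) ^ 2 := by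
        calc Q.card ≤ (Finset.univ : Finset (Fin (m + 2) × Fin (m + 2))).card :=
              Finset.card_le_card (Finset.filter_subset _ _)
          _ = (m + 2) ^ 2 := by simp [sq]
      exact_mod_cast this
    have h2 := hcount.trans hsum
    have h3 : Pr (m + 2) p (fun H => Good1 p C c1 ε1 C0 c ε c5 H ∧ BadK m k s H)
        * (3 / 4 * c5) ≤ K1 := by
      refine le_of_mul_le_mul_left ?_ (by positivity : 0 < ((m + 2 : ℕ) : ℝ) ^ 2)
      calc ((m + 2 : ℕ) : ℝ) ^ 2 * (Pr (m + 2) p (fun H => Good1 p C c1 ε1 C0 c ε c5 H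
              ∧ BadK m k s H) * (3 / 4 * c5))
          = 3 / 4 * c5 * ((m + 2 : ℕ) : ℝ) ^ 2 * Pr (m + 2) p (fun H =>
              Good1 p C c1 ε1 C0 c ε c5 H ∧ BadK m k s H) := by ring
        _ ≤ _ := h2
    have e : 4 / (3 * c5) * K1 = K1 / (3 / 4 * c5) := by
      field_simp
    rw [e, le_div_iff₀ (by positivity)]
    exact h3
  · rintro H ⟨hG, E, hk, hgap⟩
    refine (pairs_count hp hc5 hI hG E).trans ?_
    have hsub : (Finset.univ.filter (fun q : Fin (m + 2) × Fin (m + 2) => q.1 ≠ q.2 ∧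
        G3 C0 c ε q.1 q.2 H ∧
        (c5 / ((m + 2 : ℕ) : ℝ)) ^ 2 ≤ (E.f 0 q.1 - E.f 0 q.2) ^ 2)) ⊆
        Q.filter (fun q => EvK m p C C0 c ε s (c5 / ((m + 2 : ℕ) : ℝ)) k q.1 q.2 H) := by
      intro q hq
      rw [Finset.mem_filter] at hq
      obtain ⟨_, hne, h3, hal⟩ := hq
      rw [Finset.mem_filter, hQ, Finset.mem_filter]
      exact ⟨⟨Finset.mem_univ _, hne⟩, hG.1, hG.2.1, h3, E, hk, hgap, hal⟩
    exact_mod_cast Finset.card_le_card hsub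

/-- the probability of a small first gap -/
theorem PrBadG (hB : S_BIT) (hSW : S_SWP) (hES : S_ES) (hINT : S_INT) (hFR : S_FR)
    {K : ℝ} (hK : 0 < K)
    (hLO : ∀ (V : Type) [Fintype V] (b : V → ℝ) (h : ℝ) (N : ℕ),
      0 < h → 0 < N → N ≤ (Finset.univ.filter (fun v => h ≤ |b v|)).card →
      ∀ R x : ℝ, 0 ≤ R →
        ((Finset.univ.filter (fun τ : V → Bool =>
          |∑ v, (if τ v then b v else - b v) - x| ≤ R)).card : ℝ)
          ≤ K * (R / h + 1) / Real.sqrt N * 2 ^ Fintype.card V)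
    {m : ℕ} (hm : 1 ≤ m)
    {p C c1 ε1 C0 c ε c5 g s : ℝ} {k : ℕ} (hp : 0 < p) (hp1 : p < 1) (hc : 0 < c) (hε : 0 < ε)
    (hc5 : 0 < c5)
    (hce : C0 ^ 2 * ε ^ 2 ≤ c ^ 2 / 4) (hg : 0 < g) (hs : 0 < s) (hgs : g ≤ s / 2)
    (hkm : k < m + 1)
    (hcond : 1024 * g ^ 2 ≤ 9 * p ^ 2 * ε ^ 2 * ((m + 2 : ℕ) : ℝ)
      * (c5 / ((m + 2 : ℕ) : ℝ)) ^ 2 * s ^ 2)
    (hkn : 64 * (k : ℝ) ≤ 3 * p * ε ^ 2 * c5 * ((m + 2 : ℕ) : ℝ))
    (hTH : THp (m + 2) p C C0) (hI : INCp (m + 2) p C c1 ε1 c5) :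
    Pr (m + 2) p (fun H => Good1 p C c1 ε1 C0 c ε c5 H ∧ BadK m 1 g H ∧ ¬ BadK m k s H)
      ≤ 2 / c5 * (K * (4 * g * ((m + 2 : ℕ) : ℝ) / ((c5 / ((m + 2 : ℕ) : ℝ)) * c) + 1)
        / Real.sqrt (c * ((m + 2 : ℕ) : ℝ))) := by
  have hn0 : (0 : ℝ) < ((m + 2 : ℕ) : ℝ) := by positivity
  set K1 := K * (4 * g * ((m + 2 : ℕ) : ℝ) / ((c5 / ((m + 2 : ℕ) : ℝ)) * c) + 1)
        / Real.sqrt (c * ((m + 2 : ℕ) : ℝ)) with hK1
  have hK1p : 0 ≤ K1 := by positivity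
  set Q := Finset.univ.filter (fun q : Fin (m + 2) × Fin (m + 2) => q.1 ≠ q.2) with hQ
  have hcount := Pr_count (n := m + 2) (p := p) hp.le hp1.le Q
    (1 / 2 * c5 * ((m + 2 : ℕ) : ℝ) ^ 2)
    (fun H => Good1 p C c1 ε1 C0 c ε c5 H ∧ BadK m 1 g H ∧ ¬ BadK m k s H)
    (fun q => EvG m p C C0 c ε g (c5 / ((m + 2 : ℕ) : ℝ)) q.1 q.2) ?_
  · have hsum : ∑ q ∈ Q, Pr (m + 2) p (EvG m p C C0 c ε g (c5 / ((m + 2 : ℕ) : ℝ)) q.1 q.2)
        ≤ ((m + 2 : ℕ) : ℝ) ^ 2 * K1 := by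
      have h1 : ∀ q ∈ Q, Pr (m + 2) p (EvG m p C C0 c ε g (c5 / ((m + 2 : ℕ) : ℝ)) q.1 q.2)
          ≤ K1 := by
        intro q hq
        exact PrG hB hSW hES hINT hFR hK hLO hm hp hp1 hc hce hg.le (by positivity) hTH
          (Finset.mem_filter.1 hq).2
      refine (Finset.sum_le_sum h1).trans ?_
      rw [Finset.sum_const, nsmul_eq_mul]
      refine mul_le_mul_of_nonneg_right ?_ hK1p
      have : Q.card ≤ (m + 2) ^ 2 := by
        calc Q.card ≤ (Finset.univ : Finset (Fin (m + 2) × Fin (m + 2))).card :=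
              Finset.card_le_card (Finset.filter_subset _ _)
          _ = (m + 2) ^ 2 := by simp [sq]
      exact_mod_cast this
    have h2 := hcount.trans hsum
    have h3 : Pr (m + 2) p (fun H => Good1 p C c1 ε1 C0 c ε c5 H ∧ BadK m 1 g H
        ∧ ¬ BadK m k s H) * (1 / 2 * c5) ≤ K1 := by
      refine le_of_mul_le_mul_left ?_ (by positivity : 0 < ((m + 2 : ℕ) : ℝ) ^ 2)
      calc ((m + 2 : ℕ) : ℝ) ^ 2 * (Pr (m + 2) p (fun H => Good1 p C c1 ε1 C0 c ε c5 H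
              ∧ BadK m 1 g H ∧ ¬ BadK m k s H) * (1 / 2 * c5))
          = 1 / 2 * c5 * ((m + 2 : ℕ) : ℝ) ^ 2 * Pr (m + 2) p (fun H =>
              Good1 p C c1 ε1 C0 c ε c5 H ∧ BadK m 1 g H ∧ ¬ BadK m k s H) := by ring
        _ ≤ _ := h2
    have e : 2 / c5 * K1 = K1 / (1 / 2 * c5) := by
      field_simp
    rw [e, le_div_iff₀ (by positivity)]
    exact h3
  · rintro H ⟨hG, ⟨E, h1m, hgap⟩, hnb⟩
    have hD := hG.2.1
    set near := Finset.univ.filter (fun j : Fin (m + 1) => E.θ 0 - s ≤ E.θ j) with hnear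
    have hnearc : near.card ≤ k := by
      have hlt : E.θ ⟨k, hkm⟩ < E.θ 0 - s := by
        by_contra hcon
        exact hnb ⟨E, hkm, not_lt.1 hcon⟩
      calc near.card = (near.map Fin.valEmbedding).card := by rw [Finset.card_map]
        _ ≤ (Finset.range k).card := by
            refine Finset.card_le_card (fun i hi => ?_)
            rw [Finset.mem_map] at hi
            obtain ⟨j, hj, rfl⟩ := hi
            rw [Finset.mem_range]
            by_contra hcon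
            rw [not_lt] at hcon
            have hcon' : (⟨k, hkm⟩ : Fin (m + 1)) ≤ j := hcon
            have h2 := E.anti hcon'
            have h3 := (Finset.mem_filter.1 hj).2
            linarith
        _ = k := Finset.card_range k
    set η := ε ^ 2 / (4 * ((m + 2 : ℕ) : ℝ)) with hη
    have hηp : 0 < η := by positivity
    set X := Finset.univ.filter (fun a : Fin (m + 2) => ¬ (∑ j ∈ near, E.f j a ^ 2 ≤ η)) with hX
    have hexc : (X.card : ℝ) * (3 / 4 * p * ((m + 2 : ℕ) : ℝ) * η) ≤ near.card :=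
      exc_card hp hηp hD E near
    have hXc : (X.card : ℝ) ≤ c5 / 4 * ((m + 2 : ℕ) : ℝ) := by
      have e1 : 3 / 4 * p * ((m + 2 : ℕ) : ℝ) * η = 3 * p * ε ^ 2 / 16 := by
        rw [hη]
        field_simp
        ring
      rw [e1] at hexc
      have h2 : (near.card : ℝ) ≤ k := by exact_mod_cast hnearc
      have h3 : (X.card : ℝ) * (3 * p * ε ^ 2) ≤ c5 / 4 * ((m + 2 : ℕ) : ℝ) * (3 * p * ε ^ 2) := by
        nlinarith
      exact le_of_mul_le_mul_right h3 (by positivity)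
    have hpc := pairs_count hp hc5 hI hG E
    set Z := Finset.univ.filter (fun q : Fin (m + 2) × Fin (m + 2) => q.1 ≠ q.2 ∧
        G3 C0 c ε q.1 q.2 H ∧
        (c5 / ((m + 2 : ℕ) : ℝ)) ^ 2 ≤ (E.f 0 q.1 - E.f 0 q.2) ^ 2) with hZ
    set R := Q.filter (fun q => EvG m p C C0 c ε g (c5 / ((m + 2 : ℕ) : ℝ)) q.1 q.2 H) with hR
    have hsub : Z ⊆ (X ×ˢ (Finset.univ : Finset (Fin (m + 2)))) ∪ R := by
      intro q hq
      rw [hZ, Finset.mem_filter] at hq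
      obtain ⟨_, hne, h3, hal⟩ := hq
      rw [Finset.mem_union, Finset.mem_product]
      by_cases hqX : q.1 ∈ X
      · exact Or.inl ⟨hqX, Finset.mem_univ _⟩
      · right
        rw [hR, Finset.mem_filter, hQ, Finset.mem_filter]
        have hnu : ∑ j ∈ near, E.f j q.1 ^ 2 ≤ η := by
          by_contra hcon
          exact hqX (Finset.mem_filter.2 ⟨Finset.mem_univ _, hcon⟩)
        refine ⟨⟨Finset.mem_univ _, hne⟩, hG.1, hG.2.1, h3, ⟨E, h1m, hgap, hal⟩, ?_⟩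
        intro E' h0
        exact small_w hINT hp (by positivity) hs hgs hcond hD E h1m hgap hne hal hnu E' h0
    have hcard : (Z.card : ℝ) ≤ X.card * ((m + 2 : ℕ) : ℝ) + R.card := by
      have h2 := (Finset.card_le_card hsub).trans (Finset.card_union_le _ R)
      rw [Finset.card_product, Finset.card_univ, Fintype.card_fin] at h2
      exact_mod_cast h2
    have h4 : (X.card : ℝ) * ((m + 2 : ℕ) : ℝ) ≤ c5 / 4 * ((m + 2 : ℕ) : ℝ) ^ 2 := by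
      calc (X.card : ℝ) * ((m + 2 : ℕ) : ℝ)
          ≤ (c5 / 4 * ((m + 2 : ℕ) : ℝ)) * ((m + 2 : ℕ) : ℝ) :=
            mul_le_mul_of_nonneg_right hXc hn0.le
        _ = _ := by ring
    linarith

/-- the probability that many pairs violate `G3` -/
theorem PrGcnt {n : ℕ} {p C0 c ε c5 η : ℝ} (hp : 0 < p) (hp1 : p < 1) (hc5 : 0 < c5)
    (hn : 1 ≤ n)
    (h : ∀ a b : Fin n, a ≠ b → Pr n p (fun G => ¬ G3 C0 c ε a b G) ≤ η) (hη : 0 ≤ η) :
    Pr n p (fun H => ¬ Gcnt C0 c ε c5 H) ≤ 4 / c5 * η := by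
  have hn0 : (0 : ℝ) < (n : ℝ) := by exact_mod_cast hn
  set Q := Finset.univ.filter (fun q : Fin n × Fin n => q.1 ≠ q.2) with hQ
  have hcount := Pr_count (n := n) (p := p) hp.le hp1.le Q
    (c5 / 4 * (n : ℝ) ^ 2)
    (fun H => ¬ Gcnt C0 c ε c5 H)
    (fun q => fun G => ¬ G3 C0 c ε q.1 q.2 G) ?_
  · have hsum : ∑ q ∈ Q, Pr n p (fun G => ¬ G3 C0 c ε q.1 q.2 G)
        ≤ (n : ℝ) ^ 2 * η := by
      have h1 : ∀ q ∈ Q, Pr n p (fun G => ¬ G3 C0 c ε q.1 q.2 G) ≤ η := by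
        intro q hq
        exact h q.1 q.2 (Finset.mem_filter.1 hq).2
      refine (Finset.sum_le_sum h1).trans ?_
      rw [Finset.sum_const, nsmul_eq_mul]
      refine mul_le_mul_of_nonneg_right ?_ hη
      have : Q.card ≤ n ^ 2 := by
        calc Q.card ≤ (Finset.univ : Finset (Fin n × Fin n)).card :=
              Finset.card_le_card (Finset.filter_subset _ _)
          _ = n ^ 2 := by simp [sq]
      exact_mod_cast this
    have h2 := hcount.trans hsum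
    have h3 : Pr n p (fun H => ¬ Gcnt C0 c ε c5 H) * (c5 / 4) ≤ η := by
      refine le_of_mul_le_mul_left ?_ (by positivity : 0 < (n : ℝ) ^ 2)
      calc (n : ℝ) ^ 2 * (Pr n p (fun H => ¬ Gcnt C0 c ε c5 H) * (c5 / 4))
          = c5 / 4 * (n : ℝ) ^ 2 * Pr n p (fun H => ¬ Gcnt C0 c ε c5 H) := by ring
        _ ≤ _ := h2
    have e : 4 / c5 * η = η / (c5 / 4) := by
      field_simp
    rw [e, le_div_iff₀ (by positivity)]
    exact h3
  · intro H hH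
    unfold Gcnt at hH
    rw [not_le] at hH
    refine hH.le.trans ?_
    refine Nat.cast_le.2 (Finset.card_le_card (fun q hq => ?_))
    simp only [Finset.mem_filter, hQ, Finset.mem_univ, true_and] at hq ⊢
    exact ⟨hq.1, hq.2⟩

end Pool.Agent.W839.Ch
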