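import Pool.Agent.W839.Ch.Fin2

/-! # The deterministic conclusion for typical graphs -/

set_option autoImplicit false
open scoped Classical
open Finset Filter Topology

namespace Pool.Agent.W839.Ch

/-- the target -/
def Tgt (n : ℕ) (cF : ℝ) (G : SimpleGraph (Fin n)) : Prop :=
  cF ≤ 1 - ((G.edgeFinset.filter (fun e =>
        gapF n (G.deleteEdges {e}) < gapF n G)).card : ℝ) / (G.edgeFinset.card : ℝ)

/-- the consequence of `S_DET` for fixed constants -/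
def DETp (k : ℕ) (p C c5 δS cF : ℝ) : Prop :=
  ∀ G : SimpleGraph (Fin (k + 2)),
    OpN p C G → DG p (p / 4) G →
    ∀ E : ESys (adj G) (deg G) (perp (deg G)) (k + 1),
      E.θ 0 ^ 2 * (k + 2 : ℕ) ≤ C ^ 2 →
      c5 * (k + 2 : ℕ) ≤ ((Finset.univ.filter (fun v : Fin (k + 2) =>
        c5 ^ 2 * sn (E.f 0) ≤ (k + 2 : ℕ) * E.f 0 v ^ 2)).card : ℝ) →
      (∀ j, j ≠ 0 → E.θ j < E.θ 0) →
      ∑ j ∈ Finset.univ.erase 0, 1 / (E.θ 0 - E.θ j) ≤ δS * ((k + 2 : ℕ) : ℝ) ^ 2 →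
      Tgt (k + 2) cF G

/-- the scale of the `k`-th gap -/
noncomputable def sk (c6 : ℝ) (n k : ℕ) : ℝ := Real.sqrt (c6 * k / (n : ℝ) ^ 3)

lemma sk_sq {c6 : ℝ} (h : 0 ≤ c6) (n k : ℕ) : sk c6 n k ^ 2 = c6 * k / (n : ℝ) ^ 3 := by
  unfold sk
  rw [Real.sq_sqrt (by positivity)]

lemma sk_pos {c6 : ℝ} (h : 0 < c6) {n k : ℕ} (hn : 0 < n) (hk : 0 < k) : 0 < sk c6 n k := by
  unfold sk
  have h1 : (0 : ℝ) < n := by exact_mod_cast hn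
  have h2 : (0 : ℝ) < k := by exact_mod_cast hk
  exact Real.sqrt_pos.2 (by positivity)

lemma num2 {c6 c' δS n : ℝ} (hn : 0 < n) (hc6 : 0 < c6) (hc' : 0 < c') (hδS : 0 < δS)
    (h : 72 * c' ≤ δS ^ 2 * c6) :
    1 / Real.sqrt (c6 / (2 * n ^ 3)) * (2 * Real.sqrt (c' * n)) ≤ δS / 3 * n ^ 2 := by
  have hA : 0 < c6 / (2 * n ^ 3) := by positivity
  have hsA : 0 < Real.sqrt (c6 / (2 * n ^ 3)) := Real.sqrt_pos.2 hA
  have h1 : Real.sqrt (c' * n) ≤ δS / 6 * n ^ 2 * Real.sqrt (c6 / (2 * n ^ 3)) := by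
    rw [Real.sqrt_le_left (by positivity), mul_pow, Real.sq_sqrt hA.le]
    have e : (δS / 6 * n ^ 2) ^ 2 * (c6 / (2 * n ^ 3)) = (δS ^ 2 * c6) * n / 72 := by
      field_simp
      ring
    rw [e]
    rw [le_div_iff₀ (by norm_num)]
    nlinarith
  calc 1 / Real.sqrt (c6 / (2 * n ^ 3)) * (2 * Real.sqrt (c' * n))
      ≤ 1 / Real.sqrt (c6 / (2 * n ^ 3)) *
        (2 * (δS / 6 * n ^ 2 * Real.sqrt (c6 / (2 * n ^ 3)))) := by
        refine mul_le_mul_of_nonneg_left ?_ (by positivity)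
        linarith
    _ = δS / 3 * n ^ 2 := by
        field_simp
        norm_num

lemma num3 {κ δS n m1 : ℝ} (hn : 0 < n) (hκ : 0 < κ) (hδS : 0 < δS) (hm : m1 ≤ n)
    (h : 36 ≤ κ ^ 2 * δS ^ 2 * n) :
    m1 / Real.sqrt (κ ^ 2 / (4 * n)) ≤ δS / 3 * n ^ 2 := by
  have hB : 0 < κ ^ 2 / (4 * n) := by positivity
  have hsB : 0 < Real.sqrt (κ ^ 2 / (4 * n)) := Real.sqrt_pos.2 hB
  rw [div_le_iff₀ hsB]
  have h1 : 3 / (δS * n) ≤ Real.sqrt (κ ^ 2 / (4 * n)) := by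
    refine Real.le_sqrt_of_sq_le ?_
    rw [div_pow, div_le_div_iff₀ (by positivity) (by positivity)]
    nlinarith
  calc m1 ≤ n := hm
    _ = δS / 3 * n ^ 2 * (3 / (δS * n)) := by field_simp
    _ ≤ _ := mul_le_mul_of_nonneg_left h1 (by positivity)

/-- the deterministic conclusion -/
theorem det_final (hES : S_ES) (hFR : S_FR) {m M : ℕ} (hM : 1 ≤ M)
    {p C c1 ε1 C0 c ε c5 c6 c' κ δ0 δS cF g C2 : ℝ} (hp : 0 < p)
    (hC0 : 0 < C0) (hCC : C ≤ C2) (hCC0 : C0 ≤ C2) (hC : 0 < C) (hc6 : 0 < c6)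
    (hc' : 0 < c') (hκ : 0 < κ) (hδ0 : 0 ≤ δ0) (hδ : 2 * C0 ^ 2 * δ0 ^ 2 ≤ κ ^ 2 / 2)
    (hδS : 0 < δS) (hg : g = 3 * M / δS / ((m + 2 : ℕ) : ℝ) ^ 2)
    (h72 : 72 * c' ≤ δS ^ 2 * c6)
    (h36 : 36 ≤ κ ^ 2 * δS ^ 2 * ((m + 2 : ℕ) : ℝ))
    (hTH : THp (m + 2) p C C0) (hI : INCp (m + 2) p C c1 ε1 c5)
    (hDET : DETp m p C2 c5 δS cF) {H : SimpleGraph (Fin (m + 2))}
    (hG : Good1 p C c1 ε1 C0 c ε c5 H) (hNA : NA c' κ H) (hD0 : DG p δ0 H)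
    (hb1 : ¬ BadK m 1 g H)
    (hbk : ∀ i ∈ Finset.range (m + 2), ¬ BadK m (M * 2 ^ i) (sk c6 (m + 2) (M * 2 ^ i)) H) :
    Tgt (m + 2) cF H := by
  obtain ⟨hO, hD, hS, _⟩ := id hG
  have hn0 : (0 : ℝ) < ((m + 2 : ℕ) : ℝ) := by positivity
  have hM' : (0 : ℝ) < M := by exact_mod_cast hM
  have hg0 : 0 < g := by rw [hg]; positivity
  have hpos : ∀ v, 0 < deg H v := fun v =>
    lt_of_lt_of_le (by positivity) (DG_lower hD v)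
  have hDs : 0 < ∑ v, deg H v := Finset.sum_pos (fun v _ => hpos v) ⟨0, Finset.mem_univ _⟩
  obtain ⟨E⟩ := hES (m + 2) (adj H) (deg H) (perp (deg H)) (m + 1) (adj_comm' _) hpos
    ((hFR (m + 2) _ hpos).1 (by omega))
  have hf0 : E.f 0 ≠ 0 := by
    intro h0
    have := E.orth 0 0
    rw [h0] at this
    simp at this
  have hθ : E.θ 0 ^ 2 * ((m + 2 : ℕ) : ℝ) ≤ C0 ^ 2 := by
    refine hTH H hO hD (E.θ 0) (E.f 0) (E.mem 0) hf0 ?_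
    rw [E.eig 0 (E.f 0) (E.mem 0)]
    congr 1
    exact Finset.sum_congr rfl (fun v _ => by ring)
  obtain ⟨hI1, _⟩ := hI H hO hD hS (E.θ 0) (E.f 0) (E.mem 0) hf0
    (fun v => lagr1 hDs (E.mem 0) (E.eig 0) v)
  have hgap : ∀ j : Fin (m + 1), j ≠ 0 → g ≤ E.θ 0 - E.θ j := by
    intro j hj
    have hj1 : 1 ≤ (j : ℕ) := by
      rcases Nat.eq_zero_or_pos (j : ℕ) with h | h
      · exact absurd (Fin.ext h) hj
      · exact h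
    have h1m : 1 < m + 1 := lt_of_le_of_lt hj1 j.2
    have h2 : E.θ ⟨1, h1m⟩ < E.θ 0 - g := by
      by_contra hcon
      exact hb1 ⟨E, h1m, not_lt.1 hcon⟩
    have h3 : E.θ j ≤ E.θ ⟨1, h1m⟩ := E.anti hj1
    linarith
  have hx : ∀ j, 0 ≤ E.θ 0 - E.θ j := fun j => sub_nonneg.2 (E.anti (Fin.zero_le j))
  have h2 : ∀ j : Fin (m + 1), M ≤ (j : ℕ) →
      c6 / (2 * ((m + 2 : ℕ) : ℝ) ^ 3) * (j : ℕ) ≤ (E.θ 0 - E.θ j) ^ 2 := by
    intro j hj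
    set i := Nat.log 2 ((j : ℕ) / M) with hi
    have hjM : (j : ℕ) / M ≠ 0 := by
      have := Nat.div_pos hj (by omega : 0 < M)
      omega
    have hi1 : 2 ^ i ≤ (j : ℕ) / M := Nat.pow_log_le_self 2 hjM
    have hi2 : (j : ℕ) / M < 2 ^ (i + 1) := Nat.lt_pow_succ_log_self (by norm_num) _
    have hlo : M * 2 ^ i ≤ (j : ℕ) :=
      (Nat.mul_le_mul_left M hi1).trans (Nat.mul_div_le (j : ℕ) M)
    have hhi : (j : ℕ) < M * 2 ^ (i + 1) := by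
      have := Nat.lt_mul_of_div_lt hi2 (by omega : 0 < M)
      rwa [mul_comm] at this
    have hin : i < m + 2 := by
      have h3 : i < 2 ^ i := Nat.lt_two_pow_self
      have h4 : 2 ^ i ≤ M * 2 ^ i := Nat.le_mul_of_pos_left _ (by omega)
      have := j.2
      omega
    have hkm : M * 2 ^ i < m + 1 := lt_of_le_of_lt hlo j.2
    have h5 : E.θ ⟨M * 2 ^ i, hkm⟩ < E.θ 0 - sk c6 (m + 2) (M * 2 ^ i) := by
      by_contra hcon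
      exact hbk i (Finset.mem_range.2 hin) ⟨E, hkm, not_lt.1 hcon⟩
    have h6 : E.θ j ≤ E.θ ⟨M * 2 ^ i, hkm⟩ := E.anti hlo
    have h7 : 0 ≤ sk c6 (m + 2) (M * 2 ^ i) := Real.sqrt_nonneg _
    have h8 : sk c6 (m + 2) (M * 2 ^ i) ^ 2 ≤ (E.θ 0 - E.θ j) ^ 2 :=
      pow_le_pow_left₀ h7 (by linarith) 2
    rw [sk_sq hc6.le] at h8
    refine le_trans ?_ h8
    have h9 : ((j : ℕ) : ℝ) ≤ 2 * ((M * 2 ^ i : ℕ) : ℝ) := by
      have : (j : ℕ) ≤ 2 * (M * 2 ^ i) := by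
        rw [pow_succ] at hhi
        linarith [hhi]
      exact_mod_cast this
    have e : c6 / (2 * ((m + 2 : ℕ) : ℝ) ^ 3) * (j : ℕ)
        = c6 * (j : ℕ) / (2 * ((m + 2 : ℕ) : ℝ) ^ 3) := by ring
    have e' : c6 * ((M * 2 ^ i : ℕ) : ℝ) / ((m + 2 : ℕ) : ℝ) ^ 3
        = c6 * (2 * ((M * 2 ^ i : ℕ) : ℝ)) / (2 * ((m + 2 : ℕ) : ℝ) ^ 3) := by
      field_simp
    rw [e, e']
    exact div_le_div_of_nonneg_right (mul_le_mul_of_nonneg_left h9 hc6.le) (by positivity)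
  have h3 : ∀ j : Fin (m + 1), c' * ((m + 2 : ℕ) : ℝ) < (j : ℕ) + 1 →
      κ ^ 2 / (4 * ((m + 2 : ℕ) : ℝ)) ≤ (E.θ 0 - E.θ j) ^ 2 := by
    intro j hj
    have := macro_gap hp hκ hC0 hδ0 hδ hD hD0 hNA E hθ j hj
    rw [div_le_iff₀ (by positivity)]
    linarith
  have hsum := sum_bound (m := m) (M := M) hM hg0
    (by positivity : 0 < c6 / (2 * ((m + 2 : ℕ) : ℝ) ^ 3))
    (by positivity : 0 < κ ^ 2 / (4 * ((m + 2 : ℕ) : ℝ)))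
    (by positivity : 0 ≤ c' * ((m + 2 : ℕ) : ℝ))
    (fun j => E.θ 0 - E.θ j) hx hgap h2 h3
  have hn2 := num2 hn0 hc6 hc' hδS h72
  have hn3 := num3 (m1 := ((m + 1 : ℕ) : ℝ)) hn0 hκ hδS
    (by exact_mod_cast Nat.le_succ (m + 1)) h36
  have hn1 : (M : ℝ) / g = δS / 3 * ((m + 2 : ℕ) : ℝ) ^ 2 := by
    rw [hg]
    field_simp
  refine hDET H (OpN_mono hC.le hCC hO) hD E ?_ hI1 ?_ ?_
  · exact hθ.trans (pow_le_pow_left₀ hC0.le hCC0 2)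
  · intro j hj
    have := hgap j hj
    linarith
  · refine hsum.trans ?_
    rw [hn1]
    linarith

end Pool.Agent.W839.Ch
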