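import Pool.Agent.W839.Ch.Fin3

/-! # The final union bound -/

set_option autoImplicit false
open scoped Classical
open Finset Filter Topology

namespace Pool.Agent.W839.Ch

lemma geom_sum (M : ℕ) (hM : 1 ≤ M) (K : ℝ) (hK : 0 ≤ K) (n : ℕ) :
    ∑ i ∈ Finset.range n, K / ((M * 2 ^ i : ℕ) : ℝ) ≤ 2 * K / M := by
  have hM' : (0 : ℝ) < M := by exact_mod_cast hM
  have h : ∑ i ∈ Finset.range n, K / ((M * 2 ^ i : ℕ) : ℝ) ≤ 2 * K / M - K / M * (1 / 2) ^ n * 2 := by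
    induction n with
    | zero => simp; apply le_of_eq; ring
    | succ n ih =>
      rw [Finset.sum_range_succ]
      have e : K / ((M * 2 ^ n : ℕ) : ℝ) = K / M * (1 / 2) ^ n := by
        push_cast
        rw [one_div, inv_pow]
        field_simp
      rw [e, pow_succ]
      linarith
  have : 0 ≤ K / M * (1 / 2) ^ n * 2 := by positivity
  linarith

lemma ev_shift {f : ℕ → ℝ} (h : Tendsto f atTop (𝓝 0)) {η : ℝ} (hη : 0 < η) :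
    ∃ N, ∀ k, N ≤ k → f (k + 2) ≤ η := by
  have h1 := h.eventually (gt_mem_nhds hη)
  obtain ⟨N, hN⟩ := eventually_atTop.1 h1
  exact ⟨N, fun k hk => (hN (k + 2) (by omega)).le⟩

lemma ev_nat (x : ℝ) : ∃ N : ℕ, ∀ k, N ≤ k → x ≤ ((k + 2 : ℕ) : ℝ) := by
  obtain ⟨N, hN⟩ := exists_nat_ge x
  refine ⟨N, fun k hk => hN.trans ?_⟩
  exact_mod_cast (by omega : N ≤ k + 2)

theorem union9 {n : ℕ} {p : ℝ} (h0 : 0 ≤ p) (h1 : p ≤ 1)
    (P A1 A2 A3 A4 A5 A6 A7 A8 A9 : SimpleGraph (Fin n) → Prop)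
    (h : ∀ G, P G → A1 G ∨ A2 G ∨ A3 G ∨ A4 G ∨ A5 G ∨ A6 G ∨ A7 G ∨ A8 G ∨ A9 G) {η : ℝ}
    (b1 : Pr n p A1 ≤ η) (b2 : Pr n p A2 ≤ η) (b3 : Pr n p A3 ≤ η) (b4 : Pr n p A4 ≤ η)
    (b5 : Pr n p A5 ≤ η) (b6 : Pr n p A6 ≤ η) (b7 : Pr n p A7 ≤ η) (b8 : Pr n p A8 ≤ η)
    (b9 : Pr n p A9 ≤ η) : Pr n p P ≤ 9 * η := by
  have h2 := Pr_mono h0 h1 h
  have c8 := Pr_or_le h0 h1 A8 A9
  have c7 := Pr_or_le h0 h1 A7 (fun G => A8 G ∨ A9 G)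
  have c6 := Pr_or_le h0 h1 A6 (fun G => A7 G ∨ A8 G ∨ A9 G)
  have c5 := Pr_or_le h0 h1 A5 (fun G => A6 G ∨ A7 G ∨ A8 G ∨ A9 G)
  have c4 := Pr_or_le h0 h1 A4 (fun G => A5 G ∨ A6 G ∨ A7 G ∨ A8 G ∨ A9 G)
  have c3 := Pr_or_le h0 h1 A3 (fun G => A4 G ∨ A5 G ∨ A6 G ∨ A7 G ∨ A8 G ∨ A9 G)
  have c2 := Pr_or_le h0 h1 A2 (fun G => A3 G ∨ A4 G ∨ A5 G ∨ A6 G ∨ A7 G ∨ A8 G ∨ A9 G)
  have c1 := Pr_or_le h0 h1 A1 (fun G => A2 G ∨ A3 G ∨ A4 G ∨ A5 G ∨ A6 G ∨ A7 G ∨ A8 G ∨ A9 G)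
  linarith

/-- the limit of the bound for the first gap -/
lemma lim_bound (K c c5 ω : ℝ) (hc : 0 < c) (hc5 : 0 < c5) (hω : 0 < ω) (hK : 0 < K) {η : ℝ}
    (hη : 0 < η) :
    ∃ N, ∀ m : ℕ, N ≤ m → ∀ g : ℝ, g = ω / ((m + 2 : ℕ) : ℝ) ^ 2 →
      2 / c5 * (K * (4 * g * ((m + 2 : ℕ) : ℝ) / ((c5 / ((m + 2 : ℕ) : ℝ)) * c) + 1)
        / Real.sqrt (c * ((m + 2 : ℕ) : ℝ))) ≤ η := by
  set B := 2 / c5 * (K * (4 * ω / (c5 * c) + 1)) with hB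
  have hBp : 0 < B := by positivity
  obtain ⟨N, hN⟩ := ev_nat ((B / η) ^ 2 / c)
  refine ⟨N, fun m hm g hg => ?_⟩
  have hn0 : (0 : ℝ) < ((m + 2 : ℕ) : ℝ) := by positivity
  have h1 := hN m hm
  rw [div_le_iff₀ hc] at h1
  have h2 : B / η ≤ Real.sqrt (c * ((m + 2 : ℕ) : ℝ)) := by
    refine Real.le_sqrt_of_sq_le ?_
    linarith
  have hs : 0 < Real.sqrt (c * ((m + 2 : ℕ) : ℝ)) := Real.sqrt_pos.2 (by positivity)
  have e : 2 / c5 * (K * (4 * g * ((m + 2 : ℕ) : ℝ) / ((c5 / ((m + 2 : ℕ) : ℝ)) * c) + 1)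
        / Real.sqrt (c * ((m + 2 : ℕ) : ℝ))) = B / Real.sqrt (c * ((m + 2 : ℕ) : ℝ)) := by
    have e1 : 4 * g * ((m + 2 : ℕ) : ℝ) / ((c5 / ((m + 2 : ℕ) : ℝ)) * c) = 4 * ω / (c5 * c) := by
      rw [hg]
      field_simp
    rw [e1, hB]
    ring
  rw [e, div_le_iff₀ hs]
  rw [div_le_iff₀ hη] at h2
  linarith

/-- the main theorem, from the independent parts -/
theorem main_of (hBIT : S_BIT) (hOPN : S_OPN) (hDEG : S_DEG) (hSP : S_SP) (hNA : S_NA)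
    (hG3 : S_G3) (hLO : S_LO) (hCHA : S_CHA2) (hES : S_ES) (hINT : S_INT) (hFR : S_FR)
    (hDET : S_DET) (hTH : S_TH) (hINC : S_INC) (hSW : S_SWP) :
    ∀ p : ℝ, 0 < p → p < 1 → ∃ cF : ℝ, 0 < cF ∧
      ∀ η : ℝ, 0 < η → ∃ N : ℕ, ∀ m : ℕ, N ≤ m → Pr (m + 2) p (fun G => ¬ Tgt (m + 2) cF G) ≤ η := by
  intro p hp hp1
  obtain ⟨C, hC, tO⟩ := hOPN p hp hp1
  obtain ⟨C0, hC0, nTH, hTH⟩ := hTH p hp hp1 C hC
  obtain ⟨c1, ε1, hc1, hε1, tS⟩ := hSP p hp hp1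
  obtain ⟨c5, hc5, nI, hINC⟩ := hINC p hp hp1 C c1 ε1 hC hc1 hε1
  obtain ⟨c, ε', hc, hε', tG3⟩ := hG3 p hp hp1 C0 hC0
  obtain ⟨K, hK, hLO⟩ := hLO
  -- the smaller ε
  set ε := min ε' (c / (2 * C0)) with hεdef
  have hε : 0 < ε := lt_min hε' (by positivity)
  have hεle : ε ≤ ε' := min_le_left _ _
  have hce : C0 ^ 2 * ε ^ 2 ≤ c ^ 2 / 4 := by
    have h1 : ε ≤ c / (2 * C0) := min_le_right _ _
    have h2 : C0 * ε ≤ c / 2 := by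
      calc C0 * ε ≤ C0 * (c / (2 * C0)) := mul_le_mul_of_nonneg_left h1 hC0.le
        _ = c / 2 := by field_simp
    have h3 := pow_le_pow_left₀ (by positivity) h2 2
    nlinarith
  set c6 := c ^ 3 * c5 ^ 2 / 64 with hc6def
  have hc6 : 0 < c6 := by positivity
  obtain ⟨δS, cF, hδS, hcF, nD, hDET⟩ := hDET p hp hp1 (max C C0) c5
    (lt_max_of_lt_left hC) hc5
  refine ⟨cF, hcF, fun η9 hη9 => ?_⟩
  set c' := δS ^ 2 * c6 / 72 with hc'def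
  have hc' : 0 < c' := by positivity
  obtain ⟨κ, hκ, tN⟩ := hNA p hp hp1 c' hc'
  set δ0 := κ / (2 * C0) with hδ0def
  have hδ0 : 0 < δ0 := by positivity
  have hδ : 2 * C0 ^ 2 * δ0 ^ 2 ≤ κ ^ 2 / 2 := by
    rw [hδ0def]
    apply le_of_eq
    field_simp
  set η := η9 / 9 with hηdef
  have hη : 0 < η := by positivity
  -- tendsto facts
  obtain ⟨N1, hN1⟩ := ev_shift tO hη
  obtain ⟨N2, hN2⟩ := ev_shift (hDEG p hp hp1 (p / 4) (by positivity)) hη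
  obtain ⟨N3, hN3⟩ := ev_shift tS hη
  obtain ⟨N4, hN4⟩ := ev_shift tN hη
  obtain ⟨N5, hN5⟩ := ev_shift (hDEG p hp hp1 δ0 hδ0) hη
  obtain ⟨N6, hN6⟩ := tG3 (c5 / 4 * η) (by positivity)
  -- constants
  set K' := 4 / (3 * c5) * (64 * ((8 + 4 * C0 ^ 2) / (3 * p)) / c ^ 3) with hK'
  have hK'p : 0 < K' := by positivity
  have hKk : ∀ k : ℕ, 4 / (3 * c5) * (64 * ((8 + 4 * C0 ^ 2) / (3 * p)) / (c ^ 3 * k))
      = K' / k := by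
    intro k
    rw [hK']
    by_cases hk : (k : ℝ) = 0
    · rw [hk]; simp
    · field_simp
  obtain ⟨M, hMbig⟩ := exists_nat_ge (1 + 4 / (3 * p * ε ^ 2) + 2 * K' / η)
  have hM1r : (1 : ℝ) ≤ M := by
    have : 0 ≤ 4 / (3 * p * ε ^ 2) + 2 * K' / η := by positivity
    linarith
  have hM1 : 1 ≤ M := by exact_mod_cast hM1r
  have hM2 : 4 / (3 * p * ε ^ 2) ≤ M := by
    have : 0 ≤ 2 * K' / η := by positivity
    linarith
  have hM3 : 2 * K' / M ≤ η := by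
    have h1 : 2 * K' / η ≤ M := by
      have : 0 ≤ 4 / (3 * p * ε ^ 2) := by positivity
      linarith
    rw [div_le_iff₀ hη] at h1
    rw [div_le_iff₀ (by linarith)]
    linarith
  set ω := 3 * (M : ℝ) / δS with hω
  have hωp : 0 < ω := by positivity
  obtain ⟨k, hkbig⟩ := exists_nat_ge (1 + 4 / (3 * p * ε ^ 2) + K' / η
    + 1024 * ω ^ 2 / (9 * p ^ 2 * ε ^ 2 * c5 ^ 2 * c6) + 4 * ω ^ 2 / c6)
  have hq1 : 0 ≤ 4 / (3 * p * ε ^ 2) := by positivity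
  have hq2 : 0 ≤ K' / η := by positivity
  have hq3 : 0 ≤ 1024 * ω ^ 2 / (9 * p ^ 2 * ε ^ 2 * c5 ^ 2 * c6) := by positivity
  have hq4 : 0 ≤ 4 * ω ^ 2 / c6 := by positivity
  have hk1r : (1 : ℝ) ≤ k := by linarith
  have hk1 : 1 ≤ k := by exact_mod_cast hk1r
  have hk2 : 4 / (3 * p * ε ^ 2) ≤ k := by linarith
  have hk3 : K' / k ≤ η := by
    have h1 : K' / η ≤ k := by linarith
    rw [div_le_iff₀ hη] at h1
    rw [div_le_iff₀ (by linarith)]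
    linarith
  have hk4 : 1024 * ω ^ 2 ≤ k * (9 * p ^ 2 * ε ^ 2 * c5 ^ 2 * c6) := by
    rw [← div_le_iff₀ (by positivity)]
    linarith
  have hk5 : 4 * ω ^ 2 ≤ k * c6 := by
    rw [← div_le_iff₀ (by positivity)]
    linarith
  obtain ⟨N7, hN7⟩ := lim_bound K c c5 ω hc hc5 hωp hK hη
  obtain ⟨N8, hN8⟩ := ev_nat (36 / (κ ^ 2 * δS ^ 2))
  obtain ⟨N9, hN9⟩ := ev_nat (64 * (k : ℝ) / (3 * p * ε ^ 2 * c5))
  refine ⟨1 + N1 + N2 + N3 + N4 + N5 + N6 + N7 + N8 + N9 + nTH + nI + nD + k, fun m hm => ?_⟩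
  have hn0 : (0 : ℝ) < ((m + 2 : ℕ) : ℝ) := by positivity
  have hn1 : (1 : ℝ) ≤ ((m + 2 : ℕ) : ℝ) := by exact_mod_cast (by omega : 1 ≤ m + 2)
  have hTHm : THp (m + 2) p C C0 := hTH (m + 2) (by omega)
  have hIm : INCp (m + 2) p C c1 ε1 c5 := hINC (m + 2) (by omega)
  have hDETm : DETp m p (max C C0) c5 δS cF := hDET m (by omega)
  have h36 : 36 ≤ κ ^ 2 * δS ^ 2 * ((m + 2 : ℕ) : ℝ) := by
    have := hN8 m (by omega)
    rw [div_le_iff₀ (by positivity)] at this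
    linarith
  have hkn : 64 * (k : ℝ) ≤ 3 * p * ε ^ 2 * c5 * ((m + 2 : ℕ) : ℝ) := by
    have := hN9 m (by omega)
    rw [div_le_iff₀ (by positivity)] at this
    linarith
  set g := ω / ((m + 2 : ℕ) : ℝ) ^ 2 with hg
  have hgp : 0 < g := by positivity
  set s := sk c6 (m + 2) k with hs
  have hsp : 0 < s := sk_pos hc6 (by omega) (by omega)
  have hssq : s ^ 2 = c6 * k / ((m + 2 : ℕ) : ℝ) ^ 3 := sk_sq hc6.le _ _
  have hsk : ∀ k : ℕ, sk c6 (m + 2) k ^ 2 * ((m + 2 : ℕ) : ℝ)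
      ≤ c ^ 3 / 64 * k * (c5 / ((m + 2 : ℕ) : ℝ)) ^ 2 := by
    intro k
    rw [sk_sq hc6.le, hc6def]
    apply le_of_eq
    field_simp
  have hgs : g ≤ s / 2 := by
    refine le_of_sq_le_sq ?_ (by positivity)
    have e1 : g ^ 2 = (4 * ω ^ 2) / (4 * ((m + 2 : ℕ) : ℝ) ^ 4) := by
      rw [hg]
      field_simp
    have e2 : (s / 2) ^ 2 = (k * c6 * ((m + 2 : ℕ) : ℝ)) / (4 * ((m + 2 : ℕ) : ℝ) ^ 4) := by
      rw [div_pow, hssq]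
      field_simp
      norm_num
    rw [e1, e2]
    refine div_le_div_of_nonneg_right (hk5.trans ?_) (by positivity)
    have h3 : 0 ≤ (k : ℝ) * c6 := by positivity
    exact le_mul_of_one_le_right h3 hn1
  have hcond : 1024 * g ^ 2 ≤ 9 * p ^ 2 * ε ^ 2 * ((m + 2 : ℕ) : ℝ)
      * (c5 / ((m + 2 : ℕ) : ℝ)) ^ 2 * s ^ 2 := by
    rw [hssq, hg]
    have e1 : 1024 * (ω / ((m + 2 : ℕ) : ℝ) ^ 2) ^ 2
        = (1024 * ω ^ 2) / ((m + 2 : ℕ) : ℝ) ^ 4 := by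
      field_simp
    have e2 : 9 * p ^ 2 * ε ^ 2 * ((m + 2 : ℕ) : ℝ) * (c5 / ((m + 2 : ℕ) : ℝ)) ^ 2
        * (c6 * k / ((m + 2 : ℕ) : ℝ) ^ 3)
        = (k * (9 * p ^ 2 * ε ^ 2 * c5 ^ 2 * c6)) / ((m + 2 : ℕ) : ℝ) ^ 4 := by
      field_simp
    rw [e1, e2]
    exact div_le_div_of_nonneg_right hk4 (by positivity)
  have hmain := union9 (n := m + 2) (p := p) hp.le hp1.le
    (fun G => ¬ Tgt (m + 2) cF G)
    (fun G => ¬ OpN p C G) (fun G => ¬ DG p (p / 4) G) (fun G => ¬ SP c1 ε1 G)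
    (fun G => ¬ Gcnt C0 c ε c5 G) (fun G => ¬ NA c' κ G) (fun G => ¬ DG p δ0 G)
    (fun G => Good1 p C c1 ε1 C0 c ε c5 G ∧ BadK m 1 g G ∧ ¬ BadK m k s G)
    (fun G => Good1 p C c1 ε1 C0 c ε c5 G ∧ BadK m k s G)
    (fun G => ∃ i ∈ Finset.range (m + 2), (Good1 p C c1 ε1 C0 c ε c5 G ∧
      BadK m (M * 2 ^ i) (sk c6 (m + 2) (M * 2 ^ i)) G))
    ?_ (η := η) (hN1 m (by omega)) (hN2 m (by omega)) (hN3 m (by omega)) ?_
    (hN4 m (by omega)) (hN5 m (by omega)) ?_ ?_ ?_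
  · calc Pr (m + 2) p (fun G => ¬ Tgt (m + 2) cF G) ≤ 9 * η := hmain
      _ = η9 := by rw [hηdef]; ring
  · intro G hT
    by_contra hcon
    push Not at hcon
    obtain ⟨a1, a2, a3, a4, a5, a6, a7, a8, a9⟩ := hcon
    have hgood : Good1 p C c1 ε1 C0 c ε c5 G := ⟨a1, a2, a3, a4⟩
    apply hT
    refine det_final hES hFR hM1 hp hC0 (le_max_left C C0) (le_max_right C C0) hC hc6 hc' hκ
      hδ0.le hδ hδS (g := g) (by rw [hg, hω]) (by rw [hc'def]; apply le_of_eq; ring) h36 hTHm hIm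
      hDETm hgood a5 a6 ?_ ?_
    · intro hb
      exact a8 hgood (a7 hgood hb)
    · intro i hi hb
      exact a9 i hi hgood hb
  · have h1 := PrGcnt (n := m + 2) (p := p) (C0 := C0) (c := c) (ε := ε) (c5 := c5)
      (η := c5 / 4 * η) hp hp1 hc5 (by omega) ?_ (by positivity)
    · refine h1.trans (le_of_eq ?_)
      field_simp
    · intro a b hab
      refine le_trans (Pr_mono hp.le hp1.le ?_) (hN6 (m + 2) (by omega) a b hab)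
      intro G hG hG'
      exact hG (G3_mono hε.le hεle hG')
  · exact (PrBadG hBIT hSW hES hINT hFR hK hLO (by omega) hp hp1 hc hε hc5 hce hgp hsp hgs
      (by omega) hcond hkn hTHm hIm).trans (hN7 m (by omega) g hg)
  · have h1 := PrBadK hBIT hSW hES hINT hFR hCHA (m := m) (by omega) hp hp1 hc hε hc5 hce hk1 hk2
      (hsk k) hTHm hIm
    rw [hKk k] at h1
    exact h1.trans hk3
  · refine (Pr_exists_le hp.le hp1.le _ _).trans ?_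
    have h1 : ∀ i ∈ Finset.range (m + 2), Pr (m + 2) p (fun G =>
        Good1 p C c1 ε1 C0 c ε c5 G ∧ BadK m (M * 2 ^ i) (sk c6 (m + 2) (M * 2 ^ i)) G)
        ≤ K' / ((M * 2 ^ i : ℕ) : ℝ) := by
      intro i _
      have h2 : M ≤ M * 2 ^ i := Nat.le_mul_of_pos_right _ (by positivity)
      have h2r : (M : ℝ) ≤ ((M * 2 ^ i : ℕ) : ℝ) := by exact_mod_cast h2
      have h3 := PrBadK hBIT hSW hES hINT hFR hCHA (m := m) (by omega) hp hp1 hc hε hc5 hce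
        (hM1.trans h2) (hM2.trans h2r) (hsk (M * 2 ^ i)) hTHm hIm
      rw [hKk] at h3
      exact h3
    exact (Finset.sum_le_sum h1).trans ((geom_sum M hM1 K' hK'p.le (m + 2)).trans hM3)

end Pool.Agent.W839.Ch
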