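import Pool.Agent.W839.Ch.Fin4

/-! # The frozen statement from the main theorem -/

set_option autoImplicit false
open scoped Classical
open Finset Filter Topology

namespace Pool.Agent.W839.Ch

theorem frozen_of (hBIT : S_BIT)
    (H : ∀ p : ℝ, 0 < p → p < 1 → ∃ cF : ℝ, 0 < cF ∧
      ∀ η : ℝ, 0 < η → ∃ N : ℕ, ∀ m : ℕ, N ≤ m →
        Pr (m + 2) p (fun G => ¬ Tgt (m + 2) cF G) ≤ η) :
    ∀ gap : (n : ℕ) → SimpleGraph (Fin n) → ℝ,
      (∀ (n : ℕ) (H : SimpleGraph (Fin n)),
        gap n H = sInf {t : ℝ | 2 ≤ (((Matrix.of fun i j : Fin n =>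
            (if i = j then (1 : ℝ) else 0) -
              (if H.Adj i j then (1 : ℝ) else 0) /
                Real.sqrt ((∑ k : Fin n, if H.Adj i k then (1 : ℝ) else 0) *
                  (∑ k : Fin n, if H.Adj j k then (1 : ℝ) else 0))).charpoly.roots).filter
              (fun x => x ≤ t)).card}) →
      ∀ p : ℝ, 0 < p → p < 1 →
        ∃ c : ℝ, 0 < c ∧
          Filter.Tendsto
            (fun n : ℕ => ∑ G : SimpleGraph (Fin n),
              if c ≤ 1 - ((G.edgeFinset.filter
                    (fun e => gap n (G.deleteEdges {e}) < gap n G)).card : ℝ) /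
                  (G.edgeFinset.card : ℝ)
              then p ^ G.edgeFinset.card * (1 - p) ^ (n.choose 2 - G.edgeFinset.card)
              else 0)
            Filter.atTop (nhds 1) := by
  intro gap hgap p hp hp1
  obtain ⟨cF, hcF, h⟩ := H p hp hp1
  refine ⟨cF, hcF, ?_⟩
  have hg : ∀ (n : ℕ) (G : SimpleGraph (Fin n)), gap n G = gapF n G := fun n G => hgap n G
  have e : (fun n : ℕ => ∑ G : SimpleGraph (Fin n),
              if cF ≤ 1 - ((G.edgeFinset.filter
                    (fun e => gap n (G.deleteEdges {e}) < gap n G)).card : ℝ) /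
                  (G.edgeFinset.card : ℝ)
              then p ^ G.edgeFinset.card * (1 - p) ^ (n.choose 2 - G.edgeFinset.card)
              else 0) = fun n : ℕ => Pr n p (Tgt n cF) := by
    funext n
    unfold Pr Tgt wt
    refine Finset.sum_congr rfl (fun G _ => ?_)
    simp only [hg]
  rw [e]
  have e2 : (fun n : ℕ => Pr n p (Tgt n cF)) = fun n : ℕ => 1 - Pr n p (fun G => ¬ Tgt n cF G) := by
    funext n
    have := Pr_add_not (n := n) (p := p) hBIT (Tgt n cF)
    linarith
  rw [e2]
  have h0 : Tendsto (fun n : ℕ => Pr n p (fun G => ¬ Tgt n cF G)) atTop (𝓝 0) := by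
    rw [Metric.tendsto_atTop]
    intro η hη
    obtain ⟨N, hN⟩ := h (η / 2) (by positivity)
    refine ⟨N + 2, fun n hn => ?_⟩
    obtain ⟨m, rfl⟩ : ∃ m, n = m + 2 := ⟨n - 2, by omega⟩
    have h1 := hN m (by omega)
    have h2 := Pr_nonneg (n := m + 2) hp.le hp1.le (fun G => ¬ Tgt (m + 2) cF G)
    rw [Real.dist_eq, sub_zero, abs_of_nonneg h2]
    linarith
  simpa using (tendsto_const_nhds (x := (1 : ℝ))).sub h0

end Pool.Agent.W839.Ch
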