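import Pool.Agent.W839.Ch.Swap

/-! # Lagrange multipliers and Bessel inequalities -/

set_option autoImplicit false
open scoped Classical
open Finset Filter Topology

namespace Pool.Agent.W839.Ch

variable {n : ℕ} {a b : Fin n}

lemma deg_eq (H : SimpleGraph (Fin n)) (u : Fin n) : ∑ v, adj H v u = deg H u := by
  unfold deg; exact Finset.sum_congr rfl (fun v _ => adj_comm' H v u)

lemma sum_adj_w (H : SimpleGraph (Fin n)) (w : Fin n → ℝ) :
    ∑ v, ∑ u, adj H v u * w u = ∑ u, deg H u * w u := by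
  rw [Finset.sum_comm]
  refine Finset.sum_congr rfl (fun u _ => ?_)
  rw [← Finset.sum_mul, deg_eq]

/-- stationarity on `perp2` extends to all vectors with `x a = x b` -/
lemma lagr2 {H : SimpleGraph (Fin n)} (hD : 0 < ∑ v, deg H v) {θ : ℝ} {w : Fin n → ℝ}
    (hw : w ∈ perp2 (deg H) a b)
    (he : ∀ x ∈ perp2 (deg H) a b,
      ∑ u, ∑ v, adj H u v * x u * w v = θ * ∑ v, deg H v * x v * w v)
    (x : Fin n → ℝ) (hx : x a = x b) :
    ∑ v, (∑ u, adj H v u * w u - θ * deg H v * w v) * x v = 0 := by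
  set c : ℝ := (∑ v, deg H v * x v) / ∑ v, deg H v with hc
  have hx' : (fun v => x v - c) ∈ perp2 (deg H) a b := by
    refine ⟨?_, by simp [hx]⟩
    have : ∑ v, deg H v * (x v - c) = ∑ v, deg H v * x v - (∑ v, deg H v) * c := by
      rw [Finset.sum_mul, ← Finset.sum_sub_distrib]
      exact Finset.sum_congr rfl (fun v _ => by ring)
    rw [this, hc]
    field_simp
    ring
  have h1 := he _ hx'
  have hw1 : ∑ v, deg H v * w v = 0 := hw.1
  have e1 : ∑ v, (∑ u, adj H v u * w u - θ * deg H v * w v) * x v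
      = ∑ v, (∑ u, adj H v u * w u - θ * deg H v * w v) * (x v - c)
        + c * (∑ v, ∑ u, adj H v u * w u - θ * ∑ v, deg H v * w v) := by
    rw [Finset.mul_sum, ← Finset.sum_sub_distrib, Finset.mul_sum, ← Finset.sum_add_distrib]
    exact Finset.sum_congr rfl (fun v _ => by ring)
  have e2 : ∑ v, (∑ u, adj H v u * w u - θ * deg H v * w v) * (x v - c)
      = ∑ u, ∑ v, adj H u v * (x u - c) * w v - θ * ∑ v, deg H v * (x v - c) * w v := by
    rw [Finset.mul_sum, ← Finset.sum_sub_distrib]
    refine Finset.sum_congr rfl (fun v _ => ?_)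
    rw [sub_mul, Finset.sum_mul]
    congr 1
    · exact Finset.sum_congr rfl (fun u _ => by ring)
    · ring
  rw [e1, e2, h1, sum_adj_w, hw1]
  ring

lemma lagr2_rest {H : SimpleGraph (Fin n)} (hD : 0 < ∑ v, deg H v) {θ : ℝ} {w : Fin n → ℝ}
    (hw : w ∈ perp2 (deg H) a b)
    (he : ∀ x ∈ perp2 (deg H) a b,
      ∑ u, ∑ v, adj H u v * x u * w v = θ * ∑ v, deg H v * x v * w v)
    (v : Fin n) (hv : v ≠ a) (hv' : v ≠ b) :
    ∑ u, adj H v u * w u = θ * deg H v * w v := by
  have h := lagr2 hD hw he (fun u => if u = v then 1 else 0)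
    (by simp [hv.symm, hv'.symm])
  simp only [mul_ite, mul_one, mul_zero, Finset.sum_ite_eq', Finset.mem_univ, if_true] at h
  linarith

/-- the same for `perp`: full eigenvalue equation -/
lemma lagr1 {H : SimpleGraph (Fin n)} (hD : 0 < ∑ v, deg H v) {θ : ℝ} {w : Fin n → ℝ}
    (hw : w ∈ perp (deg H))
    (he : ∀ x ∈ perp (deg H),
      ∑ u, ∑ v, adj H u v * x u * w v = θ * ∑ v, deg H v * x v * w v)
    (v : Fin n) :
    ∑ u, adj H v u * w u = θ * deg H v * w v := by
  have key : ∀ x : Fin n → ℝ,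
      ∑ v, (∑ u, adj H v u * w u - θ * deg H v * w v) * x v = 0 := by
    intro x
    set c : ℝ := (∑ v, deg H v * x v) / ∑ v, deg H v with hc
    have hx' : (fun v => x v - c) ∈ perp (deg H) := by
      change ∑ v, deg H v * (x v - c) = 0
      have : ∑ v, deg H v * (x v - c) = ∑ v, deg H v * x v - (∑ v, deg H v) * c := by
        rw [Finset.sum_mul, ← Finset.sum_sub_distrib]
        exact Finset.sum_congr rfl (fun v _ => by ring)
      rw [this, hc]
      field_simp
      ring
    have h1 := he _ hx'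
    have hw1 : ∑ v, deg H v * w v = 0 := hw
    have e1 : ∑ v, (∑ u, adj H v u * w u - θ * deg H v * w v) * x v
        = ∑ v, (∑ u, adj H v u * w u - θ * deg H v * w v) * (x v - c)
          + c * (∑ v, ∑ u, adj H v u * w u - θ * ∑ v, deg H v * w v) := by
      rw [Finset.mul_sum, ← Finset.sum_sub_distrib, Finset.mul_sum, ← Finset.sum_add_distrib]
      exact Finset.sum_congr rfl (fun v _ => by ring)
    have e2 : ∑ v, (∑ u, adj H v u * w u - θ * deg H v * w v) * (x v - c)
        = ∑ u, ∑ v, adj H u v * (x u - c) * w v - θ * ∑ v, deg H v * (x v - c) * w v := by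
      rw [Finset.mul_sum, ← Finset.sum_sub_distrib]
      refine Finset.sum_congr rfl (fun v _ => ?_)
      rw [sub_mul, Finset.sum_mul]
      congr 1
      · exact Finset.sum_congr rfl (fun u _ => by ring)
      · ring
    rw [e1, e2, h1, sum_adj_w, hw1]
    ring
  have h := key (fun u => if u = v then 1 else 0)
  simp only [mul_ite, mul_one, mul_zero, Finset.sum_ite_eq', Finset.mem_univ, if_true] at h
  linarith

/-- the secular relation -/
lemma secular (hab : a ≠ b) {H : SimpleGraph (Fin n)} (hD : 0 < ∑ v, deg H v) {θ θ' : ℝ}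
    {w f : Fin n → ℝ} (hw : w ∈ perp2 (deg H) a b)
    (he : ∀ x ∈ perp2 (deg H) a b,
      ∑ u, ∑ v, adj H u v * x u * w v = θ' * ∑ v, deg H v * x v * w v)
    (hf : ∀ v, ∑ u, adj H v u * f u = θ * deg H v * f v) :
    2 * ((θ - θ') * ∑ v, deg H v * f v * w v) = beta2 H a b θ' w * (f a - f b) := by
  set z : Fin n → ℝ := fun v => ∑ u, adj H v u * w u - θ' * deg H v * w v with hz
  have h0 : ∀ v ∈ rest a b, z v = 0 := by
    intro v hv
    have hv' := mem_rest.1 hv
    simp only [hz, lagr2_rest hD hw he v hv'.1 hv'.2, sub_self]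
  have hs : z a + z b = 0 := by
    have h := lagr2 hD hw he (fun u => if u = a ∨ u = b then 1 else 0) (by simp)
    rw [sum_split hab] at h
    simp only [true_or, or_true, if_true, mul_one] at h
    have : ∑ v ∈ rest a b, (∑ u, adj H v u * w u - θ' * deg H v * w v)
        * (if v = a ∨ v = b then (1 : ℝ) else 0) = 0 := by
      refine Finset.sum_eq_zero (fun v hv => ?_)
      have hv' := mem_rest.1 hv
      simp [hv'.1, hv'.2]
    rw [this, add_zero] at h
    exact h
  have hb2 : beta2 H a b θ' w = z a - z b := by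
    simp only [beta2, hz]
  have e1 : ∑ v, z v * f v = z a * f a + z b * f b := by
    rw [sum_split hab]
    have : ∑ v ∈ rest a b, z v * f v = 0 :=
      Finset.sum_eq_zero (fun v hv => by rw [h0 v hv, zero_mul])
    rw [this, add_zero]
  have e2 : ∑ v, z v * f v = (θ - θ') * ∑ v, deg H v * f v * w v := by
    have : ∑ v, z v * f v = ∑ v, ∑ u, adj H v u * w u * f v
        - θ' * ∑ v, deg H v * f v * w v := by
      rw [Finset.mul_sum, ← Finset.sum_sub_distrib]
      refine Finset.sum_congr rfl (fun v _ => ?_)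
      simp only [hz, sub_mul, Finset.sum_mul]
      ring
    rw [this, Finset.sum_comm]
    have e3 : ∑ u, ∑ v, adj H v u * w u * f v = θ * ∑ v, deg H v * f v * w v := by
      rw [Finset.mul_sum]
      refine Finset.sum_congr rfl (fun u _ => ?_)
      have : ∑ v, adj H v u * w u * f v = w u * ∑ v, adj H u v * f v := by
        rw [Finset.mul_sum]
        exact Finset.sum_congr rfl (fun v _ => by rw [adj_comm' H v u]; ring)
      rw [this, hf u]
      ring
    rw [e3]
    ring
  rw [hb2, ← e2, e1]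
  have hzb : z b = - z a := by linarith
  rw [hzb]
  ring

section bessel
variable {A : Fin n → Fin n → ℝ} {d : Fin n → ℝ} {W : Submodule ℝ (Fin n → ℝ)} {m : ℕ}

/-- Parseval for finite subsets of an eigen system, in the form of a sum of squares -/
lemma ESys.norm_sum (E : ESys A d W m) (c : Fin m → ℝ) :
    ∑ v, d v * (∑ i, c i * E.f i v) ^ 2 = ∑ i, c i ^ 2 := by
  have e1 : ∀ v, d v * (∑ i, c i * E.f i v) ^ 2
      = ∑ i, ∑ j, c i * c j * (d v * E.f i v * E.f j v) := by
    intro v
    rw [sq, Finset.sum_mul_sum, Finset.mul_sum]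
    refine Finset.sum_congr rfl (fun i _ => ?_)
    rw [Finset.mul_sum]
    exact Finset.sum_congr rfl (fun j _ => by ring)
  rw [Finset.sum_congr rfl (fun v _ => e1 v), Finset.sum_comm]
  refine Finset.sum_congr rfl (fun i _ => ?_)
  rw [Finset.sum_comm]
  have : ∀ j, ∑ v, c i * c j * (d v * E.f i v * E.f j v) = if i = j then c i * c j else 0 := by
    intro j
    rw [← Finset.mul_sum, E.orth i j]
    split_ifs <;> simp
  rw [Finset.sum_congr rfl (fun j _ => this j)]
  simp [sq]

lemma ESys.bessel (E : ESys A d W m) (hd : ∀ v, 0 ≤ d v) (x : Fin n → ℝ) :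
    ∑ i, (∑ v, d v * x v * E.f i v) ^ 2 ≤ ∑ v, d v * x v ^ 2 := by
  set c : Fin m → ℝ := fun i => ∑ v, d v * x v * E.f i v with hc
  have h0 : 0 ≤ ∑ v, d v * (x v - ∑ i, c i * E.f i v) ^ 2 :=
    Finset.sum_nonneg (fun v _ => mul_nonneg (hd v) (sq_nonneg _))
  have e1 : ∑ v, d v * (x v - ∑ i, c i * E.f i v) ^ 2
      = ∑ v, d v * x v ^ 2 - 2 * (∑ v, ∑ i, d v * x v * (c i * E.f i v))
        + ∑ v, d v * (∑ i, c i * E.f i v) ^ 2 := by
    rw [Finset.mul_sum, ← Finset.sum_sub_distrib, ← Finset.sum_add_distrib]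
    refine Finset.sum_congr rfl (fun v _ => ?_)
    rw [← Finset.mul_sum]
    ring
  have e2 : ∑ v, ∑ i, d v * x v * (c i * E.f i v) = ∑ i, c i ^ 2 := by
    rw [Finset.sum_comm]
    refine Finset.sum_congr rfl (fun i _ => ?_)
    have : ∑ v, d v * x v * (c i * E.f i v) = c i * ∑ v, d v * x v * E.f i v := by
      rw [Finset.mul_sum]
      exact Finset.sum_congr rfl (fun v _ => by ring)
    rw [this, sq]
  rw [e1, e2, E.norm_sum] at h0
  linarith

lemma ESys.point (E : ESys A d W m) (hd : ∀ v, 0 ≤ d v) {a : Fin n} (ha : 0 < d a) :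
    ∑ i, E.f i a ^ 2 ≤ 1 / d a := by
  have h := E.bessel hd (fun v => if v = a then 1 / d a else 0)
  have e1 : ∀ i, ∑ v, d v * (if v = a then 1 / d a else 0) * E.f i v = E.f i a := by
    intro i
    simp only [mul_ite, mul_zero, ite_mul, zero_mul, Finset.sum_ite_eq', Finset.mem_univ, if_true]
    field_simp
  have e2 : ∑ v, d v * (if v = a then 1 / d a else (0 : ℝ)) ^ 2 = 1 / d a := by
    simp only [ite_pow, mul_ite, ne_eq, OfNat.ofNat_ne_zero, not_false_eq_true, zero_pow,
      mul_zero, Finset.sum_ite_eq', Finset.mem_univ, if_true]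
    field_simp
  simp only [e1] at h
  rwa [e2] at h

lemma ESys.point2 (E : ESys A d W m) (hd : ∀ v, 0 ≤ d v) {a b : Fin n} (hab : a ≠ b)
    (ha : 0 < d a + d b) (hE : ∀ i, E.f i a = E.f i b) :
    ∑ i, E.f i a ^ 2 ≤ 1 / (d a + d b) := by
  have h := E.bessel hd (fun v => if v = a ∨ v = b then 1 / (d a + d b) else 0)
  have e1 : ∀ i, ∑ v, d v * (if v = a ∨ v = b then 1 / (d a + d b) else 0) * E.f i v
      = E.f i a := by
    intro i
    rw [sum_split hab]
    have : ∑ v ∈ rest a b, d v * (if v = a ∨ v = b then 1 / (d a + d b) else 0) * E.f i v = 0 :=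
      Finset.sum_eq_zero (fun v hv => by
        have hv' := mem_rest.1 hv
        simp [hv'.1, hv'.2])
    rw [this]
    simp only [true_or, or_true, if_true, add_zero, ← hE i]
    field_simp
  have e2 : ∑ v, d v * (if v = a ∨ v = b then 1 / (d a + d b) else (0 : ℝ)) ^ 2
      = 1 / (d a + d b) := by
    rw [sum_split hab]
    have : ∑ v ∈ rest a b, d v * (if v = a ∨ v = b then 1 / (d a + d b) else (0 : ℝ)) ^ 2 = 0 :=
      Finset.sum_eq_zero (fun v hv => by
        have hv' := mem_rest.1 hv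
        simp [hv'.1, hv'.2])
    rw [this]
    simp only [true_or, or_true, if_true, add_zero]
    field_simp
  simp only [e1] at h
  rwa [e2] at h

end bessel

end Pool.Agent.W839.Ch
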