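import Pool.Agent.W839.Ch.Defs

/-!
# MP_332c83_pr (S19255): statements of the independent parts (subtasks CH-*)
-/

set_option autoImplicit false
open scoped Classical
open Finset Filter Topology

namespace Pool.Agent.W839.Ch

/-- weight of a bit -/
noncomputable def bw (p : ℝ) (b : Bool) : ℝ := if b then p else 1 - p

/-- expectation for independent bits indexed by `ι` -/
noncomputable def EB {ι : Type} [Fintype ι] (p : ℝ) (F : (ι → Bool) → ℝ) : ℝ :=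
  ∑ ω : ι → Bool, (∏ i, bw p (ω i)) * F ω

/-- the graph given by bits on the unordered pairs (bits on the diagonal are ignored) -/
def gr {n : ℕ} (ω : Sym2 (Fin n) → Bool) : SimpleGraph (Fin n) where
  Adj u v := u ≠ v ∧ ω s(u, v) = true
  symm := ⟨fun u v h => ⟨h.1.symm, by rw [Sym2.eq_swap]; exact h.2⟩⟩
  loopless := ⟨fun u h => h.1 rfl⟩

/-- CH-1a: `G(n,p)` from independent bits -/
def S_BIT : Prop := ∀ (n : ℕ) (p : ℝ) (F : SimpleGraph (Fin n) → ℝ),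
  EB p (fun ω : Sym2 (Fin n) → Bool => F (gr ω)) = ∑ G : SimpleGraph (Fin n), wt n p G * F G

/-- CH-1b: resampling the coordinates in `B` -/
def S_MIX : Prop := ∀ (ι : Type) [Fintype ι] (p : ℝ) (B : ι → Prop) (F : (ι → Bool) → ℝ),
  EB p F = EB p (fun ω => EB p (fun η => F (fun i => if B i then η i else ω i)))

/-- CH-1c: products of functions of disjoint blocks of coordinates -/
def S_BLK : Prop := ∀ (ι J : Type) [Fintype ι] [Fintype J] (p : ℝ) (B : ι → Option J)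
  (h : J → (ι → Bool) → ℝ),
  (∀ j ω ω', (∀ i, B i = some j → ω i = ω' i) → h j ω = h j ω') →
  EB p (fun ω => ∏ j, h j ω) = ∏ j, EB p (h j)

/-- CH-2a: operator norm of the centred adjacency matrix -/
def S_OPN : Prop := ∀ p : ℝ, 0 < p → p < 1 → ∃ C : ℝ, 0 < C ∧
  Tendsto (fun n : ℕ => Pr n p (fun G => ¬ OpN p C G)) atTop (𝓝 0)

/-- CH-2b: degrees -/
def S_DEG : Prop := ∀ p : ℝ, 0 < p → p < 1 → ∀ δ : ℝ, 0 < δ →
  Tendsto (fun n : ℕ => Pr n p (fun G => ¬ DG p δ G)) atTop (𝓝 0)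

/-- CH-3: sparse vectors -/
def S_SP : Prop := ∀ p : ℝ, 0 < p → p < 1 → ∃ c ε : ℝ, 0 < c ∧ 0 < ε ∧
  Tendsto (fun n : ℕ => Pr n p (fun G => ¬ SP c ε G)) atTop (𝓝 0)

/-- CH-4: no concentration of the spectrum on the scale `√n` -/
def S_NA : Prop := ∀ p : ℝ, 0 < p → p < 1 → ∀ c : ℝ, 0 < c → ∃ κ : ℝ, 0 < κ ∧
  Tendsto (fun n : ℕ => Pr n p (fun G => ¬ NA c κ G)) atTop (𝓝 0)

/-- CH-5: eigenvectors of the compression have many typical coordinates on `N(a) Δ N(b)` -/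
def S_G3 : Prop := ∀ p : ℝ, 0 < p → p < 1 → ∀ C0 : ℝ, 0 < C0 → ∃ c ε : ℝ, 0 < c ∧ 0 < ε ∧
  ∀ η : ℝ, 0 < η → ∃ n0 : ℕ, ∀ n : ℕ, n0 ≤ n → ∀ a b : Fin n, a ≠ b →
    Pr n p (fun G => ¬ G3 C0 c ε a b G) ≤ η

/-- CH-6: Littlewood-Offord / Erdős -/
def S_LO : Prop := ∃ K : ℝ, 0 < K ∧ ∀ (V : Type) [Fintype V] (b : V → ℝ) (h : ℝ) (N : ℕ),
  0 < h → 0 < N → N ≤ (Finset.univ.filter (fun v => h ≤ |b v|)).card →
  ∀ R x : ℝ, 0 ≤ R →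
    ((Finset.univ.filter (fun τ : V → Bool =>
      |∑ v, (if τ v then b v else - b v) - x| ≤ R)).card : ℝ)
      ≤ K * (R / h + 1) / Real.sqrt N * 2 ^ Fintype.card V

/-- CH-7: lower tail of a quadratic form in random signs -/
def S_CHA : Prop := ∀ (V I : Type) [Fintype V] [Fintype I] (b : I → V → ℝ) (L : ℝ),
  (∀ x : V → ℝ, ∑ i, (∑ v, b i v * x v) ^ 2 ≤ L * ∑ v, x v ^ 2) →
  ((Finset.univ.filter (fun τ : V → Bool =>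
    ∑ i, (∑ v, (if τ v then b i v else - b i v)) ^ 2 ≤ (1 / 2) * ∑ i, ∑ v, b i v ^ 2)).card : ℝ)
    * (∑ i, ∑ v, b i v ^ 2) ≤ 8 * L * 2 ^ Fintype.card V

/-- CH-8a: existence of complete systems of eigenvectors -/
def S_ES : Prop := ∀ (n : ℕ) (A : Fin n → Fin n → ℝ) (d : Fin n → ℝ)
  (W : Submodule ℝ (Fin n → ℝ)) (m : ℕ), (∀ u v, A u v = A v u) → (∀ v, 0 < d v) →
  Module.finrank ℝ W = m → Nonempty (ESys A d W m)

/-- CH-8b: Cauchy interlacing -/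
def S_INT : Prop := ∀ (n : ℕ) (A : Fin n → Fin n → ℝ) (d : Fin n → ℝ)
  (W W' : Submodule ℝ (Fin n → ℝ)) (m m' : ℕ), (∀ u v, A u v = A v u) → (∀ v, 0 < d v) →
  W' ≤ W → ∀ (E : ESys A d W m) (E' : ESys A d W' m'),
    (∀ (i : Fin m') (j : Fin m), (j : ℕ) ≤ i → E'.θ i ≤ E.θ j) ∧
    (m ≤ m' + 1 → ∀ (i : Fin m') (j : Fin m), (i : ℕ) + 1 ≤ j → E.θ j ≤ E'.θ i)

/-- CH-8c: dimensions -/
def S_FR : Prop := ∀ (n : ℕ) (d : Fin n → ℝ), (∀ v, 0 < d v) →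
  (1 ≤ n → Module.finrank ℝ (perp d) = n - 1) ∧
  (3 ≤ n → ∀ a b : Fin n, a ≠ b → Module.finrank ℝ (perp2 d a b) = n - 2)

/-- CH-9a: the gap is `1 - θ_2` -/
def S_GAP1 : Prop := ∀ (k : ℕ) (G : SimpleGraph (Fin (k + 2))), (∀ v, 0 < deg G v) →
  ∀ E : ESys (adj G) (deg G) (perp (deg G)) (k + 1), gapF (k + 2) G = 1 - E.θ 0

/-- CH-9b: lower bound for the gap by a subspace of codimension one -/
def S_GAP2 : Prop := ∀ (k : ℕ) (H : SimpleGraph (Fin (k + 2))), (∀ v, 0 < deg H v) →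
  ∀ (θ : ℝ) (φ : (Fin (k + 2) → ℝ) →ₗ[ℝ] ℝ),
    (∀ x, φ x = 0 → ∑ u, ∑ v, adj H u v * x u * x v ≤ θ * ∑ v, deg H v * x v ^ 2) →
    1 - θ ≤ gapF (k + 2) H

/-- CH-10: the deterministic final step -/
def S_DET : Prop := ∀ p : ℝ, 0 < p → p < 1 → ∀ C c5 : ℝ, 0 < C → 0 < c5 →
  ∃ δS cF : ℝ, 0 < δS ∧ 0 < cF ∧ ∃ n0 : ℕ, ∀ k : ℕ, n0 ≤ k → ∀ G : SimpleGraph (Fin (k + 2)),
    OpN p C G → DG p (p / 4) G →
    ∀ E : ESys (adj G) (deg G) (perp (deg G)) (k + 1),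
      E.θ 0 ^ 2 * (k + 2 : ℕ) ≤ C ^ 2 →
      c5 * (k + 2 : ℕ) ≤ ((Finset.univ.filter (fun v : Fin (k + 2) =>
        c5 ^ 2 * sn (E.f 0) ≤ (k + 2 : ℕ) * E.f 0 v ^ 2)).card : ℝ) →
      (∀ j, j ≠ 0 → E.θ j < E.θ 0) →
      ∑ j ∈ Finset.univ.erase 0, 1 / (E.θ 0 - E.θ j) ≤ δS * ((k + 2 : ℕ) : ℝ) ^ 2 →
      cF ≤ 1 - ((G.edgeFinset.filter (fun e =>
        gapF (k + 2) (G.deleteEdges {e}) < gapF (k + 2) G)).card : ℝ) / (G.edgeFinset.card : ℝ)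

/-- CH-11a: bounds for Rayleigh quotients -/
def S_TH : Prop := ∀ p : ℝ, 0 < p → p < 1 → ∀ C : ℝ, 0 < C → ∃ C1 : ℝ, 0 < C1 ∧ ∃ n0 : ℕ,
  ∀ n : ℕ, n0 ≤ n → ∀ G : SimpleGraph (Fin n), OpN p C G → DG p (p / 4) G →
    ∀ (θ : ℝ) (f : Fin n → ℝ), f ∈ perp (deg G) → f ≠ 0 →
      ∑ u, ∑ v, adj G u v * f u * f v = θ * ∑ v, deg G v * f v ^ 2 → θ ^ 2 * n ≤ C1 ^ 2

/-- CH-11b: eigenvectors are not nearly constant -/
def S_INC : Prop := ∀ p : ℝ, 0 < p → p < 1 → ∀ C c ε : ℝ, 0 < C → 0 < c → 0 < ε →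
  ∃ c5 : ℝ, 0 < c5 ∧ ∃ n0 : ℕ, ∀ n : ℕ, n0 ≤ n → ∀ G : SimpleGraph (Fin n),
    OpN p C G → DG p (p / 4) G → SP c ε G →
    ∀ (θ : ℝ) (f : Fin n → ℝ), f ∈ perp (deg G) → f ≠ 0 →
      (∀ v, ∑ u, adj G v u * f u = θ * deg G v * f v) →
      c5 * n ≤ ((Finset.univ.filter (fun v : Fin n => c5 ^ 2 * sn f ≤ n * f v ^ 2)).card : ℝ) ∧
      c5 * n ^ 2 ≤ ((Finset.univ.filter (fun q : Fin n × Fin n =>
        c5 ^ 2 * sn f ≤ n * (f q.1 - f q.2) ^ 2)).card : ℝ)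

/-- CH-12a: averaging over the swaps -/
def S_SWP : Prop := ∀ (n : ℕ) (p : ℝ) (a b : Fin n), a ≠ b → ∀ P : SimpleGraph (Fin n) → Prop,
  Pr n p P = ∑ G : SimpleGraph (Fin n), wt n p G *
    (((Finset.univ.filter (fun τ : Fin n → Bool => P (swapG a b τ G))).card : ℝ) / 2 ^ n)

end Pool.Agent.W839.Ch
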