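import Pool.Agent.W839.Ch.Basic

/-! # The swaps `swapG` and the compressed eigenvalue problem -/

set_option autoImplicit false
open scoped Classical
open Finset Filter Topology

namespace Pool.Agent.W839.Ch

variable {n : ℕ} {a b : Fin n} {G : SimpleGraph (Fin n)} {τ : Fin n → Bool}

lemma adj_comm' (G : SimpleGraph (Fin n)) (u v : Fin n) : adj G u v = adj G v u := by
  unfold adj; simp only [G.adj_comm]

@[simp] lemma adj_self' (G : SimpleGraph (Fin n)) (u : Fin n) : adj G u u = 0 := by
  unfold adj; simp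

lemma adj_nonneg (G : SimpleGraph (Fin n)) (u v : Fin n) : 0 ≤ adj G u v := by
  unfold adj; split_ifs <;> norm_num

lemma adj_le_one (G : SimpleGraph (Fin n)) (u v : Fin n) : adj G u v ≤ 1 := by
  unfold adj; split_ifs <;> norm_num

lemma swap_off {u v : Fin n} (hu : u ≠ a ∧ u ≠ b) (hv : v ≠ a ∧ v ≠ b) :
    adj (swapG a b τ G) u v = adj G u v := by
  have e1 : Equiv.swap a b v = v := Equiv.swap_apply_of_ne_of_ne hv.1 hv.2
  have e2 : Equiv.swap a b u = u := Equiv.swap_apply_of_ne_of_ne hu.1 hu.2
  unfold adj swapG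
  simp only [e1, e2, ite_self]
  by_cases h : u = v
  · subst h; simp
  · simp [h]

lemma swap_a (hab : a ≠ b) {v : Fin n} (hv : v ≠ a ∧ v ≠ b) :
    adj (swapG a b τ G) a v = if τ v then adj G b v else adj G a v := by
  unfold adj swapG
  have h1 : ¬ (a ≠ a ∧ a ≠ b) := fun h => h.1 rfl
  simp only [h1, false_and, if_false, Equiv.swap_apply_left]
  have : a ≠ v := fun h => hv.1 h.symm
  by_cases ht : τ v = true <;> simp [this, ht, hv.1, hv.2]

lemma swap_b (hab : a ≠ b) {v : Fin n} (hv : v ≠ a ∧ v ≠ b) :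
    adj (swapG a b τ G) b v = if τ v then adj G a v else adj G b v := by
  unfold adj swapG
  have h1 : ¬ (b ≠ a ∧ b ≠ b) := fun h => h.2 rfl
  simp only [h1, false_and, if_false, Equiv.swap_apply_right]
  have : b ≠ v := fun h => hv.2 h.symm
  by_cases ht : τ v = true <;> simp [this, ht, hv.1, hv.2]

lemma swap_ab (hab : a ≠ b) : adj (swapG a b τ G) a b = adj G a b := by
  unfold adj swapG
  have h1 : ¬ (a ≠ a ∧ a ≠ b) := fun h => h.1 rfl
  have h2 : ¬ (b ≠ a ∧ b ≠ b) := fun h => h.2 rfl
  simp [hab]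

lemma swap_ba (hab : a ≠ b) : adj (swapG a b τ G) b a = adj G b a := by
  rw [adj_comm' _ b a, adj_comm' _ b a, swap_ab hab]

/-- the other vertices -/
noncomputable def rest (a b : Fin n) : Finset (Fin n) :=
  Finset.univ.filter (fun v => v ≠ a ∧ v ≠ b)

lemma sum_split (hab : a ≠ b) (F : Fin n → ℝ) :
    ∑ v, F v = F a + F b + ∑ v ∈ rest a b, F v := by
  have h1 : (Finset.univ : Finset (Fin n)) = insert a (insert b (rest a b)) := by
    ext v
    simp only [Finset.mem_univ, Finset.mem_insert, rest, Finset.mem_filter, true_and, true_iff]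
    tauto
  have hb : b ∉ rest a b := by simp [rest]
  have ha : a ∉ insert b (rest a b) := by simp [rest, hab]
  rw [h1, Finset.sum_insert ha, Finset.sum_insert hb, add_assoc]

lemma mem_rest {v : Fin n} : v ∈ rest a b ↔ v ≠ a ∧ v ≠ b := by simp [rest]

/-- rows of the other vertices act in the same way on vectors with `y a = y b` -/
lemma row_rest (hab : a ≠ b) {u : Fin n} (hu : u ≠ a ∧ u ≠ b) {y : Fin n → ℝ}
    (hy : y a = y b) :
    ∑ v, adj (swapG a b τ G) u v * y v = ∑ v, adj G u v * y v := by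
  rw [sum_split hab, sum_split hab (fun v => adj G u v * y v)]
  have h1 : ∑ v ∈ rest a b, adj (swapG a b τ G) u v * y v = ∑ v ∈ rest a b, adj G u v * y v :=
    Finset.sum_congr rfl (fun v hv => by rw [swap_off hu (mem_rest.1 hv)])
  rw [h1, adj_comm' _ u a, adj_comm' _ u b, swap_a hab hu, swap_b hab hu, hy,
    adj_comm' G u a, adj_comm' G u b]
  by_cases ht : τ u = true
  · simp only [ht, if_true]; ring
  · simp only [ht]; ring_nf; simp; try ring

lemma row_ab (hab : a ≠ b) (y : Fin n → ℝ) :
    ∑ v, adj (swapG a b τ G) a v * y v + ∑ v, adj (swapG a b τ G) b v * y v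
      = ∑ v, adj G a v * y v + ∑ v, adj G b v * y v := by
  rw [sum_split hab, sum_split hab (fun v => adj (swapG a b τ G) b v * y v),
    sum_split hab (fun v => adj G a v * y v), sum_split hab (fun v => adj G b v * y v)]
  have h1 : ∑ v ∈ rest a b, adj (swapG a b τ G) a v * y v
      + ∑ v ∈ rest a b, adj (swapG a b τ G) b v * y v
      = ∑ v ∈ rest a b, adj G a v * y v + ∑ v ∈ rest a b, adj G b v * y v := by
    rw [← Finset.sum_add_distrib, ← Finset.sum_add_distrib]
    refine Finset.sum_congr rfl (fun v hv => ?_)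
    rw [swap_a hab (mem_rest.1 hv), swap_b hab (mem_rest.1 hv)]
    by_cases ht : τ v = true
    · simp only [ht, if_true]; ring
    · simp [ht]
  rw [swap_ab hab, swap_ba hab]
  simp only [adj_self', zero_mul]
  linarith

lemma deg_rest (hab : a ≠ b) {u : Fin n} (hu : u ≠ a ∧ u ≠ b) :
    deg (swapG a b τ G) u = deg G u := by
  have := row_rest (τ := τ) (G := G) hab hu (y := fun _ => 1) rfl
  simpa [deg] using this

lemma deg_ab (hab : a ≠ b) :
    deg (swapG a b τ G) a + deg (swapG a b τ G) b = deg G a + deg G b := by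
  have := row_ab (τ := τ) (G := G) hab (fun _ => 1)
  simpa [deg] using this

lemma form_deg (hab : a ≠ b) {F : Fin n → ℝ} (hF : F a = F b) :
    ∑ v, deg (swapG a b τ G) v * F v = ∑ v, deg G v * F v := by
  rw [sum_split hab, sum_split hab (fun v => deg G v * F v)]
  have h1 : ∑ v ∈ rest a b, deg (swapG a b τ G) v * F v = ∑ v ∈ rest a b, deg G v * F v :=
    Finset.sum_congr rfl (fun v hv => by rw [deg_rest hab (mem_rest.1 hv)])
  have h2 := deg_ab (τ := τ) (G := G) hab
  rw [h1, hF]
  have : deg (swapG a b τ G) a * F b + deg (swapG a b τ G) b * F b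
      = deg G a * F b + deg G b * F b := by rw [← add_mul, ← add_mul, h2]
  linarith

lemma form_adj (hab : a ≠ b) {x y : Fin n → ℝ} (hx : x a = x b) (hy : y a = y b) :
    ∑ u, ∑ v, adj (swapG a b τ G) u v * x u * y v = ∑ u, ∑ v, adj G u v * x u * y v := by
  have e : ∀ H : SimpleGraph (Fin n), ∑ u, ∑ v, adj H u v * x u * y v
      = ∑ u, x u * ∑ v, adj H u v * y v := by
    intro H
    refine Finset.sum_congr rfl (fun u _ => ?_)
    rw [Finset.mul_sum]
    exact Finset.sum_congr rfl (fun v _ => by ring)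
  rw [e, e, sum_split hab, sum_split hab (fun u => x u * ∑ v, adj G u v * y v)]
  have h1 : ∑ u ∈ rest a b, x u * ∑ v, adj (swapG a b τ G) u v * y v
      = ∑ u ∈ rest a b, x u * ∑ v, adj G u v * y v :=
    Finset.sum_congr rfl (fun u hu => by rw [row_rest hab (mem_rest.1 hu) hy])
  have h2 := row_ab (τ := τ) (G := G) hab y
  rw [h1, hx]
  have : x b * ∑ v, adj (swapG a b τ G) a v * y v + x b * ∑ v, adj (swapG a b τ G) b v * y v
      = x b * ∑ v, adj G a v * y v + x b * ∑ v, adj G b v * y v := by
    rw [← mul_add, ← mul_add, h2]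
  linarith

lemma mem_perp2_swap (hab : a ≠ b) {x : Fin n → ℝ} :
    x ∈ perp2 (deg (swapG a b τ G)) a b ↔ x ∈ perp2 (deg G) a b := by
  constructor
  · rintro ⟨h1, h2⟩
    exact ⟨by rw [← form_deg (τ := τ) hab h2]; exact h1, h2⟩
  · rintro ⟨h1, h2⟩
    exact ⟨by rw [form_deg (τ := τ) hab h2]; exact h1, h2⟩

/-- the eigen system of the compression is the same for all swaps -/
noncomputable def ESys.swap (hab : a ≠ b) (τ : Fin n → Bool) {m : ℕ}
    (E : ESys (adj G) (deg G) (perp2 (deg G) a b) m) :
    ESys (adj (swapG a b τ G)) (deg (swapG a b τ G)) (perp2 (deg (swapG a b τ G)) a b) m where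
  θ := E.θ
  f := E.f
  anti := E.anti
  orth := by
    intro i j
    rw [← E.orth i j]
    have h := form_deg (τ := τ) (G := G) hab (F := fun v => E.f i v * E.f j v)
      (by rw [(E.mem i).2, (E.mem j).2])
    simp only [← mul_assoc] at h
    exact h
  mem := fun i => (mem_perp2_swap hab).2 (E.mem i)
  eig := by
    intro i x hx
    have hx' := (mem_perp2_swap hab).1 hx
    rw [form_adj hab hx'.2 (E.mem i).2, E.eig i x hx']
    have h := form_deg (τ := τ) (G := G) hab (F := fun v => x v * E.f i v)
      (by rw [hx'.2, (E.mem i).2])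
    simp only [← mul_assoc] at h
    rw [h]
  expand := by
    intro x hx v
    have hx' := (mem_perp2_swap hab).1 hx
    rw [E.expand x hx' v]
    refine Finset.sum_congr rfl (fun i _ => ?_)
    have h := form_deg (τ := τ) (G := G) hab (F := fun v => x v * E.f i v)
      (by rw [hx'.2, (E.mem i).2])
    simp only [← mul_assoc] at h
    rw [h]

/-- the coefficients of the Rademacher sum -/
noncomputable def bvec (G : SimpleGraph (Fin n)) (a b : Fin n) (θ : ℝ) (w : Fin n → ℝ)
    (v : Fin n) : ℝ :=
  if v ≠ a ∧ v ≠ b then (adj G a v - adj G b v) * (w v - θ * w a) else 0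

/-- twice the Lagrange multiplier -/
noncomputable def beta2 (H : SimpleGraph (Fin n)) (a b : Fin n) (θ : ℝ) (w : Fin n → ℝ) : ℝ :=
  (∑ v, adj H a v * w v - θ * deg H a * w a) - (∑ v, adj H b v * w v - θ * deg H b * w b)

lemma beta2_swap (hab : a ≠ b) (θ : ℝ) {w : Fin n → ℝ} (hw : w a = w b) :
    beta2 (swapG a b τ G) a b θ w
      = ∑ v, (if τ v then - bvec G a b θ w v else bvec G a b θ w v) := by
  unfold beta2 deg
  rw [sum_split hab (fun v => adj (swapG a b τ G) a v * w v),
    sum_split hab (fun v => adj (swapG a b τ G) b v * w v),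
    sum_split hab (fun v => adj (swapG a b τ G) a v),
    sum_split hab (fun v => adj (swapG a b τ G) b v),
    sum_split hab (fun v => if τ v then - bvec G a b θ w v else bvec G a b θ w v)]
  have hA : bvec G a b θ w a = 0 := by simp [bvec]
  have hB : bvec G a b θ w b = 0 := by simp [bvec]
  rw [swap_ab hab, swap_ba hab, hA, hB, ← hw]
  simp only [adj_self', zero_mul, neg_zero, ite_self, zero_add, add_zero]
  have h3 : ∑ v ∈ rest a b, (if τ v then - bvec G a b θ w v else bvec G a b θ w v)
      = (∑ v ∈ rest a b, adj (swapG a b τ G) a v * w v)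
        - (∑ v ∈ rest a b, adj (swapG a b τ G) b v * w v)
        - θ * w a * ((∑ v ∈ rest a b, adj (swapG a b τ G) a v)
          - ∑ v ∈ rest a b, adj (swapG a b τ G) b v) := by
    rw [← Finset.sum_sub_distrib, ← Finset.sum_sub_distrib, Finset.mul_sum,
      ← Finset.sum_sub_distrib]
    refine Finset.sum_congr rfl (fun v hv => ?_)
    have hv' := mem_rest.1 hv
    rw [swap_a hab hv', swap_b hab hv']
    unfold bvec
    rw [if_pos hv']
    by_cases ht : τ v = true
    · simp only [ht, if_true]; ring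
    · simp only [ht, if_false, Bool.false_eq_true]; ring
  rw [h3, adj_comm' G b a]
  ring

end Pool.Agent.W839.Ch
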